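import Pool.Agent.Helper732.HN.Defs

set_option autoImplicit false

open Set Filter Topology

namespace Pool.Agent.Helper732.HN


theorem sq_sum_nonneg (p : R3) : 0 ≤ p.1 ^ 2 + p.2.1 ^ 2 + p.2.2 ^ 2 := by positivity

theorem nrm_sq (p : R3) : nrm p ^ 2 = p.1 ^ 2 + p.2.1 ^ 2 + p.2.2 ^ 2 := by
  unfold nrm
  exact Real.sq_sqrt (sq_sum_nonneg p)

theorem nrm_nonneg (p : R3) : 0 ≤ nrm p := Real.sqrt_nonneg _

theorem nrm_ge (p : R3) : p.1 ≤ nrm p := by
  unfold nrm
  apply Real.le_sqrt_of_sq_le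
  nlinarith [sq_nonneg p.2.1, sq_nonneg p.2.2]

theorem nrm_continuous : Continuous nrm := by
  unfold nrm
  fun_prop

theorem uu_continuous : Continuous uu := by
  unfold uu
  exact ((nrm_continuous.sub continuous_fst).div_const 2).sqrt

theorem uu_sq (p : R3) : uu p ^ 2 = (nrm p - p.1) / 2 := by
  unfold uu
  apply Real.sq_sqrt
  have := nrm_ge p
  linarith

theorem uu_ray {p : R3} (hp : p ∈ Ray) : uu p = 0 := by
  obtain ⟨h1, h2⟩ := hp
  have h3 : p.2.1 = 0 := by rw [h2]; rfl
  have h4 : p.2.2 = 0 := by rw [h2]; rfl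
  have : nrm p = p.1 := by
    unfold nrm
    rw [h3, h4]
    simp only [ne_eq, OfNat.ofNat_ne_zero, not_false_eq_true, zero_pow, add_zero]
    exact Real.sqrt_sq h1
  unfold uu
  rw [this]
  simp

theorem uu_pos {p : R3} (hp : p ∉ Ray) : 0 < uu p := by
  unfold uu
  apply Real.sqrt_pos.mpr
  have h1 := nrm_ge p
  rcases h1.lt_or_eq with h | h
  · linarith
  · exfalso
    apply hp
    have h2 := nrm_sq p
    rw [← h] at h2
    have h3 : p.2.1 = 0 := by nlinarith [sq_nonneg p.2.1, sq_nonneg p.2.2]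
    have h4 : p.2.2 = 0 := by nlinarith [sq_nonneg p.2.1, sq_nonneg p.2.2]
    refine ⟨?_, Prod.ext h3 h4⟩
    rw [h]
    exact nrm_nonneg p

theorem pari_notMem {p : R3} (hp : 0 < p.1) : pari p ∉ Ray := by
  rintro ⟨h1, h2⟩
  unfold pari at h1 h2
  simp only at h1 h2
  have h3 : 2 * p.1 * p.2.1 = 0 := congrArg Prod.fst h2
  have h4 : 2 * p.1 * p.2.2 = 0 := congrArg Prod.snd h2
  have h5 : p.2.1 = 0 := by
    rcases mul_eq_zero.mp h3 with h | h
    · linarith
    · exact h
  have h6 : p.2.2 = 0 := by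
    rcases mul_eq_zero.mp h4 with h | h
    · linarith
    · exact h
  rw [h5, h6] at h1
  nlinarith

theorem nrm_pari (p : R3) : nrm (pari p) = p.1 ^ 2 + p.2.1 ^ 2 + p.2.2 ^ 2 := by
  unfold nrm pari
  simp only
  rw [show (p.2.1 ^ 2 + p.2.2 ^ 2 - p.1 ^ 2) ^ 2 + (2 * p.1 * p.2.1) ^ 2 + (2 * p.1 * p.2.2) ^ 2
    = (p.1 ^ 2 + p.2.1 ^ 2 + p.2.2 ^ 2) ^ 2 by ring]
  exact Real.sqrt_sq (sq_sum_nonneg p)

theorem uu_pari {p : R3} (hp : 0 < p.1) : uu (pari p) = p.1 := by
  unfold uu
  rw [nrm_pari]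
  unfold pari
  simp only
  rw [show (p.1 ^ 2 + p.2.1 ^ 2 + p.2.2 ^ 2 - (p.2.1 ^ 2 + p.2.2 ^ 2 - p.1 ^ 2)) / 2 = p.1 ^ 2 by
    ring]
  exact Real.sqrt_sq hp.le

theorem par_pari {p : R3} (hp : 0 < p.1) : par (pari p) = p := by
  unfold par
  rw [uu_pari hp]
  unfold pari
  simp only
  have h : (2 * p.1) ≠ 0 := by positivity
  refine Prod.ext rfl (Prod.ext ?_ ?_)
  · simp only
    field_simp
  · simp only
    field_simp

theorem pari_par {p : R3} (hp : p ∉ Ray) : pari (par p) = p := by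
  have hu := uu_pos hp
  have h2 := uu_sq p
  have h3 := nrm_sq p
  unfold pari par
  simp only
  refine Prod.ext ?_ (Prod.ext ?_ ?_)
  · simp only
    have hne : (2 * uu p) ^ 2 ≠ 0 := by positivity
    have : (p.2.1 / (2 * uu p)) ^ 2 + (p.2.2 / (2 * uu p)) ^ 2 - uu p ^ 2 =
        (p.2.1 ^ 2 + p.2.2 ^ 2 - 4 * (uu p ^ 2) ^ 2) / (4 * uu p ^ 2) := by
      field_simp
      ring
    rw [this, div_eq_iff (by positivity), h2]
    nlinarith
  · simp only
    field_simp
  · simp only
    field_simp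

theorem pari_continuous : Continuous pari := by
  unfold pari
  fun_prop

theorem par_continuousOn : ContinuousOn par Rayᶜ := by
  unfold par
  have hu : ContinuousOn uu Rayᶜ := uu_continuous.continuousOn
  refine hu.prodMk (ContinuousOn.prodMk ?_ ?_)
  · refine ContinuousOn.div (by fun_prop) (continuousOn_const.mul hu) ?_
    intro x hx
    have := uu_pos hx
    positivity
  · refine ContinuousOn.div (by fun_prop) (continuousOn_const.mul hu) ?_
    intro x hx
    have := uu_pos hx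
    positivity

theorem isClosed_Ray : IsClosed Ray := by
  unfold Ray
  exact (isClosed_le continuous_const continuous_fst).inter
    (isClosed_eq continuous_snd continuous_const)

/-- the part of the strip in the range of `tau` -/
def Reg (q : ℕ) (f : ℝ → ℝ) : Set R3 :=
  {p | 0 < p.1 ∧ 0 < p.2.1 ∧ p.2.1 < (q : ℝ) + 3 / 4 ∧ f p.1 < p.2.2 ∧ p.2.2 < 1}

/-- the inverse of `tau` -/
noncomputable def tauI (q : ℕ) (f w : ℝ → ℝ) (p : R3) : R3 :=
  (1 / p.1, Real.log (p.2.1 / ((q : ℝ) + 3 / 4 - p.2.1)) + w p.1,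
    Real.log ((p.2.2 - f p.1) / (1 - p.2.2) * (4 / 3)))

section tau

variable {q : ℕ} {f w : ℝ → ℝ} (hf : Continuous f) (hw : Continuous w)
  (hb : ∀ x, |f x| ≤ 3 / 4)

include hb in
theorem Reg_subset : Reg q f ⊆ S := by
  rintro p ⟨h1, h2, h3, h4, h5⟩
  refine ⟨h1, h2, ?_, h5⟩
  have := (abs_le.mp (hb p.1)).1
  linarith

include hf in
theorem isOpen_Reg : IsOpen (Reg q f) := by
  unfold Reg
  have c1 : Continuous fun p : R3 => p.1 := continuous_fst
  have c2 : Continuous fun p : R3 => p.2.1 := by fun_prop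
  have c3 : Continuous fun p : R3 => p.2.2 := by fun_prop
  have c4 : Continuous fun p : R3 => f p.1 := hf.comp c1
  exact (isOpen_lt continuous_const c1).inter ((isOpen_lt continuous_const c2).inter
    ((isOpen_lt c2 continuous_const).inter ((isOpen_lt c4 c3).inter
      (isOpen_lt c3 continuous_const))))

include hb in
theorem tau_mem {p : R3} (hp : 0 < p.1) : tau q f w p ∈ Reg q f := by
  unfold tau Reg
  simp only [mem_setOf_eq]
  have e1 := Real.exp_pos (p.2.1 - w (1 / p.1))
  have e2 := Real.exp_pos p.2.2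
  have hq : (0 : ℝ) < (q : ℝ) + 3 / 4 := by positivity
  have hb1 := abs_le.mp (hb (1 / p.1))
  refine ⟨by positivity, by positivity, ?_, ?_, ?_⟩
  · rw [div_lt_iff₀ (by positivity)]
    nlinarith
  · rw [lt_div_iff₀ (by positivity)]
    nlinarith
  · rw [div_lt_iff₀ (by positivity)]
    nlinarith

theorem tauI_tau {p : R3} (hb : ∀ x, |f x| ≤ 3 / 4) (hp : 0 < p.1) :
    tauI q f w (tau q f w p) = p := by
  unfold tauI tau
  simp only [one_div, inv_inv]
  have e1 := Real.exp_pos (p.2.1 - w (p.1)⁻¹)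
  have e2 := Real.exp_pos p.2.2
  have hq : (0 : ℝ) < (q : ℝ) + 3 / 4 := by positivity
  have hb1 := abs_le.mp (hb (p.1)⁻¹)
  refine Prod.ext rfl (Prod.ext ?_ ?_)
  · simp only
    set E := Real.exp (p.2.1 - w (p.1)⁻¹) with hE
    have h1 : ((q : ℝ) + 3 / 4) * E / (1 + E) / ((q : ℝ) + 3 / 4 - ((q : ℝ) + 3 / 4) * E / (1 + E))
        = E := by
      have h2 : (q : ℝ) + 3 / 4 - ((q : ℝ) + 3 / 4) * E / (1 + E) = ((q : ℝ) + 3 / 4) / (1 + E) := by
        field_simp
        ring
      rw [h2]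
      field_simp
    rw [h1, hE, Real.log_exp]
    ring
  · simp only
    generalize f (p.1)⁻¹ = F at *
    set E := Real.exp p.2.2 with hE
    have h1 : ((F + 3 / 4 * E) / (1 + 3 / 4 * E) - F) /
        (1 - (F + 3 / 4 * E) / (1 + 3 / 4 * E)) * (4 / 3) = E := by
      have hne : (1 + 3 / 4 * E) ≠ 0 := by positivity
      have hne2 : 1 - F ≠ 0 := by linarith
      have h2 : (F + 3 / 4 * E) / (1 + 3 / 4 * E) - F =
          (1 - F) * (3 / 4 * E) / (1 + 3 / 4 * E) := by
        field_simp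
        ring
      have h3 : 1 - (F + 3 / 4 * E) / (1 + 3 / 4 * E) =
          (1 - F) / (1 + 3 / 4 * E) := by
        field_simp
        ring
      rw [h2, h3]
      field_simp
    rw [h1, hE, Real.log_exp]

theorem tau_tauI {p : R3} (hp : p ∈ Reg q f) : tau q f w (tauI q f w p) = p := by
  obtain ⟨h1, h2, h3, h4, h5⟩ := hp
  unfold tau tauI
  simp only [one_div, inv_inv]
  have hA : 0 < p.2.1 / ((q : ℝ) + 3 / 4 - p.2.1) := div_pos h2 (by linarith)
  have hB : 0 < (p.2.2 - f p.1) / (1 - p.2.2) * (4 / 3) :=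
    mul_pos (div_pos (by linarith) (by linarith)) (by norm_num)
  refine Prod.ext rfl (Prod.ext ?_ ?_)
  · simp only
    rw [add_sub_cancel_right, Real.exp_log hA]
    have hq : (0 : ℝ) < (q : ℝ) + 3 / 4 := by positivity
    generalize (q : ℝ) + 3 / 4 = Q at *
    have h10 : Q - p.2.1 ≠ 0 := by linarith
    have h6 : 1 + p.2.1 / (Q - p.2.1) = Q / (Q - p.2.1) := by
      field_simp
      ring
    rw [h6]
    field_simp
  · simp only
    rw [Real.exp_log hB]
    have h7 : 1 - p.2.2 ≠ 0 := by linarith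
    have h8 : 1 - f p.1 ≠ 0 := by linarith
    have h9 : 3 / 4 * ((p.2.2 - f p.1) / (1 - p.2.2) * (4 / 3)) = (p.2.2 - f p.1) / (1 - p.2.2) := by
      ring
    rw [h9]
    have h10 : 1 + (p.2.2 - f p.1) / (1 - p.2.2) = (1 - f p.1) / (1 - p.2.2) := by
      field_simp
      ring
    have h11 : f p.1 + (p.2.2 - f p.1) / (1 - p.2.2) = p.2.2 * (1 - f p.1) / (1 - p.2.2) := by
      field_simp
      ring
    rw [h10, h11]
    field_simp

include hf hw in
theorem tau_continuousOn : ContinuousOn (tau q f w) {p | 0 < p.1} := by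
  unfold tau
  have c1 : ContinuousOn (fun p : R3 => 1 / p.1) {p | 0 < p.1} := by
    refine ContinuousOn.div continuousOn_const continuous_fst.continuousOn ?_
    intro x hx
    exact ne_of_gt hx
  have c2 : ContinuousOn (fun p : R3 => f (1 / p.1)) {p | 0 < p.1} := hf.comp_continuousOn c1
  have c3 : ContinuousOn (fun p : R3 => w (1 / p.1)) {p | 0 < p.1} := hw.comp_continuousOn c1
  have c4 : ContinuousOn (fun p : R3 => Real.exp (p.2.1 - w (1 / p.1))) {p | 0 < p.1} := by
    refine Real.continuous_exp.comp_continuousOn (ContinuousOn.sub ?_ c3)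
    fun_prop
  have c5 : ContinuousOn (fun p : R3 => Real.exp p.2.2) {p | 0 < p.1} := by fun_prop
  refine c1.prodMk (ContinuousOn.prodMk ?_ ?_)
  · refine ContinuousOn.div (continuousOn_const.mul c4) (continuousOn_const.add c4) ?_
    intro x _
    have := Real.exp_pos (x.2.1 - w (1 / x.1))
    positivity
  · refine ContinuousOn.div (c2.add (continuousOn_const.mul c5))
      (continuousOn_const.add (continuousOn_const.mul c5)) ?_
    intro x _
    have := Real.exp_pos x.2.2
    positivity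

include hf hw in
theorem tauI_continuousOn : ContinuousOn (tauI q f w) (Reg q f) := by
  unfold tauI
  have c1 : ContinuousOn (fun p : R3 => 1 / p.1) (Reg q f) := by
    refine ContinuousOn.div continuousOn_const continuous_fst.continuousOn ?_
    intro x hx
    exact ne_of_gt hx.1
  have c2 : ContinuousOn (fun p : R3 => f p.1) (Reg q f) := (hf.comp continuous_fst).continuousOn
  have c3 : ContinuousOn (fun p : R3 => w p.1) (Reg q f) := (hw.comp continuous_fst).continuousOn
  refine c1.prodMk (ContinuousOn.prodMk ?_ ?_)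
  · refine ContinuousOn.add (ContinuousOn.log (ContinuousOn.div (by fun_prop) (by fun_prop) ?_) ?_) c3
    · rintro x ⟨h1, h2, h3, h4, h5⟩
      linarith
    · rintro x ⟨h1, h2, h3, h4, h5⟩
      exact ne_of_gt (div_pos h2 (by linarith))
  · refine ContinuousOn.log (ContinuousOn.mul (ContinuousOn.div
      (ContinuousOn.sub (by fun_prop) c2) (by fun_prop) ?_) continuousOn_const) ?_
    · rintro x ⟨h1, h2, h3, h4, h5⟩
      linarith
    · rintro x ⟨h1, h2, h3, h4, h5⟩
      exact ne_of_gt (mul_pos (div_pos (by linarith) (by linarith)) (by norm_num))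

end tau

end Pool.Agent.Helper732.HN
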