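import Pool.Agent.Helper732.HN.Defs

set_option autoImplicit false

open Set Filter Topology

namespace Pool.Agent.Helper732.HN



/-- bump homeomorphism of `R3` -/
theorem bump_homeo (v0 v : R3) (ε : ℝ) (hε : 0 < ε) (hv : ‖v - v0‖ < ε / 2) :
    ∃ g : R3 ≃ₜ R3, g v0 = v ∧ ∀ p, p ∉ Metric.closedBall v0 ε → g p = p := by
  set G : R3 → R3 := fun p => p + max 0 (1 - ‖p - v0‖ / ε) • (v - v0) with hG
  have hlip : ∀ p p' : R3, |max 0 (1 - ‖p - v0‖ / ε) - max 0 (1 - ‖p' - v0‖ / ε)| ≤ ‖p - p'‖ / ε := by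
    intro p p'
    rw [max_comm 0, max_comm 0]
    refine le_trans (abs_max_sub_max_le_abs _ _ _) ?_
    have e : 1 - ‖p - v0‖ / ε - (1 - ‖p' - v0‖ / ε) = (‖p' - v0‖ - ‖p - v0‖) / ε := by ring
    rw [e, abs_div, abs_of_pos hε]
    apply div_le_div_of_nonneg_right _ hε.le
    refine le_trans (abs_norm_sub_norm_le _ _) ?_
    rw [sub_sub_sub_cancel_right, norm_sub_rev]
  have hap : ApproximatesLinearOn G ((ContinuousLinearEquiv.refl ℝ R3 : R3 ≃L[ℝ] R3) : R3 →L[ℝ] R3) Set.univ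
      (1 / 2 : NNReal) := by
    intro p _ p' _
    have e : G p - G p' - ((ContinuousLinearEquiv.refl ℝ R3 : R3 ≃L[ℝ] R3) : R3 →L[ℝ] R3) (p - p') =
        (max 0 (1 - ‖p - v0‖ / ε) - max 0 (1 - ‖p' - v0‖ / ε)) • (v - v0) := by
      simp only [hG, ContinuousLinearEquiv.coe_refl, ContinuousLinearMap.id_apply]
      rw [sub_smul]
      abel
    rw [e, norm_smul, Real.norm_eq_abs]
    have h1 := hlip p p'
    have h2 : ‖p - p'‖ / ε * (ε / 2) = ‖p - p'‖ / 2 := by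
      field_simp
    calc _ ≤ ‖p - p'‖ / ε * (ε / 2) := by
          apply mul_le_mul h1 hv.le (norm_nonneg _)
          positivity
      _ = ((1 / 2 : NNReal) : ℝ) * ‖p - p'‖ := by rw [h2]; push_cast; ring
  refine ⟨hap.toHomeomorph G (Or.inr ?_), ?_, ?_⟩
  · have hle : ‖((ContinuousLinearEquiv.refl ℝ R3).symm : R3 →L[ℝ] R3)‖₊ ≤ 1 := by
      rw [← NNReal.coe_le_coe]
      exact ContinuousLinearMap.norm_id_le
    have hne : 0 < ‖((ContinuousLinearEquiv.refl ℝ R3).symm : R3 →L[ℝ] R3)‖₊ := by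
      rw [pos_iff_ne_zero]
      intro h0
      rw [nnnorm_eq_zero] at h0
      have := congrArg (fun L : R3 →L[ℝ] R3 => L (1, 0, 0)) h0
      simp at this
    have h1 : (1 : NNReal) ≤ ‖((ContinuousLinearEquiv.refl ℝ R3).symm : R3 →L[ℝ] R3)‖₊⁻¹ :=
      (one_le_inv₀ hne).2 hle
    refine lt_of_lt_of_le ?_ h1
    rw [← NNReal.coe_lt_coe]
    norm_num
  · show G v0 = v
    simp [hG]
  · intro p hp
    show G p = p
    simp only [Metric.mem_closedBall, not_le, dist_eq_norm] at hp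
    have : max 0 (1 - ‖p - v0‖ / ε) = 0 := by
      apply max_eq_left
      rw [sub_nonpos, le_div_iff₀ hε]
      linarith
    simp [hG, this]

open Classical in
/-- extension by the identity of a map of the chart -/
noncomputable def extG {Z : Type} (φ : R3 → Z) (G : R3 → R3) (z : Z) : Z :=
  if h : z ∈ Set.range φ then φ (G h.choose) else z

theorem extG_in {Z : Type} (φ : R3 → Z) (hφ : Function.Injective φ) (G : R3 → R3) (p : R3) :
    extG φ G (φ p) = φ (G p) := by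
  unfold extG
  have h : φ p ∈ Set.range φ := ⟨p, rfl⟩
  rw [dif_pos h]
  rw [hφ h.choose_spec]

theorem extG_out {Z : Type} (φ : R3 → Z) (hφ : Function.Injective φ) (G : R3 → R3) (B : Set R3)
    (hB : ∀ p, p ∉ B → G p = p) (z : Z) (hz : z ∉ φ '' B) :
    extG φ G z = z := by
  by_cases h : z ∈ Set.range φ
  · obtain ⟨p, rfl⟩ := h
    rw [extG_in φ hφ, hB]
    intro hp
    exact hz ⟨p, hp, rfl⟩
  · unfold extG
    rw [dif_neg h]

theorem extG_cont {Z : Type} [TopologicalSpace Z] [T2Space Z] (φ : R3 → Z) (hφ : IsOpenEmbedding φ)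
    (G : R3 → R3) (hG : Continuous G) (B : Set R3) (hBc : IsCompact B)
    (hB : ∀ p, p ∉ B → G p = p) : Continuous (extG φ G) := by
  rw [continuous_iff_continuousAt]
  intro z
  by_cases h : z ∈ Set.range φ
  · obtain ⟨p, rfl⟩ := h
    rw [← hφ.continuousAt_iff]
    have : extG φ G ∘ φ = φ ∘ G := by
      funext p
      exact extG_in φ hφ.injective G p
    rw [this]
    exact (hφ.continuous.comp hG).continuousAt
  · have hcl : IsClosed (φ '' B) := (hBc.image hφ.continuous).isClosed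
    have hz : z ∈ (φ '' B)ᶜ := by
      rintro ⟨p, _, rfl⟩
      exact h ⟨p, rfl⟩
    have hev : extG φ G =ᶠ[𝓝 z] id := by
      filter_upwards [hcl.isOpen_compl.mem_nhds hz] with z' hz'
      exact extG_out φ hφ.injective G B hB z' hz'
    exact continuousAt_id.congr hev.symm

theorem hom_local {Z : Type} [TopologicalSpace Z] [T2Space Z] {O : Set Z} (hO : IsOpen O)
    (x : Z) (hx : x ∈ O) (φ : R3 → Z) (hφ : IsOpenEmbedding φ) (hxφ : x ∈ Set.range φ) :
    ∃ U : Set Z, IsOpen U ∧ x ∈ U ∧ ∀ y ∈ U, ∃ h : Z ≃ₜ Z, h x = y ∧ ∃ C : Set Z, IsCompact C ∧ C ⊆ O ∧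
      ∀ z ∉ C, h z = z := by
  obtain ⟨v0, rfl⟩ := hxφ
  have hop : IsOpen (φ ⁻¹' O) := hO.preimage hφ.continuous
  obtain ⟨δ, hδ, hδO⟩ := Metric.isOpen_iff.1 hop v0 hx
  set ε := δ / 2 with hε
  have hε0 : 0 < ε := by positivity
  refine ⟨φ '' Metric.ball v0 (ε / 2), hφ.isOpenMap _ Metric.isOpen_ball, ⟨v0, by simp [hε0], rfl⟩, ?_⟩
  rintro _ ⟨v, hv, rfl⟩
  rw [Metric.mem_ball, dist_eq_norm] at hv
  obtain ⟨g, hg1, hg2⟩ := bump_homeo v0 v ε hε0 hv
  have hg3 : ∀ p, p ∉ Metric.closedBall v0 ε → g.symm p = p := by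
    intro p hp
    rw [Homeomorph.symm_apply_eq]
    exact (hg2 p hp).symm
  have hcB : IsCompact (Metric.closedBall v0 ε) := isCompact_closedBall _ _
  refine ⟨⟨⟨extG φ g, extG φ g.symm, ?_, ?_⟩, ?_, ?_⟩, ?_, φ '' Metric.closedBall v0 ε,
    hcB.image hφ.continuous, ?_, ?_⟩
  · intro z
    by_cases h : z ∈ Set.range φ
    · obtain ⟨p, rfl⟩ := h
      rw [extG_in φ hφ.injective, extG_in φ hφ.injective, Homeomorph.symm_apply_apply]
    · have hz : z ∉ φ '' Metric.closedBall v0 ε := by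
        rintro ⟨p, _, rfl⟩
        exact h ⟨p, rfl⟩
      rw [extG_out φ hφ.injective g _ hg2 z hz, extG_out φ hφ.injective g.symm _ hg3 z hz]
  · intro z
    by_cases h : z ∈ Set.range φ
    · obtain ⟨p, rfl⟩ := h
      rw [extG_in φ hφ.injective, extG_in φ hφ.injective, Homeomorph.apply_symm_apply]
    · have hz : z ∉ φ '' Metric.closedBall v0 ε := by
        rintro ⟨p, _, rfl⟩
        exact h ⟨p, rfl⟩
      rw [extG_out φ hφ.injective g.symm _ hg3 z hz, extG_out φ hφ.injective g _ hg2 z hz]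
  · exact extG_cont φ hφ g g.continuous _ hcB hg2
  · exact extG_cont φ hφ g.symm g.symm.continuous _ hcB hg3
  · show extG φ g (φ v0) = φ v
    rw [extG_in φ hφ.injective, hg1]
  · rintro _ ⟨p, hp, rfl⟩
    apply hδO
    rw [Metric.mem_closedBall] at hp
    rw [Metric.mem_ball]
    linarith
  · intro z hz
    exact extG_out φ hφ.injective g _ hg2 z hz

/-- Homogeneity: in a connected open set of a Hausdorff space which is locally `R3`, any point can
be moved to any other one by a homeomorphism with compact support in the open set. -/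
theorem hom_lemma {Z : Type} [TopologicalSpace Z] [T2Space Z] {O : Set Z} (hO : IsOpen O)
    (hc : IsPreconnected O) (hch : ∀ x ∈ O, ∃ φ : R3 → Z, IsOpenEmbedding φ ∧ x ∈ Set.range φ)
    {x y : Z} (hx : x ∈ O) (hy : y ∈ O) :
    ∃ h : Z ≃ₜ Z, h x = y ∧ ∃ C : Set Z, IsCompact C ∧ C ⊆ O ∧ (∀ z ∉ C, h z = z) ∧
      ∀ z ∈ C, h z ∈ C := by
  -- the relation
  let Rel : Z → Z → Prop := fun a b => ∃ h : Z ≃ₜ Z, h a = b ∧ ∃ C : Set Z, IsCompact C ∧ C ⊆ O ∧
    ∀ z ∉ C, h z = z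
  have hsymm : ∀ a b, Rel a b → Rel b a := by
    rintro a b ⟨h, hab, C, hC, hCO, hid⟩
    refine ⟨h.symm, by rw [← hab, Homeomorph.symm_apply_apply], C, hC, hCO, ?_⟩
    intro z hz
    rw [Homeomorph.symm_apply_eq]
    exact (hid z hz).symm
  have htrans : ∀ a b c, Rel a b → Rel b c → Rel a c := by
    rintro a b c ⟨h, hab, C, hC, hCO, hid⟩ ⟨h', hab', C', hC', hCO', hid'⟩
    refine ⟨h.trans h', by rw [Homeomorph.trans_apply, hab, hab'], C ∪ C', hC.union hC',
      Set.union_subset hCO hCO', ?_⟩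
    intro z hz
    rw [Set.mem_union, not_or] at hz
    rw [Homeomorph.trans_apply, hid z hz.1, hid' z hz.2]
  have hloc : ∀ a ∈ O, ∃ U : Set Z, IsOpen U ∧ a ∈ U ∧ ∀ b ∈ U, Rel a b := by
    intro a ha
    obtain ⟨φ, hφ, haφ⟩ := hch a ha
    exact hom_local hO a ha φ hφ haφ
  have hrefl : Rel x x := ⟨Homeomorph.refl Z, rfl, ∅, isCompact_empty, Set.empty_subset _, fun z _ => rfl⟩
  -- the class of x and its complement
  have hA : IsOpen {b | b ∈ O ∧ Rel x b} := by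
    rw [isOpen_iff_forall_mem_open]
    rintro b ⟨hb, hxb⟩
    obtain ⟨U, hU, hbU, hUr⟩ := hloc b hb
    exact ⟨U ∩ O, fun c hc => ⟨hc.2, htrans _ _ _ hxb (hUr c hc.1)⟩, hU.inter hO, hbU, hb⟩
  have hB : IsOpen {b | b ∈ O ∧ ¬ Rel x b} := by
    rw [isOpen_iff_forall_mem_open]
    rintro b ⟨hb, hxb⟩
    obtain ⟨U, hU, hbU, hUr⟩ := hloc b hb
    exact ⟨U ∩ O, fun c hc => ⟨hc.2, fun hxc => hxb (htrans _ _ _ hxc (hsymm _ _ (hUr c hc.1)))⟩,
      hU.inter hO, hbU, hb⟩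
  have hxy : Rel x y := by
    by_contra hcon
    obtain ⟨c, _, hc1, hc2⟩ := hc _ _ hA hB (by
      intro b hb
      by_cases h : Rel x b
      · exact Or.inl ⟨hb, h⟩
      · exact Or.inr ⟨hb, h⟩) ⟨x, hx, hx, hrefl⟩ ⟨y, hy, hy, hcon⟩
    exact hc2.2 hc1.2
  obtain ⟨h, hxy', C, hC, hCO, hid⟩ := hxy
  refine ⟨h, hxy', C, hC, hCO, hid, ?_⟩
  intro z hz
  by_contra hcon
  have := hid _ hcon
  have h2 : h z = z := h.injective this
  rw [h2] at hcon
  exact hcon hz

end Pool.Agent.Helper732.HN
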