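import Pool.Agent.Helper732.HN.B

set_option autoImplicit false

open Set Filter Topology

namespace Pool.Agent.Helper732.HN

section att

variable {l : Om → ℕ} {t : TopologicalSpace X} {α : Om} {σ : Str} {q : ℕ} {f w : ℝ → ℝ}
  (hf : Continuous f) (hw : Continuous w) (hb : ∀ x, |f x| ≤ 3 / 4)

theorem att_ray {E : R3 → X} {p : R3} (hp : p ∈ Ray) :
    att α E q f w p = Sum.inr (α, p.1.toNNReal) := by
  unfold att; rw [if_pos hp]

theorem att_off {E : R3 → X} {p : R3} (hp : p ∉ Ray) :
    att α E q f w p = E (tau q f w (par p)) := by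
  unfold att; rw [if_neg hp]

include hb in
/-- a point off the ray goes to a point of the region `Reg q f` with first coordinate `1 / uu p` -/
theorem att_off' {E : R3 → X} {p : R3} (hp : p ∉ Ray) :
    ∃ p' ∈ Reg q f, p'.1 = 1 / uu p ∧ att α E q f w p = E p' := by
  have h1 : 0 < (par p).1 := uu_pos hp
  exact ⟨tau q f w (par p), tau_mem hb h1, rfl, att_off hp⟩

/-- points of the region are reached -/
theorem att_reg {E : R3 → X} {p : R3} (hp : p ∈ Reg q f) :
    pari (tauI q f w p) ∉ Ray ∧ att α E q f w (pari (tauI q f w p)) = E p := by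
  have h1 : 0 < (tauI q f w p).1 := one_div_pos.2 hp.1
  have h2 := pari_notMem h1
  refine ⟨h2, ?_⟩
  rw [att_off h2, par_pari h1, tau_tauI hp]

theorem j16543_notMem_XX (α : Om) (a : NNReal) : (Sum.inr (α, a) : X) ∉ XX α := by
  intro h
  exact lt_irrefl α h

include hf hw hb in
theorem att_Att (h : Adm l t α σ) (hX : IsOpen[t] (XX α)) : Att t α (att α σ.E q f w) := by
  obtain ⟨hpre, hesc⟩ := h
  have hoff : ∀ p ∉ Ray, att α σ.E q f w p ∈ XX α := by
    intro p hp
    obtain ⟨p', h1, -, h3⟩ := att_off' (α := α) (w := w) (q := q) hb (E := σ.E) hp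
    rw [h3]
    exact hpre.maps p' (Reg_subset hb h1)
  refine ⟨?_, ?_, hoff, ?_, ?_, ?_⟩
  · intro a b hab
    by_cases ha : a ∈ Ray <;> by_cases hb' : b ∈ Ray
    · rw [att_ray ha, att_ray hb'] at hab
      have h1 := Sum.inr_injective hab
      have h2 : a.1.toNNReal = b.1.toNNReal := congrArg Prod.snd h1
      have h3 : a.1 = b.1 := (Real.toNNReal_eq_toNNReal_iff ha.1 hb'.1).1 h2
      exact Prod.ext h3 (ha.2.trans hb'.2.symm)
    · exfalso
      have h1 := hoff b hb'
      rw [← hab, att_ray ha] at h1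
      exact j16543_notMem_XX _ _ h1
    · exfalso
      have h1 := hoff a ha
      rw [hab, att_ray hb'] at h1
      exact j16543_notMem_XX _ _ h1
    · rw [att_off ha, att_off hb'] at hab
      have ha1 : 0 < (par a).1 := uu_pos ha
      have hb1 : 0 < (par b).1 := uu_pos hb'
      have h1 := hpre.inj (Reg_subset hb (tau_mem (q := q) (w := w) hb ha1))
        (Reg_subset hb (tau_mem (q := q) (w := w) hb hb1)) hab
      have h2 := congrArg (tauI q f w) h1
      rw [tauI_tau hb ha1, tauI_tau hb hb1] at h2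
      rw [← pari_par ha, ← pari_par hb', h2]
  · intro a ha
    exact att_ray ⟨ha, rfl⟩
  · intro V hV
    have hS := hpre.cont V hV
    have hpos : IsOpen {p : R3 | 0 < p.1} := isOpen_lt continuous_const continuous_fst
    have h1 : IsOpen ({p : R3 | 0 < p.1} ∩ tau q f w ⁻¹' (S ∩ σ.E ⁻¹' V)) :=
      (tau_continuousOn hf hw).isOpen_inter_preimage hpos hS
    have h2 := par_continuousOn.isOpen_inter_preimage isClosed_Ray.isOpen_compl h1
    convert h2 using 1
    ext x
    simp only [mem_inter_iff, mem_preimage, mem_compl_iff]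
    constructor
    · rintro ⟨hx, hx'⟩
      have hx1 : 0 < (par x).1 := uu_pos hx'
      rw [att_off hx'] at hx
      exact ⟨hx', hx1, Reg_subset hb (tau_mem hb hx1), hx⟩
    · rintro ⟨hx', -, -, hx⟩
      rw [att_off hx']
      exact ⟨hx, hx'⟩
  · intro U hU hUo
    have hW : IsOpen (Reg q f ∩ (fun p => pari (tauI q f w p)) ⁻¹' U) :=
      (pari_continuous.comp_continuousOn (tauI_continuousOn hf hw)).isOpen_inter_preimage
        (isOpen_Reg hf) hUo
    have h1 := hpre.opn _ (fun p hp => Reg_subset hb hp.1) hW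
    have e : att α σ.E q f w '' U = σ.E '' (Reg q f ∩ (fun p => pari (tauI q f w p)) ⁻¹' U) := by
      ext y
      constructor
      · rintro ⟨x, hx, rfl⟩
        have hx' : x ∉ Ray := hU hx
        have hx1 : 0 < (par x).1 := uu_pos hx'
        refine ⟨tau q f w (par x), ⟨tau_mem hb hx1, ?_⟩, (att_off hx').symm⟩
        rw [mem_preimage, tauI_tau hb hx1, pari_par hx']
        exact hx
      · rintro ⟨p, ⟨hp, hpU⟩, rfl⟩
        exact ⟨pari (tauI q f w p), hpU, (att_reg hp).2⟩
    rw [e]
    exact h1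
  · intro x hx
    obtain ⟨V, hV, hxV, k, hk⟩ := hesc x hx
    refine ⟨V ∩ XX α, @IsOpen.inter X t V (XX α) hV hX, ⟨hxV, hx⟩, ?_⟩
    intro y hy
    refine ⟨{z | uu z < 1 / ((k : ℝ) + 1)}, isOpen_lt uu_continuous continuous_const, ?_, ?_⟩
    · show uu y < 1 / ((k : ℝ) + 1)
      rw [uu_ray hy]
      positivity
    · intro z hz hzV
      have hz' : uu z < 1 / ((k : ℝ) + 1) := hz
      by_cases hzR : z ∈ Ray
      · rw [att_ray hzR] at hzV
        exact j16543_notMem_XX _ _ hzV.2
      · obtain ⟨p', h1, h2, h3⟩ := att_off' (α := α) (w := w) (q := q) hb (E := σ.E) hzR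
        rw [h3] at hzV
        refine hk p' (Reg_subset hb h1) ?_ hzV.1
        rw [h2]
        have hu := uu_pos hzR
        have h4 : (k : ℝ) + 1 < 1 / uu z := by
          rw [lt_div_iff₀ hu]
          rw [lt_div_iff₀ (by positivity)] at hz'
          linarith
        linarith

end att

end Pool.Agent.Helper732.HN
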