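import Pool.Agent.Helper732.HN.A

set_option autoImplicit false

open Set Filter Topology

namespace Pool.Agent.Helper732.HN

/-! ### Strips -/

theorem Ext.refl_of {β : Om} {σ : Str} (k : ℕ) : Ext β k σ σ where
  eqE := fun _ _ _ => rfl
  eqJ := fun _ _ => ⟨Iff.rfl, rfl⟩
  back := fun p hp hk _ => ⟨p, hp, hk, rfl, le_rfl⟩

theorem TailEq.refl_of {σ : Str} (k : ℕ) : TailEq k σ σ where
  eqE := fun _ _ _ => rfl
  eqJ := fun _ _ => ⟨Iff.rfl, rfl⟩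

theorem TailEq.trans {k k' : ℕ} {σ σ' σ'' : Str} (h : TailEq k σ σ') (h' : TailEq k' σ' σ'') :
    TailEq (max k k') σ σ'' where
  eqE p hp hk := by
    have h1 : (k : ℝ) ≤ p.1 := le_trans (by exact_mod_cast le_max_left k k') hk
    have h2 : (k' : ℝ) ≤ p.1 := le_trans (by exact_mod_cast le_max_right k k') hk
    rw [h'.eqE p hp h2, h.eqE p hp h1]
  eqJ j hj := by
    have h1 := h.eqJ j (le_trans (le_max_left _ _) hj)
    have h2 := h'.eqJ j (le_trans (le_max_right _ _) hj)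
    exact ⟨h2.1.trans h1.1, h2.2.trans h1.2⟩

theorem TailEq.mono {k k' : ℕ} {σ σ' : Str} (h : TailEq k σ σ') (hk : k ≤ k') :
    TailEq k' σ σ' where
  eqE p hp hk' := h.eqE p hp (le_trans (by exact_mod_cast hk) hk')
  eqJ j hj := h.eqJ j (hk.trans hj)

theorem Ext.trans {β γ : Om} (hβγ : β ≤ γ) {k k' : ℕ} (hk : k ≤ k') {σ σ' σ'' : Str}
    (h : Ext β k σ σ') (h' : Ext γ k' σ' σ'') : Ext β k σ σ'' where
  eqE p hp hlt := by
    rw [h'.eqE p hp (lt_of_lt_of_le hlt (by exact_mod_cast hk)), h.eqE p hp hlt]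
  eqJ j hj := by
    have h1 := h.eqJ j hj
    have h2 := h'.eqJ j (hj.trans_le hk)
    exact ⟨h2.1.trans h1.1, h2.2.trans h1.2⟩
  back p hp hkp hX := by
    rcases lt_or_ge p.1 (k' : ℝ) with hlt | hge
    · have h1 := h'.eqE p hp hlt
      rw [h1] at hX ⊢
      exact h.back p hp hkp hX
    · obtain ⟨p1, hp1, hk1, he1, hf1⟩ := h'.back p hp hge (XX_mono hβγ hX)
      rw [he1] at hX
      obtain ⟨p0, hp0, hk0, he0, hf0⟩ := h.back p1 hp1
        (le_trans (by exact_mod_cast hk) hk1) hX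
      exact ⟨p0, hp0, hk0, he1.trans he0, hf0.trans hf1⟩

theorem TailEq.ext_back {β : Om} {k : ℕ} {σ σ' : Str} (h : TailEq k σ σ') :
    ∀ p ∈ S, (k : ℝ) ≤ p.1 → σ'.E p ∈ XX β →
    ∃ p0 ∈ S, (k : ℝ) ≤ p0.1 ∧ σ'.E p = σ.E p0 ∧ ⌊p0.2.1⌋₊ ≤ ⌊p.2.1⌋₊ :=
  fun p hp hk _ => ⟨p, hp, hk, h.eqE p hp hk, le_rfl⟩

section splice

variable {l : Om → ℕ} {t t' : TopologicalSpace X} {β γ : Om} {σ1 σ2 : Str} {k0 k : ℕ}

theorem splice_pre (hβγ : β ≤ γ) (ht : ∀ V : Set X, IsOpen[t'] V → IsOpen[t] V)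
    (ht' : ∀ V ⊆ XX β, IsOpen[t] V → IsOpen[t'] V) (h1 : Pre l t β σ1) (h2 : Pre l t' γ σ2)
    (hk : k0 < k) (hov : ∀ p ∈ S, (k0 : ℝ) ≤ p.1 → p.1 < k → σ2.E p = σ1.E p)
    (hb : ∀ p ∈ S, (k : ℝ) ≤ p.1 → σ2.E p ∈ XX β →
      ∃ p0 ∈ S, (k : ℝ) ≤ p0.1 ∧ σ2.E p = σ1.E p0 ∧ ⌊p0.2.1⌋₊ ≤ ⌊p.2.1⌋₊) :
    Pre l t' γ (splice k σ1 σ2) := by
  have hkR : (k0 : ℝ) < k := by exact_mod_cast hk
  have e1 : ∀ p : R3, p.1 < k → (splice k σ1 σ2).E p = σ1.E p := fun p hp => by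
    simp only [splice]; rw [if_pos hp]
  have e2 : ∀ p : R3, ¬ p.1 < k → (splice k σ1 σ2).E p = σ2.E p := fun p hp => by
    simp only [splice]; rw [if_neg hp]
  have e3 : ∀ p ∈ S, (k0 : ℝ) ≤ p.1 → (splice k σ1 σ2).E p = σ2.E p := fun p hp h0 => by
    by_cases h : p.1 < k
    · rw [e1 p h, hov p hp h0 h]
    · exact e2 p h
  have hcr : ∀ p ∈ S, ∀ p' ∈ S, p.1 < k → ¬ p'.1 < k → σ1.E p ≠ σ2.E p' := by
    intro p hp p' hp' h h' he
    have hX : σ2.E p' ∈ XX β := he ▸ h1.maps p hp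
    obtain ⟨p0, hp0, hk0, he0, -⟩ := hb p' hp' (not_lt.1 h') hX
    have := h1.inj hp hp0 (he.trans he0)
    rw [this] at h
    exact absurd hk0 (not_le.2 h)
  have o1 : IsOpen {p : R3 | p.1 < k} := isOpen_lt continuous_fst continuous_const
  have o2 : IsOpen {p : R3 | (k0 : ℝ) < p.1} := isOpen_lt continuous_const continuous_fst
  refine ⟨fun p hp => ?_, ?_, fun V hV => ?_, fun U hU ho => ?_, fun p hp => ?_, ?_⟩
  · by_cases h : p.1 < k
    · rw [e1 p h]; exact XX_mono hβγ (h1.maps p hp)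
    · rw [e2 p h]; exact h2.maps p hp
  · intro p hp p' hp' he
    by_cases h : p.1 < k <;> by_cases h' : p'.1 < k
    · rw [e1 p h, e1 p' h'] at he; exact h1.inj hp hp' he
    · rw [e1 p h, e2 p' h'] at he; exact absurd he (hcr p hp p' hp' h h')
    · rw [e2 p h, e1 p' h'] at he; exact absurd he.symm (hcr p' hp' p hp h' h)
    · rw [e2 p h, e2 p' h'] at he; exact h2.inj hp hp' he
  · have : S ∩ (splice k σ1 σ2).E ⁻¹' V = (S ∩ σ1.E ⁻¹' V) ∩ {p : R3 | p.1 < k} ∪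
        (S ∩ σ2.E ⁻¹' V) ∩ {p : R3 | (k0 : ℝ) < p.1} := by
      ext p
      constructor
      · rintro ⟨hp, hV'⟩
        by_cases h : p.1 < k
        · left
          refine ⟨⟨hp, ?_⟩, h⟩
          have := e1 p h
          rw [mem_preimage] at hV' ⊢; rwa [this] at hV'
        · right
          refine ⟨⟨hp, ?_⟩, lt_of_lt_of_le hkR (not_lt.1 h)⟩
          have := e2 p h
          rw [mem_preimage] at hV' ⊢; rwa [this] at hV'
      · rintro (⟨⟨hp, hV'⟩, h⟩ | ⟨⟨hp, hV'⟩, h⟩)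
        · refine ⟨hp, ?_⟩
          rw [mem_preimage, e1 p h]; exact hV'
        · refine ⟨hp, ?_⟩
          rw [mem_preimage, e3 p hp (le_of_lt h)]; exact hV'
    rw [this]
    exact ((h1.cont V (ht V hV)).inter o1).union ((h2.cont V hV).inter o2)
  · have : (splice k σ1 σ2).E '' U = σ1.E '' (U ∩ {p : R3 | p.1 < k}) ∪
        σ2.E '' (U ∩ {p : R3 | (k0 : ℝ) < p.1}) := by
      ext x
      constructor
      · rintro ⟨p, hp, rfl⟩
        by_cases h : p.1 < k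
        · left; exact ⟨p, ⟨hp, h⟩, (e1 p h).symm⟩
        · right; exact ⟨p, ⟨hp, lt_of_lt_of_le hkR (not_lt.1 h)⟩, (e2 p h).symm⟩
      · rintro (⟨p, ⟨hp, h⟩, rfl⟩ | ⟨p, ⟨hp, h⟩, rfl⟩)
        · exact ⟨p, hp, e1 p h⟩
        · exact ⟨p, hp, e3 p (hU hp) (le_of_lt h)⟩
    rw [this]
    refine @IsOpen.union X _ _ t' ?_ ?_
    · refine ht' _ ?_ (h1.opn _ (inter_subset_left.trans hU) (ho.inter o1))
      rintro x ⟨p, ⟨hp, -⟩, rfl⟩
      exact h1.maps p (hU hp)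
    · exact h2.opn _ (inter_subset_left.trans hU) (ho.inter o2)
  · by_cases h : p.1 < k
    · rw [e1 p h]; exact h1.lev p hp
    · rw [e2 p h]; exact h2.lev p hp
  · have hinf := h2.unm
    have : (σ2.J)ᶜ \ (Finset.range k : Set ℕ) ⊆ ((splice k σ1 σ2).J)ᶜ := by
      intro j hj hj'
      have hjk : ¬ j < k := by
        intro h; exact hj.2 (by simpa using h)
      simp only [splice, mem_setOf_eq, if_neg hjk] at hj'
      exact hj.1 hj'
    exact (hinf.diff (Finset.finite_toSet _)).mono this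

theorem splice_esc (h2 : Esc t' γ σ2) : Esc t' γ (splice k σ1 σ2) := by
  intro x hx
  obtain ⟨V, hV, hxV, k1, hk1⟩ := h2 x hx
  refine ⟨V, hV, hxV, max k k1, fun p hp hk => ?_⟩
  have h1 : (k : ℝ) ≤ p.1 := le_trans (by exact_mod_cast le_max_left k k1) hk
  have h2 : (k1 : ℝ) ≤ p.1 := le_trans (by exact_mod_cast le_max_right k k1) hk
  simp only [splice, if_neg (not_lt.2 h1)]
  exact hk1 p hp h2

theorem splice_ext (hb : ∀ p ∈ S, (k : ℝ) ≤ p.1 → σ2.E p ∈ XX β →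
      ∃ p0 ∈ S, (k : ℝ) ≤ p0.1 ∧ σ2.E p = σ1.E p0 ∧ ⌊p0.2.1⌋₊ ≤ ⌊p.2.1⌋₊) :
    Ext β k σ1 (splice k σ1 σ2) where
  eqE p hp h := by simp only [splice, if_pos h]
  eqJ j hj := by simp only [splice, mem_setOf_eq, if_pos hj, and_true]
  back p hp h hX := by
    simp only [splice, if_neg (not_lt.2 h)] at hX ⊢
    exact hb p hp h hX

theorem splice_tail : TailEq k σ2 (splice k σ1 σ2) where
  eqE p hp h := by simp only [splice, if_neg (not_lt.2 h)]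
  eqJ j hj := by simp only [splice, mem_setOf_eq, if_neg (not_lt.2 hj), and_true]

/-- one step: `τ` agrees with `σ` on a tail, `ρ` continues `σ`; the splice continues `τ` -/
theorem step_tr {σ τ ρ : Str} (hβγ : β ≤ γ) (ht : ∀ V : Set X, IsOpen[t'] V → IsOpen[t] V)
    (ht' : ∀ V ⊆ XX β, IsOpen[t] V → IsOpen[t'] V) (hτ : Adm l t β τ) (hρ : Adm l t' γ ρ)
    (htl : TailEq k0 σ τ) (hk : k0 < k) (hext : Ext β k σ ρ) :
    Adm l t' γ (splice k τ ρ) ∧ Ext β k τ (splice k τ ρ) ∧ TailEq k ρ (splice k τ ρ) := by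
  have hkR : (k0 : ℝ) ≤ k := by exact_mod_cast hk.le
  have hb : ∀ p ∈ S, (k : ℝ) ≤ p.1 → ρ.E p ∈ XX β →
      ∃ p0 ∈ S, (k : ℝ) ≤ p0.1 ∧ ρ.E p = τ.E p0 ∧ ⌊p0.2.1⌋₊ ≤ ⌊p.2.1⌋₊ := by
    intro p hp h hX
    obtain ⟨p0, hp0, hk0, he0, hf0⟩ := hext.back p hp h hX
    exact ⟨p0, hp0, hk0, he0.trans (htl.eqE p0 hp0 (hkR.trans hk0)).symm, hf0⟩
  refine ⟨⟨splice_pre hβγ ht ht' hτ.1 hρ.1 hk ?_ hb, splice_esc hρ.2⟩, splice_ext hb, splice_tail⟩
  intro p hp h h'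
  rw [hext.eqE p hp h', htl.eqE p hp h]

end splice

end Pool.Agent.Helper732.HN
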