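import Pool.Agent.Helper732.HN.Defs

set_option autoImplicit false

open Set Filter Topology

namespace Pool.Agent.Helper732.HN


theorem chi_aux_g {a b : ℝ} (h : a < b) :
    a - (1 + Real.cos (2 * Real.pi * a)) / 8 < b - (1 + Real.cos (2 * Real.pi * b)) / 8 := by
  have h1 : |Real.cos (2 * Real.pi * b) - Real.cos (2 * Real.pi * a)| ≤
      |2 * Real.pi * b - 2 * Real.pi * a| := by
    have := Real.lipschitzWith_cos.dist_le_mul (2 * Real.pi * b) (2 * Real.pi * a)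
    simpa [Real.dist_eq] using this
  have h2 : |2 * Real.pi * b - 2 * Real.pi * a| = 2 * Real.pi * (b - a) := by
    rw [← mul_sub, abs_of_nonneg]
    exact mul_nonneg (by positivity) (by linarith)
  rw [h2] at h1
  have h3 := (abs_le.1 h1).2
  have h4 : 2 * Real.pi * (b - a) < 8 * (b - a) := by
    have := Real.pi_lt_four
    exact mul_lt_mul_of_pos_right (by linarith) (by linarith)
  linarith

theorem chi_aux_ge {y : ℝ} (h : 1 / 2 ≤ y) : chi y = y - (1 + Real.cos (2 * Real.pi * y)) / 8 := by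
  unfold chi
  rw [if_neg (not_lt.2 h)]

theorem chi_aux_lt {y : ℝ} (h : y < 1 / 2) : chi y = 1 / 4 + y / 2 := by
  unfold chi
  rw [if_pos h]

theorem chi_aux_half : (1 / 2 : ℝ) - (1 + Real.cos (2 * Real.pi * (1 / 2))) / 8 = 1 / 2 := by
  have : 2 * Real.pi * (1 / 2) = Real.pi := by ring
  rw [this, Real.cos_pi]
  ring

theorem chi_aux_ge_half {y : ℝ} (h : 1 / 2 ≤ y) : 1 / 2 ≤ chi y := by
  rw [chi_aux_ge h]
  rcases h.eq_or_lt with h1 | h1
  · rw [← h1, chi_aux_half]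
  · have := chi_aux_g h1
    rw [chi_aux_half] at this
    exact this.le

theorem chi_continuous : Continuous chi := by
  have h : chi = fun y => if (1 / 2 : ℝ) ≤ y then y - (1 + Real.cos (2 * Real.pi * y)) / 8
      else 1 / 4 + y / 2 := by
    funext y
    by_cases hy : (1 / 2 : ℝ) ≤ y
    · rw [if_pos hy, chi_aux_ge hy]
    · rw [if_neg hy, chi_aux_lt (not_le.1 hy)]
  rw [h]
  refine Continuous.if_le (by fun_prop) (by fun_prop) continuous_const continuous_id ?_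
  intro x hx
  have hx' : x = 1 / 2 := hx.symm
  rw [hx', chi_aux_half]
  norm_num

theorem chi_strictMono : StrictMonoOn chi (Ioi 0) := by
  intro a ha b hb hab
  by_cases h1 : b < 1 / 2
  · rw [chi_aux_lt h1, chi_aux_lt (hab.trans h1)]
    linarith
  · rw [not_lt] at h1
    by_cases h2 : a < 1 / 2
    · have h3 := chi_aux_ge_half h1
      rw [chi_aux_lt h2]
      linarith
    · rw [not_lt] at h2
      rw [chi_aux_ge h1, chi_aux_ge h2]
      exact chi_aux_g hab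

theorem chi_half (n : ℕ) : chi ((n : ℝ) + 1 / 2) = (n : ℝ) + 1 / 2 := by
  have h : (1 / 2 : ℝ) ≤ (n : ℝ) + 1 / 2 := by
    have : (0 : ℝ) ≤ n := Nat.cast_nonneg n
    linarith
  rw [chi_aux_ge h]
  have h2 : 2 * Real.pi * ((n : ℝ) + 1 / 2) = Real.pi + n * (2 * Real.pi) := by ring
  rw [h2, Real.cos_add_nat_mul_two_pi, Real.cos_pi]
  ring

theorem chi_ge {y : ℝ} (hy : 0 < y) : 1 / 4 ≤ chi y := by
  by_cases h : y < 1 / 2
  · rw [chi_aux_lt h]; linarith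
  · have := chi_aux_ge_half (not_lt.1 h)
    linarith

theorem chi_lt {y : ℝ} (n : ℕ) (hy : 0 < y) (h : y < n + 1) : chi y ≤ n + 3 / 4 := by
  have hn : (0 : ℝ) ≤ n := Nat.cast_nonneg n
  by_cases h1 : y < 1 / 2
  · rw [chi_aux_lt h1]; linarith
  · rw [chi_aux_ge (not_lt.1 h1)]
    have h2 := chi_aux_g h
    have h3 : Real.cos (2 * Real.pi * ((n : ℝ) + 1)) = 1 := by
      have : 2 * Real.pi * ((n : ℝ) + 1) = ((n + 1 : ℕ) : ℝ) * (2 * Real.pi) := by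
        push_cast; ring
      rw [this, Real.cos_nat_mul_two_pi]
    rw [h3] at h2
    linarith

theorem chi_floor {y : ℝ} (hy : 0 < y) : ⌊chi y⌋₊ ≤ ⌊y⌋₊ := by
  have h1 := chi_lt ⌊y⌋₊ hy (Nat.lt_floor_add_one y)
  have h2 := chi_ge hy
  have h3 : ⌊chi y⌋₊ < ⌊y⌋₊ + 1 := by
    rw [Nat.floor_lt (by linarith)]
    push_cast
    linarith
  omega

section Psi

/-- the `y` coordinate of `Psi` -/
noncomputable def PsY (a y : ℝ) : ℝ := (1 - a) * y + a * chi y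

/-- the `z` coordinate of `Psi` -/
noncomputable def PsZ (b c z : ℝ) : ℝ := (1 - b) * z + b * (-1 + (c + 1) * (4 / 7 + 2 * z / 7))

theorem PsY_mono {a : ℝ} (h : 0 ≤ a ∧ a ≤ 1) : StrictMonoOn (PsY a) (Ioi 0) := by
  intro y hy y' hy' hyy
  have h1 := chi_strictMono hy hy' hyy
  unfold PsY
  rcases h.1.eq_or_lt with h2 | h2
  · rw [← h2]; linarith
  · have h3 : a * chi y < a * chi y' := mul_lt_mul_of_pos_left h1 h2
    have h4 : (1 - a) * y ≤ (1 - a) * y' := mul_le_mul_of_nonneg_left hyy.le (by linarith [h.2])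
    linarith

theorem PsZ_mono {b c : ℝ} (h : 0 ≤ b ∧ b ≤ 1) (hc : |c| ≤ 3 / 4) : StrictMono (PsZ b c) := by
  intro z z' hz
  have hc1 := (abs_le.1 hc).1
  unfold PsZ
  have h1 : 0 < (1 - b) + b * ((c + 1) * (2 / 7)) := by
    rcases h.1.eq_or_lt with h2 | h2
    · rw [← h2]; norm_num
    · have : 0 < b * ((c + 1) * (2 / 7)) := mul_pos h2 (mul_pos (by linarith) (by norm_num))
      linarith [h.2]
  have h2 := mul_lt_mul_of_pos_right hz h1
  linarith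

theorem PsY_pos {a y : ℝ} (h : 0 ≤ a ∧ a ≤ 1) (hy : 0 < y) : 0 < PsY a y := by
  have h1 := chi_ge hy
  unfold PsY
  rcases h.1.eq_or_lt with h2 | h2
  · rw [← h2]; linarith
  · have h3 : 0 < a * chi y := mul_pos h2 (by linarith)
    have h4 : 0 ≤ (1 - a) * y := mul_nonneg (by linarith [h.2]) hy.le
    linarith

theorem PsZ_one {c z : ℝ} (hc : |c| ≤ 3 / 4) (h1 : -1 < z) (h2 : z < 1) :
    -1 + (c + 1) * (4 / 7 + 2 * z / 7) < c ∧ -(13 / 14) ≤ -1 + (c + 1) * (4 / 7 + 2 * z / 7) ∧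
      -1 + (c + 1) * (4 / 7 + 2 * z / 7) ≤ 1 / 2 := by
  obtain ⟨c1, c2⟩ := abs_le.1 hc
  refine ⟨?_, ?_, ?_⟩ <;> nlinarith

theorem PsZ_mem {b c z : ℝ} (h : 0 ≤ b ∧ b ≤ 1) (hc : |c| ≤ 3 / 4) (h1 : -1 < z) (h2 : z < 1) :
    -1 < PsZ b c z ∧ PsZ b c z < 1 := by
  obtain ⟨-, k2, k3⟩ := PsZ_one hc h1 h2
  unfold PsZ
  obtain ⟨ζ, hζ⟩ : ∃ ζ, ζ = -1 + (c + 1) * (4 / 7 + 2 * z / 7) := ⟨_, rfl⟩
  rw [← hζ] at k2 k3 ⊢
  rcases h.1.eq_or_lt with h3 | h3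
  · rw [← h3]
    constructor <;> linarith
  · have e1 : b * (-1) < b * ζ := mul_lt_mul_of_pos_left (by linarith) h3
    have e2 : b * ζ < b * 1 := mul_lt_mul_of_pos_left (by linarith) h3
    have e3 : (1 - b) * (-1) ≤ (1 - b) * z := mul_le_mul_of_nonneg_left h1.le (by linarith [h.2])
    have e4 : (1 - b) * z ≤ (1 - b) * 1 := mul_le_mul_of_nonneg_left h2.le (by linarith [h.2])
    constructor <;> linarith

variable {θ θ' f : ℝ → ℝ} (hθ : Continuous θ) (hθ' : Continuous θ') (hf : Continuous f)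
  (h0 : ∀ x, 0 ≤ θ x ∧ θ x ≤ 1) (h0' : ∀ x, 0 ≤ θ' x ∧ θ' x ≤ 1) (hb : ∀ x, |f x| ≤ 3 / 4)

theorem Psi_eq (p : R3) : Psi θ θ' f p = (p.1, PsY (θ p.1) p.2.1, PsZ (θ' p.1) (f p.1) p.2.2) := rfl

include hθ hθ' hf in
theorem Psi_continuous : Continuous (Psi θ θ' f) := by
  have hc := chi_continuous
  unfold Psi
  fun_prop

include h0 h0' hb in
theorem Psi_mapsTo {p : R3} (hp : p ∈ S) : Psi θ θ' f p ∈ S := by
  obtain ⟨h1, h2, h3, h4⟩ := hp
  rw [Psi_eq]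
  exact ⟨h1, PsY_pos (h0 _) h2, (PsZ_mem (h0' _) (hb _) h3 h4).1, (PsZ_mem (h0' _) (hb _) h3 h4).2⟩

include h0 h0' hb in
theorem Psi_injOn : InjOn (Psi θ θ' f) S := by
  rintro ⟨x, y, z⟩ hp ⟨x', y', z'⟩ hp' he
  rw [Psi_eq, Psi_eq] at he
  simp only [Prod.mk.injEq] at he
  obtain ⟨e1, e2, e3⟩ := he
  subst e1
  have e4 : y = y' := (PsY_mono (h0 x)).injOn hp.2.1 hp'.2.1 e2
  have e5 : z = z' := (PsZ_mono (h0' x) (hb x)).injective e3
  rw [e4, e5]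

include hθ hθ' hf h0 h0' hb in
theorem Psi_open {U : Set R3} (hU : U ⊆ S) (ho : IsOpen U) : IsOpen (Psi θ θ' f '' U) := by
  have hc := chi_continuous
  rw [isOpen_iff_mem_nhds]
  rintro _ ⟨⟨x0, y0, z0⟩, hp, rfl⟩
  obtain ⟨δ, hδ, hball⟩ := Metric.isOpen_iff.1 ho _ hp
  obtain ⟨ε, hε⟩ : ∃ ε, ε = δ / 2 := ⟨_, rfl⟩
  have hε0 : 0 < ε := by rw [hε]; linarith
  have hbox : ∀ x y z : ℝ, |x - x0| ≤ ε → |y - y0| ≤ ε → |z - z0| ≤ ε → (x, y, z) ∈ U := by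
    intro x y z hx hy hz
    apply hball
    rw [Metric.mem_ball, Prod.dist_eq, Prod.dist_eq]
    simp only [Real.dist_eq]
    refine max_lt (by linarith) (max_lt (by linarith) (by linarith))
  have hy0 : 0 < y0 := (hU hp).2.1
  have hyε : 0 < y0 - ε := by
    have := hU (hbox x0 (y0 - ε) z0 (by simp [hε0.le]) (by
      rw [show y0 - ε - y0 = -ε by ring, abs_neg, abs_of_pos hε0]) (by simp [hε0.le]))
    exact this.2.1
  obtain ⟨V, hV⟩ : ∃ V : Set R3, V = {q : R3 | |q.1 - x0| < ε ∧ PsY (θ q.1) (y0 - ε) < q.2.1 ∧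
    q.2.1 < PsY (θ q.1) (y0 + ε) ∧ PsZ (θ' q.1) (f q.1) (z0 - ε) < q.2.2 ∧
    q.2.2 < PsZ (θ' q.1) (f q.1) (z0 + ε)} := ⟨_, rfl⟩
  have hVo : IsOpen V := by
    rw [hV]
    have c1 : ∀ y, Continuous fun q : R3 => PsY (θ q.1) y := by
      intro y; unfold PsY; fun_prop
    have c2 : ∀ z, Continuous fun q : R3 => PsZ (θ' q.1) (f q.1) z := by
      intro z; unfold PsZ; fun_prop
    have d0 : Continuous fun q : R3 => |q.1 - x0| := by fun_prop
    have d1 : Continuous fun q : R3 => q.2.1 := by fun_prop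
    have d2 : Continuous fun q : R3 => q.2.2 := by fun_prop
    exact (isOpen_lt d0 continuous_const).inter
      ((isOpen_lt (c1 _) d1).inter ((isOpen_lt d1 (c1 _)).inter
        ((isOpen_lt (c2 _) d2).inter (isOpen_lt d2 (c2 _)))))
  have hVm : Psi θ θ' f (x0, y0, z0) ∈ V := by
    rw [hV, Psi_eq]
    refine ⟨by simpa using hε0, ?_, ?_, ?_, ?_⟩
    · exact PsY_mono (h0 x0) hyε hy0 (by linarith)
    · exact PsY_mono (h0 x0) hy0 (show (0:ℝ) < y0 + ε by linarith) (by linarith)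
    · exact PsZ_mono (h0' x0) (hb x0) (by linarith)
    · exact PsZ_mono (h0' x0) (hb x0) (by linarith)
  refine Filter.mem_of_superset (hVo.mem_nhds hVm) ?_
  rintro ⟨x, y', z'⟩ hq
  rw [hV] at hq
  obtain ⟨q1, q2, q3, q4, q5⟩ := hq
  simp only at q1 q2 q3 q4 q5
  have cy : Continuous (PsY (θ x)) := by unfold PsY; fun_prop
  have cz : Continuous (PsZ (θ' x) (f x)) := by unfold PsZ; fun_prop
  obtain ⟨y, hy, hy2⟩ := intermediate_value_Icc (show y0 - ε ≤ y0 + ε by linarith)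
    cy.continuousOn ⟨q2.le, q3.le⟩
  obtain ⟨z, hz, hz2⟩ := intermediate_value_Icc (show z0 - ε ≤ z0 + ε by linarith)
    cz.continuousOn ⟨q4.le, q5.le⟩
  refine ⟨(x, y, z), hbox x y z q1.le ?_ ?_, ?_⟩
  · rw [abs_le]; constructor <;> linarith [hy.1, hy.2]
  · rw [abs_le]; constructor <;> linarith [hz.1, hz.2]
  · rw [Psi_eq]
    simp only [hy2, hz2]

include h0 in
theorem Psi_floor {p : R3} (hp : p ∈ S) : ⌊(Psi θ θ' f p).2.1⌋₊ ≤ ⌊p.2.1⌋₊ := by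
  have hy : 0 < p.2.1 := hp.2.1
  have h1 := chi_lt ⌊p.2.1⌋₊ hy (Nat.lt_floor_add_one _)
  have h2 := Nat.lt_floor_add_one p.2.1
  have h3 : ⌊(Psi θ θ' f p).2.1⌋₊ < ⌊p.2.1⌋₊ + 1 := by
    rw [Nat.floor_lt]
    · show (1 - θ p.1) * p.2.1 + θ p.1 * chi p.2.1 < _
      push_cast
      obtain ⟨a1, a2⟩ := h0 p.1
      rcases a1.eq_or_lt with a3 | a3
      · rw [← a3]; linarith
      · have e1 : θ p.1 * chi p.2.1 < θ p.1 * (((⌊p.2.1⌋₊ : ℕ) : ℝ) + 1) :=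
          mul_lt_mul_of_pos_left (by linarith) a3
        have e2 : (1 - θ p.1) * p.2.1 ≤ (1 - θ p.1) * (((⌊p.2.1⌋₊ : ℕ) : ℝ) + 1) :=
          mul_le_mul_of_nonneg_left h2.le (by linarith)
        linarith
    · exact (PsY_pos (h0 _) hy).le
  omega

theorem Psi_one_z {p : R3} (hp : p ∈ S) (hb : ∀ x, |f x| ≤ 3 / 4) (h1 : θ' p.1 = 1) :
    (Psi θ θ' f p).2.2 < f p.1 ∧ -(13 / 14) ≤ (Psi θ θ' f p).2.2 ∧
      (Psi θ θ' f p).2.2 ≤ 1 / 2 := by
  have h2 : (Psi θ θ' f p).2.2 = -1 + (f p.1 + 1) * (4 / 7 + 2 * p.2.2 / 7) := by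
    show (1 - θ' p.1) * p.2.2 + θ' p.1 * (-1 + (f p.1 + 1) * (4 / 7 + 2 * p.2.2 / 7)) = _
    rw [h1]; ring
  rw [h2]
  exact PsZ_one (hb _) hp.2.2.1 hp.2.2.2

theorem Psi_mk (j m : ℕ) (h : θ' ((j : ℝ) + 1 / 2) = 0 ∨ f ((j : ℝ) + 1 / 2) = 3 / 4) :
    Psi θ θ' f (mk j m) = mk j m := by
  unfold Psi mk
  simp only [Prod.mk.injEq, true_and, chi_half]
  refine ⟨by ring, ?_⟩
  rcases h with h | h
  · rw [h]; ring
  · rw [h]; ring

theorem Psi_id {p : R3} (h : θ p.1 = 0) (h' : θ' p.1 = 0) : Psi θ θ' f p = p := by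
  unfold Psi
  rw [h, h']
  refine Prod.ext rfl (Prod.ext ?_ ?_)
  · simp
  · simp

end Psi

end Pool.Agent.Helper732.HN
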