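import Pool.Agent.Helper732.HN.E

set_option autoImplicit false

open Set Filter Topology

namespace Pool.Agent.Helper732.HN

/-- composition of a strip with an open embedding of `S` into itself -/
theorem comp_pre {l : Om → ℕ} {t : TopologicalSpace X} {α : Om} {σ : Str} (h : Pre l t α σ)
    {ψ : R3 → R3} (hc : Continuous ψ) (hm : MapsTo ψ S S) (hi : InjOn ψ S)
    (ho : ∀ U ⊆ S, IsOpen U → IsOpen (ψ '' U)) (hfl : ∀ p ∈ S, ⌊(ψ p).2.1⌋₊ ≤ ⌊p.2.1⌋₊)
    {J : Set ℕ} (hJ : (Jᶜ).Infinite) (n : ℕ → ℕ) :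
    Pre l t α ⟨fun p => σ.E (ψ p), J, n⟩ where
  maps p hp := h.maps _ (hm hp)
  inj p hp p' hp' he := hi hp hp' (h.inj (hm hp) (hm hp') he)
  cont V hV := by
    have h1 := h.cont V hV
    have h2 : S ∩ (fun p => σ.E (ψ p)) ⁻¹' V = S ∩ ψ ⁻¹' (S ∩ σ.E ⁻¹' V) := by
      ext p
      constructor
      · rintro ⟨hp, hv⟩; exact ⟨hp, hm hp, hv⟩
      · rintro ⟨hp, -, hv⟩; exact ⟨hp, hv⟩
    have hS : IsOpen S := by
      unfold S
      exact (isOpen_lt continuous_const continuous_fst).inter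
        ((isOpen_lt continuous_const (continuous_fst.comp continuous_snd)).inter
        ((isOpen_lt continuous_const (continuous_snd.comp continuous_snd)).inter
        (isOpen_lt (continuous_snd.comp continuous_snd) continuous_const)))
    change IsOpen (S ∩ (fun p => σ.E (ψ p)) ⁻¹' V)
    rw [h2]
    exact hS.inter (h1.preimage hc)
  opn U hU hoU := by
    have h2 : (fun p => σ.E (ψ p)) '' U = σ.E '' (ψ '' U) := by rw [image_image]
    change IsOpen[t] ((fun p => σ.E (ψ p)) '' U)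
    rw [h2]
    refine h.opn _ ?_ (ho U hU hoU)
    rintro _ ⟨p, hp, rfl⟩
    exact hm (hU hp)
  lev p hp := (h.lev _ (hm hp)).trans (hfl p hp)
  unm := hJ

theorem comp_esc {t : TopologicalSpace X} {α : Om} {σ : Str} (h : Esc t α σ)
    {ψ : R3 → R3} (hm : MapsTo ψ S S) (h1 : ∀ p ∈ S, p.1 ≤ (ψ p).1) (J : Set ℕ) (n : ℕ → ℕ) :
    Esc t α ⟨fun p => σ.E (ψ p), J, n⟩ := by
  intro x hx
  obtain ⟨V, hV, hxV, k, hk⟩ := h x hx
  exact ⟨V, hV, hxV, k, fun p hp hkp => hk _ (hm hp) (hkp.trans (h1 p hp))⟩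

end Pool.Agent.Helper732.HN
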