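import Pool.Agent.Helper732.HN.O
import Pool.Agent.Helper732.HN.A
import Pool.Agent.Helper732.HN.D

set_option autoImplicit false

open Set Filter Topology

namespace Pool.Agent.Helper732.HN

/-! ## TARGETS -/

/-- a strip which escapes locally escapes from compact sets -/
theorem esc_compact {t : TopologicalSpace X} {α : Om} {σ : Str} (h : Esc t α σ) {K : Set X}
    (hK : @IsCompact X t K) (hKX : K ⊆ XX α) : ∃ k : ℕ, ∀ p ∈ S, (k : ℝ) ≤ p.1 → σ.E p ∉ K := by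
  letI := t
  have hK' : IsCompact K := hK
  refine hK'.induction_on (p := fun A => ∃ k : ℕ, ∀ p ∈ S, (k : ℝ) ≤ p.1 → σ.E p ∉ A) ?_ ?_ ?_ ?_
  · exact ⟨0, fun p _ _ hp => hp⟩
  · rintro A B hAB ⟨k, hk⟩
    exact ⟨k, fun p hp hkp hA => hk p hp hkp (hAB hA)⟩
  · rintro A B ⟨k, hk⟩ ⟨k', hk'⟩
    refine ⟨max k k', fun p hp hkp hAB => ?_⟩
    have h1 : (k : ℝ) ≤ p.1 := le_trans (by exact_mod_cast le_max_left k k') hkp
    have h2 : (k' : ℝ) ≤ p.1 := le_trans (by exact_mod_cast le_max_right k k') hkp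
    rcases hAB with hA | hB
    · exact hk p hp h1 hA
    · exact hk' p hp h2 hB
  · intro x hx
    obtain ⟨V, hV, hxV, k, hk⟩ := h x (hKX hx)
    exact ⟨V, mem_nhdsWithin_of_mem_nhds (IsOpen.mem_nhds hV hxV), k, hk⟩

/-- a sequence of compact sets whose interiors cover the limit stage -/
theorem exists_exhaustion {e : Om → R3 → X} {δ : Om} (h : ∀ β < δ, Att (top e (Iio β)) β (e β))
    (hδ : ∀ β < δ, ∃ γ < δ, β < γ) (h0 : ∃ β, β < δ) :
    ∃ (K : ℕ → Set X) (c : ℕ → Om), (∀ i, c i < δ ∧ K i ⊆ XX (c i) ∧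
      ∀ γ ≤ δ, c i ≤ γ → @IsCompact X (top e (Iio γ)) (K i)) ∧
      ∀ x ∈ XX δ, ∃ i, ∃ V : Set X, IsOpen[top e (Iio δ)] V ∧ x ∈ V ∧ V ⊆ K i := by
  obtain ⟨β0, hβ0⟩ := h0
  obtain ⟨b, hb⟩ := (om_countable δ).exists_eq_range ⟨β0, hβ0⟩
  have hbδ : ∀ v, b v < δ := by
    intro v
    have : b v ∈ Iio δ := by rw [hb]; exact mem_range_self v
    exact this
  choose sc hsc hbsc using fun v => hδ (b v) (hbδ v)
  let K' : ℕ × ℕ → Set X := fun p =>
    Nat.casesOn p.1 (Sum.inl '' Metric.closedBall (0 : R3) (p.2 : ℝ))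
      (fun v => e (b v) '' Metric.closedBall (0 : R3) (p.2 : ℝ))
  let c' : ℕ × ℕ → Om := fun p => Nat.casesOn p.1 β0 (fun v => sc v)
  have hlow : ∀ γ : Om, IsLowerSet (Iio γ) := fun γ => isLowerSet_Iio γ
  have hprop : ∀ p : ℕ × ℕ, c' p < δ ∧ K' p ⊆ XX (c' p) ∧
      ∀ γ ≤ δ, c' p ≤ γ → @IsCompact X (top e (Iio γ)) (K' p) := by
    rintro ⟨u, r⟩
    rcases u with _ | v
    · refine ⟨hβ0, ?_, ?_⟩
      · rintro _ ⟨y, _, rfl⟩
        exact inl_mem_XX y _
      · intro γ hγ _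
        let inst : TopologicalSpace X := top e (Iio γ)
        have hE : Topology.IsOpenEmbedding (Sum.inl : R3 → X) :=
          openEmb_inl (fun β hβ => h β (lt_of_lt_of_le hβ hγ)) (hlow γ)
        exact (isCompact_closedBall (0 : R3) (r : ℝ)).image hE.continuous
    · refine ⟨hsc v, ?_, ?_⟩
      · rintro _ ⟨y, _, rfl⟩
        exact e_mem (h (b v) (hbδ v)) (hbsc v) y
      · intro γ hγ hcγ
        have hbγ : b v ∈ Iio γ := lt_of_lt_of_le (hbsc v) hcγ
        let inst : TopologicalSpace X := top e (Iio γ)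
        have hE : Topology.IsOpenEmbedding (e (b v)) :=
          openEmb_e (fun β hβ => h β (lt_of_lt_of_le hβ hγ)) (hlow γ) hbγ
        exact (isCompact_closedBall (0 : R3) (r : ℝ)).image hE.continuous
  refine ⟨fun i => K' (Nat.unpair i), fun i => c' (Nat.unpair i), fun i => hprop _, ?_⟩
  rintro (y | ⟨β, a⟩) hx
  · obtain ⟨r, hr⟩ := exists_nat_gt ‖y‖
    refine ⟨Nat.pair 0 r, Sum.inl '' Metric.ball (0 : R3) (r : ℝ), ?_, ?_, ?_⟩
    · let inst : TopologicalSpace X := top e (Iio δ)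
      have hE : Topology.IsOpenEmbedding (Sum.inl : R3 → X) :=
        openEmb_inl (s := Iio δ) (fun β hβ => h β hβ) (hlow δ)
      exact hE.isOpenMap _ Metric.isOpen_ball
    · exact ⟨y, by simpa using hr, rfl⟩
    · change _ ⊆ K' (Nat.unpair (Nat.pair 0 r))
      rw [Nat.unpair_pair]
      exact image_mono Metric.ball_subset_closedBall
  · have hβ : β < δ := hx
    obtain ⟨v, hv⟩ : β ∈ range b := by rw [← hb]; exact hβ
    subst hv
    let w : R3 := ((a : ℝ), 0)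
    have hw : w ∈ Ray := ⟨a.2, rfl⟩
    have hew : e (b v) w = Sum.inr (b v, a) := by
      rw [e_ray (h (b v) hβ) hw]
      change (Sum.inr (b v, (a : ℝ).toNNReal) : X) = _
      rw [Real.toNNReal_coe]
    obtain ⟨r, hr⟩ := exists_nat_gt ‖w‖
    refine ⟨Nat.pair (v + 1) r, e (b v) '' Metric.ball (0 : R3) (r : ℝ), ?_, ?_, ?_⟩
    · let inst : TopologicalSpace X := top e (Iio δ)
      have hE : Topology.IsOpenEmbedding (e (b v)) :=
        openEmb_e (s := Iio δ) (fun β hβ => h β hβ) (hlow δ) hβ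
      exact hE.isOpenMap _ Metric.isOpen_ball
    · exact ⟨w, by simpa using hr, hew⟩
    · change _ ⊆ K' (Nat.unpair (Nat.pair (v + 1) r))
      rw [Nat.unpair_pair]
      exact image_mono Metric.ball_subset_closedBall

/-- moving a strip by a homeomorphism with small support -/
theorem hom_adm {l : Om → ℕ} {t : TopologicalSpace X} {β : Om} {σ : Str} (hσ : Adm l t β σ)
    {O : Set X} {q : ℕ} (hOX : O ⊆ XX β) (hlam : ∀ x ∈ O, lam l x ≤ q)
    (hfl : ∀ p ∈ S, σ.E p ∈ O → q ≤ ⌊p.2.1⌋₊) (h : @Homeomorph X X t t) {C : Set X}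
    (hC : @IsCompact X t C) (hCO : C ⊆ O) (hid : ∀ z ∉ C, h z = z) (hCC : ∀ z ∈ C, h z ∈ C)
    {J : Set ℕ} {n : ℕ → ℕ} (hJ : (Jᶜ).Infinite) :
    Adm l t β ⟨fun p => h (σ.E p), J, n⟩ ∧
      ∃ k' : ℕ, ∀ p ∈ S, (k' : ℝ) ≤ p.1 → h (σ.E p) = σ.E p := by
  obtain ⟨k0, hk0⟩ := esc_compact hσ.2 hC (hCO.trans hOX)
  have hcontH : @Continuous X X t t h := @Homeomorph.continuous X X t t h
  have hopenH : @IsOpenMap X X t t h := @Homeomorph.isOpenMap X X t t h
  have hinjH : Function.Injective h := @Homeomorph.injective X X t t h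
  refine ⟨⟨⟨?_, ?_, ?_, ?_, ?_, hJ⟩, ?_⟩, k0, fun p hp hkp => hid _ (hk0 p hp hkp)⟩
  · intro p hp
    change h (σ.E p) ∈ XX β
    by_cases hc : σ.E p ∈ C
    · exact hOX (hCO (hCC _ hc))
    · rw [hid _ hc]; exact hσ.1.maps p hp
  · intro p hp p' hp' hpp
    exact hσ.1.inj hp hp' (hinjH hpp)
  · intro V hV
    exact hσ.1.cont (h ⁻¹' V) (@IsOpen.preimage X X t t h hcontH V hV)
  · intro U hU hUo
    have h1 := hopenH _ (hσ.1.opn U hU hUo)
    rw [image_image] at h1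
    exact h1
  · intro p hp
    change lam l (h (σ.E p)) ≤ ⌊p.2.1⌋₊
    by_cases hc : σ.E p ∈ C
    · exact (hlam _ (hCO (hCC _ hc))).trans (hfl p hp (hCO hc))
    · rw [hid _ hc]; exact hσ.1.lev p hp
  · intro x hx
    obtain ⟨V, hV, hxV, k, hk⟩ := hσ.2 x hx
    refine ⟨V, hV, hxV, max k k0, fun p hp hkp => ?_⟩
    have h1 : (k : ℝ) ≤ p.1 := le_trans (by exact_mod_cast le_max_left k k0) hkp
    have h2 : (k0 : ℝ) ≤ p.1 := le_trans (by exact_mod_cast le_max_right k k0) hkp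
    change h (σ.E p) ∉ V
    rw [hid _ (hk0 p hp h2)]
    exact hk p hp h1

end Pool.Agent.Helper732.HN
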