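import Pool.Agent.Helper732.HN.O
import Pool.Agent.Helper732.HN.D2
import Pool.Agent.Helper732.HN.Xc
import Pool.Agent.Helper732.HN.E3
import Pool.Agent.Helper732.HN.B5
import Pool.Agent.Helper732.HN.C

set_option autoImplicit false

open Set Filter Topology

namespace Pool.Agent.Helper732.HN

/-! ## TARGET -/

theorem fg_isOpen_S : IsOpen S := by
  have h1 : IsOpen {p : R3 | 0 < p.1} := isOpen_lt continuous_const continuous_fst
  have h2 : IsOpen {p : R3 | 0 < p.2.1} :=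
    isOpen_lt continuous_const (continuous_fst.comp continuous_snd)
  have h3 : IsOpen {p : R3 | -1 < p.2.2} :=
    isOpen_lt continuous_const (continuous_snd.comp continuous_snd)
  have h4 : IsOpen {p : R3 | p.2.2 < 1} :=
    isOpen_lt (continuous_snd.comp continuous_snd) continuous_const
  exact h1.inter (h2.inter (h3.inter h4))

theorem fg_W_preconn (c : ℝ) (hc : 0 < c) : IsPreconnected {v : R3 | uu v < c} := by
  have hconv : Convex ℝ {p : R3 | 0 < p.1 ∧ p.1 < c} := by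
    intro x hx y hy a b ha hb hab
    refine ⟨?_, ?_⟩
    · show 0 < a * x.1 + b * y.1
      rcases eq_or_lt_of_le ha with h | h
      · have : b = 1 := by linarith
        rw [← h, this]; linarith [hy.1]
      · have := mul_pos h hx.1
        have := mul_nonneg hb hy.1.le
        linarith
    · show a * x.1 + b * y.1 < c
      rcases eq_or_lt_of_le ha with h | h
      · have : b = 1 := by linarith
        rw [← h, this]; linarith [hy.2]
      · have h1 := mul_lt_mul_of_pos_left hx.2 h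
        have h2 := mul_le_mul_of_nonneg_left hy.2.le hb
        nlinarith
  have h1 : IsPreconnected (pari '' {p : R3 | 0 < p.1 ∧ p.1 < c}) :=
    hconv.isPreconnected.image pari pari_continuous.continuousOn
  have huu : ∀ p : R3, 0 < p.1 → uu (pari p) = p.1 := by
    intro p hp
    have := congrArg Prod.fst (par_pari hp)
    exact this
  refine h1.subset_closure ?_ ?_
  · rintro _ ⟨p, hp, rfl⟩
    show uu (pari p) < c
    rw [huu p hp.1]; exact hp.2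
  · intro v hv
    by_cases hr : v ∈ Ray
    · -- limit
      have hseq : Tendsto (fun n : ℕ => pari (c / ((n : ℝ) + 2), Real.sqrt v.1, 0)) atTop (𝓝 v) := by
        have h0 : Tendsto (fun n : ℕ => c / ((n : ℝ) + 2)) atTop (𝓝 0) := by
          apply Tendsto.div_atTop tendsto_const_nhds
          exact tendsto_atTop_add_const_right _ _ tendsto_natCast_atTop_atTop
        have h2 : Tendsto (fun n : ℕ => ((c / ((n : ℝ) + 2), Real.sqrt v.1, 0) : R3)) atTop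
            (𝓝 ((0, Real.sqrt v.1, 0) : R3)) :=
          h0.prodMk_nhds tendsto_const_nhds
        have h3 := (pari_continuous.tendsto ((0, Real.sqrt v.1, 0) : R3)).comp h2
        have h4 : pari ((0, Real.sqrt v.1, 0) : R3) = v := by
          unfold pari
          have h5 : Real.sqrt v.1 ^ 2 = v.1 := Real.sq_sqrt hr.1
          have h6 : v.2 = 0 := hr.2
          refine Prod.ext ?_ ?_
          · simp [h5]
          · rw [h6]
            refine Prod.ext ?_ ?_ <;> simp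
        rw [h4] at h3
        exact h3
      refine mem_closure_of_tendsto hseq (Eventually.of_forall fun n => ?_)
      have hn : (0 : ℝ) ≤ (n : ℝ) := Nat.cast_nonneg n
      refine ⟨_, ⟨?_, ?_⟩, rfl⟩
      · show 0 < c / ((n : ℝ) + 2)
        positivity
      · show c / ((n : ℝ) + 2) < c
        rw [div_lt_iff₀ (by linarith)]
        nlinarith
    · apply subset_closure
      exact ⟨par v, ⟨uu_pos hr, hv⟩, pari_par hr⟩

theorem fg_Reg_preconn {q : ℕ} {f : ℝ → ℝ} (hf : Continuous f) (hb : ∀ x, |f x| ≤ 3 / 4) (k : ℕ) :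
    IsPreconnected {p : R3 | p ∈ Reg q f ∧ (k : ℝ) < p.1 ∧ (q : ℝ) < p.2.1} := by
  have hf1 : ∀ x, f x < 1 := fun x => by have := (abs_le.mp (hb x)).2; linarith
  have hset : {p : R3 | p ∈ Reg q f ∧ (k : ℝ) < p.1 ∧ (q : ℝ) < p.2.1} =
      (fun p : R3 => ((p.1, p.2.1, f p.1 + p.2.2 * (1 - f p.1)) : R3)) ''
        (Ioi (k : ℝ) ×ˢ (Ioo (q : ℝ) (q + 3 / 4) ×ˢ Ioo (0 : ℝ) 1)) := by
    ext p
    constructor
    · rintro ⟨⟨h1, h2, h3, h4, h5⟩, h6, h7⟩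
      have h8 : 0 < 1 - f p.1 := by linarith [hf1 p.1]
      refine ⟨(p.1, p.2.1, (p.2.2 - f p.1) / (1 - f p.1)), ⟨h6, ⟨h7, h3⟩, ?_, ?_⟩, ?_⟩
      · exact div_pos (by linarith) h8
      · show (p.2.2 - f p.1) / (1 - f p.1) < 1
        rw [div_lt_one h8]; linarith
      · refine Prod.ext rfl (Prod.ext rfl ?_)
        show f p.1 + (p.2.2 - f p.1) / (1 - f p.1) * (1 - f p.1) = p.2.2
        rw [div_mul_cancel₀ _ h8.ne']; ring
    · rintro ⟨v, ⟨h1, ⟨h2, h3⟩, h4, h5⟩, rfl⟩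
      have h8 : 0 < 1 - f v.1 := by linarith [hf1 v.1]
      have h1' : (k : ℝ) < v.1 := h1
      have hk : (0 : ℝ) ≤ (k : ℝ) := Nat.cast_nonneg k
      have hq : (0 : ℝ) ≤ (q : ℝ) := Nat.cast_nonneg q
      have h4' : 0 < v.2.2 := h4
      have h5' : v.2.2 < 1 := h5
      refine ⟨⟨?_, ?_, h3, ?_, ?_⟩, h1, h2⟩
      · show 0 < v.1
        linarith
      · show 0 < v.2.1
        have : (q : ℝ) < v.2.1 := h2
        linarith
      · show f v.1 < f v.1 + v.2.2 * (1 - f v.1)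
        have := mul_pos h4' h8
        linarith
      · show f v.1 + v.2.2 * (1 - f v.1) < 1
        nlinarith
  rw [hset]
  apply IsPreconnected.image
  · exact ((convex_Ioi _).prod ((convex_Ioo _ _).prod (convex_Ioo _ _))).isPreconnected
  · apply Continuous.continuousOn
    fun_prop

theorem fg_image_preconn {l : Om → ℕ} {t : TopologicalSpace X} {α : Om} {σ : Str}
    (h : Pre l t α σ) {A : Set R3} (hA : A ⊆ S) (hAc : IsPreconnected A) :
    @IsPreconnected X t (σ.E '' A) := by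
  letI := t
  apply hAc.image
  have h1 : ContinuousOn σ.E S := (continuousOn_open_iff fg_isOpen_S).mpr h.cont
  exact h1.mono hA

/-- the open set in which the finger lives -/
def fgO (e : Om → R3 → X) (α : Om) (σ : Str) (q : ℕ) (f : ℝ → ℝ) (i k : ℕ) : Set X :=
  e α '' {v : R3 | uu v < 1 / ((i : ℝ) + 1)} ∪
    σ.E '' {p : R3 | p ∈ Reg q f ∧ (k : ℝ) < p.1 ∧ (q : ℝ) < p.2.1}

/-- the cut-off function -/
noncomputable def fgθ (i : ℕ) (x : ℝ) : ℝ := max 0 (min 1 (4 * (x - ((i : ℝ) + 3 / 4))))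

theorem fgθ_cont (i : ℕ) : Continuous (fgθ i) := by
  unfold fgθ; fun_prop

theorem fgθ_bd (i : ℕ) (x : ℝ) : 0 ≤ fgθ i x ∧ fgθ i x ≤ 1 := by
  unfold fgθ
  exact ⟨le_max_left _ _, max_le (by norm_num) (min_le_left _ _)⟩

theorem fgθ_zero {i : ℕ} {x : ℝ} (h : x ≤ (i : ℝ) + 3 / 4) : fgθ i x = 0 := by
  unfold fgθ
  apply max_eq_left
  exact (min_le_right _ _).trans (by linarith)

theorem fgθ_one {i : ℕ} {x : ℝ} (h : (i : ℝ) + 1 ≤ x) : fgθ i x = 1 := by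
  unfold fgθ
  rw [min_eq_left (by linarith)]
  exact max_eq_right (by norm_num)

theorem fg_Psi_tail {i : ℕ} {f : ℝ → ℝ} {p : R3} (h : (i : ℝ) + 1 ≤ p.1) :
    Psi (fgθ i) (fgθ i) f p = Psi (fun _ => 1) (fun _ => 1) f p := by
  unfold Psi
  rw [fgθ_one h]

theorem fg_floor {q : ℕ} {y : ℝ} (h : y < (q : ℝ) + 3 / 4) : ⌊y⌋₊ ≤ q := by
  have h1 : ⌊y⌋₊ < q + 1 := by
    rcases Nat.eq_zero_or_pos ⌊y⌋₊ with h0 | h0
    · omega
    · rw [Nat.floor_lt' (by omega)]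
      push_cast; linarith
  omega

section fg

variable {l : Om → ℕ} {e : Om → R3 → X} {α γ : Om} {σ : Str} {f w : ℝ → ℝ}
    (hαγ : α ⋖ γ) (h : ∀ β < γ, Att (top e (Iio β)) β (e β))
    (hσ : Adm l (top e (Iio α)) α σ) (hf : Continuous f) (hw : Continuous w)
    (hb : ∀ x, |f x| ≤ 3 / 4) (he : e α = att α σ.E (l α) f w)

include hαγ h in
theorem fg_t10 {V : Set X} (hV : IsOpen[top e (Iio γ)] V) : IsOpen[top e (Iio α)] V :=
  isOpen_down (Iio_subset_Iio hαγ.1.le) hV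

include hαγ h in
theorem fg_t01 {V : Set X} (hV : V ⊆ XX α) (ho : IsOpen[top e (Iio α)] V) :
    IsOpen[top e (Iio γ)] V :=
  isOpen_up (s := Iio γ) (fun β hβ => h β hβ) (isLowerSet_Iio γ) hV ho

include hαγ h hσ in
theorem fg_pre1 : Pre l (top e (Iio γ)) γ σ :=
  pre_lift hαγ.1.le (fun V hV => fg_t10 hαγ h hV) (fun V hV ho => fg_t01 hαγ h hV ho) hσ.1

include hαγ h hσ hf hb in
theorem fg_pre2 (i : ℕ) {J : Set ℕ} (hJ : (Jᶜ).Infinite) (n : ℕ → ℕ) :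
    Pre l (top e (Iio γ)) γ ⟨fun p => σ.E (Psi (fgθ i) (fgθ i) f p), J, n⟩ :=
  comp_pre (fg_pre1 hαγ h hσ) (Psi_continuous (fgθ_cont i) (fgθ_cont i) hf)
    (fun p hp => Psi_mapsTo (fgθ_bd i) (fgθ_bd i) hb hp)
    (Psi_injOn (fgθ_bd i) (fgθ_bd i) hb)
    (fun U hU ho => Psi_open (fgθ_cont i) (fgθ_cont i) hf (fgθ_bd i) (fgθ_bd i) hb hU ho)
    (fun p hp => Psi_floor (fgθ_bd i) hp) hJ n

theorem fg_esc2 (hnext : Esc (top e (Iio γ)) γ (nextStr σ f)) (i : ℕ) (J : Set ℕ) (n : ℕ → ℕ) :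
    Esc (top e (Iio γ)) γ ⟨fun p => σ.E (Psi (fgθ i) (fgθ i) f p), J, n⟩ := by
  have h1 : TailEq (i + 1) (nextStr σ f)
      ⟨fun p => σ.E (Psi (fgθ i) (fgθ i) f p), (nextStr σ f).J, (nextStr σ f).n⟩ := by
    constructor
    · intro p hp hk
      show σ.E (Psi (fgθ i) (fgθ i) f p) = σ.E (Psi (fun _ => 1) (fun _ => 1) f p)
      rw [fg_Psi_tail (by push_cast at hk; exact hk)]
    · intro j hj
      exact ⟨Iff.rfl, rfl⟩
  have h2 := esc_of_tail hnext h1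
  exact h2

include hσ hb he in
/-- points of the strip in the first part of `fgO` -/
theorem fg_first {i : ℕ} {v : R3} (hv : uu v < 1 / ((i : ℝ) + 1)) (hx : e α v ∈ XX α) :
    ∃ p' ∈ Reg (l α) f, (i : ℝ) + 1 < p'.1 ∧ e α v = σ.E p' := by
  rw [he] at hx ⊢
  have hr : v ∉ Ray := by
    intro hr
    rw [att_ray hr] at hx
    exact lt_irrefl _ (inr_mem_XX.mp hx)
  obtain ⟨p', hp', h1, h2⟩ := att_off' (w := w) (α := α) (E := σ.E) (q := l α) hb hr
  refine ⟨p', hp', ?_, h2⟩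
  rw [h1, lt_div_iff₀ (uu_pos hr)]
  have hi : (0 : ℝ) < (i : ℝ) + 1 := by positivity
  rw [lt_div_iff₀ hi] at hv
  linarith

include hσ hb he in
theorem fg_not_first {i : ℕ} {v p : R3} (hp : p ∈ S) (hv : uu v < 1 / ((i : ℝ) + 1))
    (hx : e α v = σ.E (Psi (fgθ i) (fgθ i) f p)) : False := by
  have hP : Psi (fgθ i) (fgθ i) f p ∈ S := Psi_mapsTo (fgθ_bd i) (fgθ_bd i) hb hp
  obtain ⟨p', hp', h1, h2⟩ := fg_first hσ hb he hv (by rw [hx]; exact hσ.1.maps _ hP)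
  have h3 : p' = Psi (fgθ i) (fgθ i) f p :=
    hσ.1.inj (Reg_subset hb hp') hP (h2.symm.trans hx)
  have h4 : p'.1 = p.1 := by rw [h3]; rfl
  have h5 : fgθ i p.1 = 1 := fgθ_one (by linarith)
  have h6 := (Psi_one_z (θ := fgθ i) (θ' := fgθ i) hp hb h5).1
  rw [← h3] at h6
  have h7 : f p'.1 < p'.2.2 := hp'.2.2.2.1
  rw [h4] at h7
  linarith

include hσ hb he in
theorem fg_hit {i k : ℕ} {p : R3} (hp : p ∈ S)
    (hx : σ.E (Psi (fgθ i) (fgθ i) f p) ∈ fgO e α σ (l α) f i k) :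
    (k : ℝ) < p.1 ∧ l α ≤ ⌊p.2.1⌋₊ := by
  have hP : Psi (fgθ i) (fgθ i) f p ∈ S := Psi_mapsTo (fgθ_bd i) (fgθ_bd i) hb hp
  rcases hx with ⟨v, hv, hv2⟩ | ⟨p', ⟨hp', h1, h2⟩, h3⟩
  · exact (fg_not_first hσ hb he hp hv hv2).elim
  · have h4 : p' = Psi (fgθ i) (fgθ i) f p := hσ.1.inj (Reg_subset hb hp') hP h3
    refine ⟨?_, ?_⟩
    · have h5 : p'.1 = p.1 := by rw [h4]; rfl
      rw [← h5]; exact h1
    · refine le_trans ?_ (Psi_floor (θ' := fgθ i) (f := f) (fgθ_bd i) hp)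
      rw [← h4]
      exact Nat.le_floor h2.le

include hσ hb he in
theorem fg_back {i k : ℕ} (hki : k ≤ i) {x : X} (hx : x ∈ fgO e α σ (l α) f i k) (hXα : x ∈ XX α) :
    ∃ p' ∈ S, (k : ℝ) < p'.1 ∧ x = σ.E p' ∧ ⌊p'.2.1⌋₊ ≤ l α := by
  have hki' : (k : ℝ) ≤ (i : ℝ) := by exact_mod_cast hki
  rcases hx with ⟨v, hv, rfl⟩ | ⟨p', ⟨hp', h1, h2⟩, rfl⟩
  · obtain ⟨p', hp', h1, h2⟩ := fg_first hσ hb he hv hXα
    exact ⟨p', Reg_subset hb hp', by linarith, h2, fg_floor hp'.2.2.1⟩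
  · exact ⟨p', Reg_subset hb hp', h1, rfl, fg_floor hp'.2.2.1⟩

include hαγ h hσ hb in
theorem fg_OX (i k : ℕ) : fgO e α σ (l α) f i k ⊆ XX γ := by
  rintro x (⟨v, hv, rfl⟩ | ⟨p', ⟨hp', h1, h2⟩, rfl⟩)
  · exact e_mem (h α hαγ.1) hαγ.1 v
  · exact XX_mono hαγ.1.le (hσ.1.maps _ (Reg_subset hb hp'))

include hσ hb he in
theorem fg_lam (i k : ℕ) : ∀ x ∈ fgO e α σ (l α) f i k, lam l x ≤ l α := by
  have key : ∀ p' ∈ Reg (l α) f, lam l (σ.E p') ≤ l α := fun p' hp' =>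
    (hσ.1.lev _ (Reg_subset hb hp')).trans (fg_floor hp'.2.2.1)
  rintro x (⟨v, hv, rfl⟩ | ⟨p', ⟨hp', h1, h2⟩, rfl⟩)
  · rw [he]
    by_cases hr : v ∈ Ray
    · rw [att_ray hr]
      exact le_refl _
    · obtain ⟨p', hp', h1, h2⟩ := att_off' (w := w) (α := α) (E := σ.E) (q := l α) hb hr
      rw [h2]
      exact key p' hp'
  · exact key p' hp'

include hαγ h hσ hf hb in
theorem fg_Oopen (i k : ℕ) : IsOpen[top e (Iio γ)] (fgO e α σ (l α) f i k) := by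
  letI t1 : TopologicalSpace X := top e (Iio γ)
  have h1 : @Topology.IsOpenEmbedding R3 X _ (top e (Iio γ)) (e α) :=
    openEmb_e (s := Iio γ) (fun β hβ => h β hβ) (isLowerSet_Iio γ) hαγ.1
  have h2 : IsOpen {v : R3 | uu v < 1 / ((i : ℝ) + 1)} := isOpen_lt uu_continuous continuous_const
  have h3 : IsOpen[top e (Iio γ)] (e α '' {v : R3 | uu v < 1 / ((i : ℝ) + 1)}) :=
    h1.isOpenMap _ h2
  have h4 : IsOpen {p : R3 | p ∈ Reg (l α) f ∧ (k : ℝ) < p.1 ∧ ((l α : ℕ) : ℝ) < p.2.1} :=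
    (isOpen_Reg hf).inter ((isOpen_lt continuous_const continuous_fst).inter
      (isOpen_lt continuous_const (continuous_fst.comp continuous_snd)))
  have h5 : IsOpen[top e (Iio γ)]
      (σ.E '' {p : R3 | p ∈ Reg (l α) f ∧ (k : ℝ) < p.1 ∧ ((l α : ℕ) : ℝ) < p.2.1}) :=
    (fg_pre1 hαγ h hσ).opn _ (fun p hp => Reg_subset hb hp.1) h4
  exact h3.union h5

include hαγ h hσ hf hb he in
theorem fg_Oconn (i k : ℕ) (hki : k ≤ i) :
    @IsPreconnected X (top e (Iio γ)) (fgO e α σ (l α) f i k) := by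
  have hki' : (k : ℝ) ≤ (i : ℝ) := by exact_mod_cast hki
  have hi0 : (0 : ℝ) ≤ (i : ℝ) := Nat.cast_nonneg i
  have hq0 : (0 : ℝ) ≤ ((l α : ℕ) : ℝ) := Nat.cast_nonneg _
  have h1 : @Topology.IsOpenEmbedding R3 X _ (top e (Iio γ)) (e α) :=
    openEmb_e (s := Iio γ) (fun β hβ => h β hβ) (isLowerSet_Iio γ) hαγ.1
  have h2 : @IsPreconnected X (top e (Iio γ)) (e α '' {v : R3 | uu v < 1 / ((i : ℝ) + 1)}) := by
    letI t1 : TopologicalSpace X := top e (Iio γ)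
    exact (fg_W_preconn (1 / ((i : ℝ) + 1)) (by positivity)).image (e α) h1.continuous.continuousOn
  have h3 : @IsPreconnected X (top e (Iio γ))
      (σ.E '' {p : R3 | p ∈ Reg (l α) f ∧ (k : ℝ) < p.1 ∧ ((l α : ℕ) : ℝ) < p.2.1}) :=
    fg_image_preconn (fg_pre1 hαγ h hσ) (fun p hp => Reg_subset hb hp.1)
      (fg_Reg_preconn hf hb k)
  -- a common point
  set P : R3 := ((i : ℝ) + 2, ((l α : ℕ) : ℝ) + 1 / 2, 7 / 8) with hP
  have hPR : P ∈ Reg (l α) f := by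
    refine ⟨?_, ?_, ?_, ?_, ?_⟩
    · show 0 < (i : ℝ) + 2
      linarith
    · show 0 < ((l α : ℕ) : ℝ) + 1 / 2
      linarith
    · show ((l α : ℕ) : ℝ) + 1 / 2 < ((l α : ℕ) : ℝ) + 3 / 4
      linarith
    · show f ((i : ℝ) + 2) < 7 / 8
      have := (abs_le.mp (hb ((i : ℝ) + 2))).2
      linarith
    · show (7 / 8 : ℝ) < 1
      norm_num
  obtain ⟨h4, h5⟩ := att_reg (w := w) (α := α) (E := σ.E) hPR
  have h6 : uu (pari (tauI (l α) f w P)) < 1 / ((i : ℝ) + 1) := by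
    have h7 : 0 < (tauI (l α) f w P).1 := by
      show 0 < 1 / ((i : ℝ) + 2)
      positivity
    have h8 : uu (pari (tauI (l α) f w P)) = (tauI (l α) f w P).1 := congrArg Prod.fst (par_pari h7)
    rw [h8]
    show 1 / ((i : ℝ) + 2) < 1 / ((i : ℝ) + 1)
    apply one_div_lt_one_div_of_lt <;> linarith
  have m1 : σ.E P ∈ e α '' {v : R3 | uu v < 1 / ((i : ℝ) + 1)} :=
    ⟨_, h6, by rw [he]; exact h5⟩
  have m2 : σ.E P ∈ σ.E '' {p : R3 | p ∈ Reg (l α) f ∧ (k : ℝ) < p.1 ∧ ((l α : ℕ) : ℝ) < p.2.1} := by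
    refine ⟨P, ⟨hPR, ?_, ?_⟩, rfl⟩
    · show (k : ℝ) < (i : ℝ) + 2
      linarith
    · show ((l α : ℕ) : ℝ) < ((l α : ℕ) : ℝ) + 1 / 2
      linarith
  letI t1 : TopologicalSpace X := top e (Iio γ)
  exact IsPreconnected.union (σ.E P) m1 m2 h2 h3

include hαγ h in
theorem fg_chart {x : X} (hx : x ∈ XX γ) :
    ∃ φ : R3 → X, @Topology.IsOpenEmbedding R3 X _ (top e (Iio γ)) φ ∧ x ∈ Set.range φ := by
  rcases x with y | ⟨β, b⟩
  · exact ⟨Sum.inl, openEmb_inl (s := Iio γ) (fun β hβ => h β hβ) (isLowerSet_Iio γ), ⟨y, rfl⟩⟩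
  · have hβ : β < γ := inr_mem_XX.mp hx
    refine ⟨e β, openEmb_e (s := Iio γ) (fun β hβ => h β hβ) (isLowerSet_Iio γ) hβ,
      ⟨((b : ℝ), 0), ?_⟩⟩
    rw [(h β hβ).ray (b : ℝ) b.2]
    simp

end fg

/-- a strip at the next stage one of whose marks hits a given point of the new ray -/
theorem finger {l : Om → ℕ} {e : Om → R3 → X} {α γ : Om} {σ : Str} {f w : ℝ → ℝ}
    (hαγ : α ⋖ γ) (h : ∀ β < γ, Att (top e (Iio β)) β (e β))
    (hσ : Adm l (top e (Iio α)) α σ) (hf : Continuous f) (hw : Continuous w)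
    (hb : ∀ x, |f x| ≤ 3 / 4) (he : e α = att α σ.E (l α) f w)
    (hcap : ∀ j : ℕ, j ∉ σ.J → f ((j : ℝ) + 1 / 2) = -(3 / 4))
    (hnext : Adm l (top e (Iio γ)) γ (nextStr σ f)) (a : NNReal) (k : ℕ) :
    ∃ (k' : ℕ) (ρ : Str), Adm l (top e (Iio γ)) γ ρ ∧ Ext α k σ ρ ∧
      TailEq k' (nextStr σ f) ρ ∧
      ∃ j, k ≤ j ∧ j < k' ∧ j ∈ ρ.J ∧ ρ.n j ≤ l α ∧ ρ.E (mk j (ρ.n j)) = Sum.inr (α, a) := by
  obtain ⟨i, hiJ, hki0⟩ := hσ.1.unm.exists_gt k
  have hki : k ≤ i := hki0.le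
  have hki' : (k : ℝ) ≤ (i : ℝ) := by exact_mod_cast hki
  have hi0 : (0 : ℝ) ≤ (i : ℝ) := Nat.cast_nonneg i
  have hq0 : (0 : ℝ) ≤ ((l α : ℕ) : ℝ) := Nat.cast_nonneg _
  have hfi : f ((i : ℝ) + 1 / 2) = -(3 / 4) := hcap i hiJ
  have hθi : fgθ i ((i : ℝ) + 1 / 2) = 0 := fgθ_zero (by linarith)
  -- the mark
  have hE2mk : σ.E (Psi (fgθ i) (fgθ i) f (mk i (l α))) = σ.E (mk i (l α)) := by
    rw [Psi_mk i (l α) (Or.inl hθi)]
  have hmkR : mk i (l α) ∈ Reg (l α) f := by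
    refine ⟨?_, ?_, ?_, ?_, ?_⟩
    · show 0 < (i : ℝ) + 1 / 2
      linarith
    · show 0 < ((l α : ℕ) : ℝ) + 1 / 2
      linarith
    · show ((l α : ℕ) : ℝ) + 1 / 2 < ((l α : ℕ) : ℝ) + 3 / 4
      linarith
    · show f ((i : ℝ) + 1 / 2) < 0
      rw [hfi]; norm_num
    · show (0 : ℝ) < 1
      norm_num
  have hx : σ.E (Psi (fgθ i) (fgθ i) f (mk i (l α))) ∈ fgO e α σ (l α) f i k := by
    right
    refine ⟨mk i (l α), ⟨hmkR, ?_, ?_⟩, hE2mk.symm⟩
    · show (k : ℝ) < (i : ℝ) + 1 / 2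
      linarith
    · show ((l α : ℕ) : ℝ) < ((l α : ℕ) : ℝ) + 1 / 2
      linarith
  have hy : (Sum.inr (α, a) : X) ∈ fgO e α σ (l α) f i k := by
    left
    refine ⟨((a : ℝ), 0), ?_, ?_⟩
    · show uu ((a : ℝ), 0) < 1 / ((i : ℝ) + 1)
      rw [uu_ray ⟨a.2, rfl⟩]
      positivity
    · rw [(h α hαγ.1).ray (a : ℝ) a.2]
      simp
  obtain ⟨g, hg, C, hC, hCO, hid, hCC⟩ := @hom_lemma X (top e (Iio γ))
    (t2 (s := Iio γ) (fun β hβ => h β hβ) (isLowerSet_Iio γ)) _ (fg_Oopen hαγ h hσ hf hb i k)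
    (fg_Oconn hαγ h hσ hf hb he i k hki)
    (fun x hx => fg_chart hαγ h (fg_OX hαγ h hσ hb i k hx)) _ _ hx hy
  have hadm0 : Adm l (top e (Iio γ)) γ
      ⟨fun p => σ.E (Psi (fgθ i) (fgθ i) f p), σ.J, σ.n⟩ :=
    ⟨fg_pre2 hαγ h hσ hf hb i hσ.1.unm σ.n, fg_esc2 hnext.2 i σ.J σ.n⟩
  have hhom := fun (J : Set ℕ) (n : ℕ → ℕ) (hJ : (Jᶜ).Infinite) =>
    hom_adm (n := n) hadm0 (fg_OX hαγ h hσ hb i k) (fg_lam hσ hb he i k)
      (fun p hp hx => (fg_hit hσ hb he hp hx).2) g hC hCO hid hCC hJ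
  obtain ⟨K, hK⟩ := (hhom σ.J σ.n hσ.1.unm).2
  have hnJ : (nextStr σ f).J ⊆ σ.J := fun j hj => hj.1
  set J' : Set ℕ := {j | (j < k ∧ j ∈ σ.J) ∨ j = i ∨ (max K (i + 1) ≤ j ∧ j ∈ (nextStr σ f).J)}
    with hJ'
  have hJinf : (J'ᶜ).Infinite := by
    have h1 : (σ.Jᶜ \ {i}).Infinite := hσ.1.unm.sdiff (Set.finite_singleton i)
    refine h1.mono ?_
    rintro j ⟨hj1, hj2⟩ hj3
    rcases hj3 with h4 | h4 | h4
    · exact hj1 h4.2
    · exact hj2 h4
    · exact hj1 (hnJ h4.2)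
  refine ⟨max K (i + 1), ⟨fun p => g (σ.E (Psi (fgθ i) (fgθ i) f p)), J',
    fun j => if j = i then l α else σ.n j⟩, (hhom J' _ hJinf).1, ?_, ?_, i, hki, ?_, ?_, ?_, ?_⟩
  · -- Ext
    constructor
    · intro p hp hpk
      show g (σ.E (Psi (fgθ i) (fgθ i) f p)) = σ.E p
      have hθ0 : fgθ i p.1 = 0 := fgθ_zero (by linarith)
      have hP : Psi (fgθ i) (fgθ i) f p = p := Psi_id hθ0 hθ0
      rw [hid _ (fun hc => by
        have := (fg_hit hσ hb he hp (hCO hc)).1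
        linarith), hP]
    · intro j hj
      refine ⟨?_, ?_⟩
      · constructor
        · rintro (h1 | h1 | h1)
          · exact h1.2
          · omega
          · exact hnJ h1.2
        · intro h1
          exact Or.inl ⟨hj, h1⟩
      · show (if j = i then l α else σ.n j) = σ.n j
        rw [if_neg (by omega)]
    · intro p hp hpk hX
      have hP : Psi (fgθ i) (fgθ i) f p ∈ S := Psi_mapsTo (fgθ_bd i) (fgθ_bd i) hb hp
      by_cases hc : σ.E (Psi (fgθ i) (fgθ i) f p) ∈ C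
      · obtain ⟨p', hp', h1, h2, h3⟩ := fg_back hσ hb he hki (hCO (hCC _ hc)) hX
        exact ⟨p', hp', h1.le, h2, h3.trans (fg_hit hσ hb he hp (hCO hc)).2⟩
      · refine ⟨Psi (fgθ i) (fgθ i) f p, hP, hpk, hid _ hc, Psi_floor (fgθ_bd i) hp⟩
  · -- TailEq
    constructor
    · intro p hp hpk
      have hpk1 : (K : ℝ) ≤ p.1 := le_trans (by exact_mod_cast le_max_left _ _) hpk
      have hpk2 : (i : ℝ) + 1 ≤ p.1 := by
        refine le_trans ?_ hpk
        have : ((i + 1 : ℕ) : ℝ) ≤ ((max K (i + 1) : ℕ) : ℝ) := by exact_mod_cast le_max_right _ _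
        push_cast at this ⊢
        exact this
      show g (σ.E (Psi (fgθ i) (fgθ i) f p)) = σ.E (Psi (fun _ => 1) (fun _ => 1) f p)
      have h9 : g (σ.E (Psi (fgθ i) (fgθ i) f p)) = σ.E (Psi (fgθ i) (fgθ i) f p) := hK p hp hpk1
      rw [h9, fg_Psi_tail hpk2]
    · intro j hj
      have hj2 : i + 1 ≤ j := (le_max_right _ _).trans hj
      refine ⟨?_, ?_⟩
      · constructor
        · rintro (h1 | h1 | h1)
          · omega
          · omega
          · exact h1.2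
        · intro h1
          exact Or.inr (Or.inr ⟨hj, h1⟩)
      · show (if j = i then l α else σ.n j) = σ.n j
        rw [if_neg (by omega)]
  · exact lt_of_lt_of_le (Nat.lt_succ_self i) (le_max_right _ _)
  · exact Or.inr (Or.inl rfl)
  · show (if i = i then l α else σ.n i) ≤ l α
    rw [if_pos rfl]
  · show g (σ.E (Psi (fgθ i) (fgθ i) f (mk i (if i = i then l α else σ.n i)))) = Sum.inr (α, a)
    rw [if_pos rfl]
    exact hg

end Pool.Agent.Helper732.HN
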