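import Pool.Agent.Helper732.HN.Defs

set_option autoImplicit false

open Set Filter Topology

namespace Pool.Agent.Helper732.HN


/-- continuous interpolation at the half integers -/
theorem exists_interp (s : ℕ → ℝ) : ∃ f : ℝ → ℝ, Continuous f ∧ (∀ j : ℕ, f ((j : ℝ) + 1 / 2) = s j) ∧
    ∀ C : ℝ, (∀ j, |s j| ≤ C) → ∀ x, |f x| ≤ C := by
  let t : Set ℝ := {x | ∃ a b, s a ≤ x ∧ x ≤ s b}
  have ht : OrdConnected t := by
    refine ⟨?_⟩
    rintro x ⟨a, b, hax, hxb⟩ y ⟨a', b', hay, hyb⟩ z ⟨hxz, hzy⟩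
    exact ⟨a, b', hax.trans hxz, hzy.trans hyb⟩
  have he : IsClosedEmbedding (fun j : ℕ => (j : ℝ) + 1 / 2) :=
    (Homeomorph.addRight (1 / 2 : ℝ)).isClosedEmbedding.comp Nat.isClosedEmbedding_coe_real
  obtain ⟨g, hg, hge⟩ := ContinuousMap.exists_extension_forall_mem_of_isClosedEmbedding
    (⟨s, continuous_of_discreteTopology⟩ : C(ℕ, ℝ)) (t := t)
    (fun j => ⟨j, j, le_rfl, le_rfl⟩) ⟨s 0, 0, 0, le_rfl, le_rfl⟩ he
  refine ⟨g, g.continuous, fun j => congrFun hge j, fun C hC x => ?_⟩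
  obtain ⟨a, b, ha, hb⟩ := hg x
  rw [abs_le]
  exact ⟨(abs_le.1 (hC a)).1.trans ha, hb.trans (abs_le.1 (hC b)).2⟩

/-- a labelling of the natural numbers for countably many infinite sets -/
theorem exists_label (H : ℕ → Set ℕ) : ∃ lab : ℕ → ℕ, ∀ i, (H i).Infinite → ∀ c,
    {j | j ∈ H i ∧ lab j = c}.Infinite := by
  classical
  have hpick : ∀ k m : ℕ, ∃ j, m ≤ j ∧ ((H k.unpair.1.unpair.1).Infinite →
      j ∈ H k.unpair.1.unpair.1) := by
    intro k m
    by_cases h : (H k.unpair.1.unpair.1).Infinite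
    · obtain ⟨j, hj, hmj⟩ := h.exists_gt m
      exact ⟨j, hmj.le, fun _ => hj⟩
    · exact ⟨m, le_rfl, fun h' => absurd h' h⟩
  choose pick hp1 hp2 using hpick
  let J : ℕ → ℕ := fun k => Nat.rec (motive := fun _ => ℕ) (pick 0 0)
    (fun k r => pick (k + 1) (r + 1)) k
  have hJs : ∀ k, J (k + 1) = pick (k + 1) (J k + 1) := fun k => rfl
  have hJ0 : J 0 = pick 0 0 := rfl
  have hmono : StrictMono J := by
    refine strictMono_nat_of_lt_succ fun k => ?_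
    rw [hJs]
    exact Nat.lt_of_succ_le (hp1 _ _)
  have hmem : ∀ k, (H k.unpair.1.unpair.1).Infinite → J k ∈ H k.unpair.1.unpair.1 := by
    intro k
    cases k with
    | zero => rw [hJ0]; exact hp2 _ _
    | succ k => rw [hJs]; exact hp2 _ _
  let lab : ℕ → ℕ := Function.extend J (fun k => k.unpair.1.unpair.2) (fun _ => 0)
  have hlab : ∀ k, lab (J k) = k.unpair.1.unpair.2 := by
    intro k
    exact hmono.injective.extend_apply _ _ k
  refine ⟨lab, fun i hi c => ?_⟩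
  have hinj : Function.Injective (fun n : ℕ => J (Nat.pair (Nat.pair i c) n)) := by
    intro a b hab
    have h1 := hmono.injective hab
    exact (Nat.pair_eq_pair.1 h1).2
  refine (Set.infinite_range_of_injective hinj).mono ?_
  rintro j ⟨n, rfl⟩
  have h2 := hmem (Nat.pair (Nat.pair i c) n)
  have h3 := hlab (Nat.pair (Nat.pair i c) n)
  simp only [Nat.unpair_pair] at h2 h3
  exact ⟨h2 hi, h3⟩

/-- the choice of `f` and `w` -/
theorem exists_fw (q : ℕ) (σ : Str) (A : ℕ → Set X) (m : ℕ → ℕ)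
    (hA : ∀ i, (hit (A i) (m i) σ).Infinite) : ∃ f w : ℝ → ℝ, Continuous f ∧ Continuous w ∧
      (∀ x, |f x| ≤ 3 / 4) ∧ (∀ j ∈ σ.J, q < σ.n j → f ((j : ℝ) + 1 / 2) = 3 / 4) ∧
      (∀ j : ℕ, j ∉ σ.J → f ((j : ℝ) + 1 / 2) = -(3 / 4)) ∧ ∀ i, FW q σ f w (A i) (m i) := by
  classical
  obtain ⟨lab, hlab⟩ := exists_label (fun i => hit (A i) (m i) σ)
  obtain ⟨r, hr⟩ := exists_surjective_nat ℚ
  obtain ⟨f, hfc, hf, hfb⟩ := exists_interp
    (fun j => if j ∈ σ.J ∧ (q < σ.n j ∨ lab j = 0) then 3 / 4 else -(3 / 4))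
  obtain ⟨w, hwc, hw, -⟩ := exists_interp
    (fun j => (r (lab j - 1) : ℝ) - Real.log (((σ.n j : ℝ) + 1 / 2) /
      ((q : ℝ) + 3 / 4 - ((σ.n j : ℝ) + 1 / 2))))
  refine ⟨f, w, hfc, hwc, ?_, ?_, ?_, ?_⟩
  · apply hfb
    intro j
    split_ifs
    · rw [abs_of_nonneg (by norm_num)]
    · rw [abs_neg, abs_of_nonneg (by norm_num)]
  · intro j hj hq
    rw [hf, if_pos ⟨hj, Or.inl hq⟩]
  · intro j hj
    rw [hf, if_neg (fun h => hj h.1)]
  · intro i
    refine ⟨?_, ?_⟩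
    · refine (hlab i (hA i) 0).mono ?_
      rintro j ⟨hj, hl⟩
      refine ⟨hj, ?_⟩
      rw [hf, if_pos ⟨hj.1, Or.inr hl⟩]
    · intro hmq x
      obtain ⟨k, hk⟩ := hr x
      refine (hlab i (hA i) (k + 1)).mono ?_
      rintro j ⟨hj, hl⟩
      refine ⟨hj, ?_, ?_⟩
      · rw [hf, if_neg]
        rintro ⟨-, h | h⟩
        · have := hj.2.1
          omega
        · omega
      · rw [hw, hl, Nat.add_sub_cancel, hk]

end Pool.Agent.Helper732.HN
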