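import Pool.Agent.Helper732.HN.O
import Pool.Agent.Helper732.HN.A
import Pool.Agent.Helper732.HN.B5

set_option autoImplicit false

open Set Filter Topology

namespace Pool.Agent.Helper732.HN

theorem good_att {l : Om → ℕ} {G : Om → Set X} {D : Om → Dat} {α : Om}
    (h : ∀ β < α, Good l G D β) : ∀ β < α, Att (top (eD l D) (Iio β)) β (eD l D β) := by
  intro β
  induction β using WellFoundedLT.induction with
  | ind β ih =>
    intro hβ
    have hg := h β hβ
    have h1 : ∀ γ ∈ Iio β, Att (top (eD l D) (Iio γ)) γ (eD l D γ) := fun γ hγ =>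
      ih γ hγ (lt_trans hγ hβ)
    have hX : IsOpen[top (eD l D) (Iio β)] (XX β) := isOpen_XX h1 (isLowerSet_Iio β)
    exact att_Att hg.cf hg.cw hg.bd hg.adm hX

theorem good_att_all {l : Om → ℕ} {G : Om → Set X} {D : Om → Dat}
    (h : ∀ β, Good l G D β) (β : Om) : Att (top (eD l D) (Iio β)) β (eD l D β) := by
  obtain ⟨α, hα⟩ := om_gt β
  exact good_att (fun γ _ => h γ) β hα

end Pool.Agent.Helper732.HN
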