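import Pool.Agent.Helper732.HN.O
import Pool.Agent.Helper732.HN.D

set_option autoImplicit false

open Set Filter Topology

namespace Pool.Agent.Helper732.HN

/-! ## TARGETS -/

/-- one step of the limit construction -/
theorem limit_step {l : Om → ℕ} {e : Om → R3 → X} {δ : Om}
    (h : ∀ β < δ, Att (top e (Iio β)) β (e β)) {s : Om → Str}
    (hs : ∀ β < δ, Adm l (top e (Iio β)) β (s β))
    (htr : ∀ β γ, β < γ → γ < δ → TR l (top e (Iio γ)) β γ (s β) (s γ))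
    {A : Set X} {m : ℕ} {P : Prop} {b : Om} (hb : b < δ)
    (hA : P → ∀ β, b ≤ β → β < δ → ∀ k, ∃ γ, β ≤ γ ∧ γ < δ ∧ Cap l e s A m β γ k)
    {β : Om} (hβ : β < δ) {τ : Str} (hτ : Adm l (top e (Iio β)) β τ) {k0 k : ℕ}
    (htl : TailEq k0 (s β) τ) (hk : k0 < k) :
    ∃ (β' : Om) (τ' : Str) (k0' : ℕ), β ≤ β' ∧ b ≤ β' ∧ β' < δ ∧
      Adm l (top e (Iio β')) β' τ' ∧ TailEq k0' (s β') τ' ∧ k ≤ k0' ∧ Ext β k τ τ' ∧
      (P → ∃ j, k ≤ j ∧ j < k0' ∧ j ∈ τ'.J ∧ τ'.n j ≤ m ∧ τ'.E (mk j (τ'.n j)) ∈ A) := by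
  classical
  have hmk : ∀ j n : ℕ, mk j n ∈ S := by
    intro j n
    refine ⟨?_, ?_, ?_, ?_⟩
    · simp only [mk]; positivity
    · simp only [mk]; positivity
    · simp [mk]
    · simp [mk]
  have hop : ∀ β1 γ1 : Om, β1 ≤ γ1 → γ1 < δ →
      (∀ V : Set X, IsOpen[top e (Iio γ1)] V → IsOpen[top e (Iio β1)] V) ∧
      (∀ V ⊆ XX β1, IsOpen[top e (Iio β1)] V → IsOpen[top e (Iio γ1)] V) := by
    intro β1 γ1 h1 h2
    refine ⟨fun V hV => isOpen_down (Iio_subset_Iio h1) hV, fun V hV hV' => ?_⟩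
    exact isOpen_up (fun β' hβ' => h β' (lt_trans hβ' h2)) (isLowerSet_Iio γ1) hV hV'
  have hβ1 : max β b < δ := max_lt hβ hb
  have hc1 : ∃ (τ1 : Str) (K0 : ℕ), Adm l (top e (Iio (max β b))) (max β b) τ1 ∧
      TailEq K0 (s (max β b)) τ1 ∧ Ext β k τ τ1 := by
    rcases (le_max_left β b).lt_or_eq with hlt | heq
    · obtain ⟨k1, ρ1, hρ1, hρ2, hρ3⟩ := htr β (max β b) hlt hβ1 k
      obtain ⟨ho1, ho2⟩ := hop β (max β b) hlt.le hβ1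
      obtain ⟨g1, g2, g3⟩ := step_tr hlt.le ho1 ho2 hτ hρ1 htl hk hρ2
      exact ⟨splice k τ ρ1, _, g1, hρ3.trans g3, g2⟩
    · refine ⟨τ, k0, ?_, ?_, Ext.refl_of k⟩
      · rw [← heq]; exact hτ
      · rw [← heq]; exact htl
  obtain ⟨τ1, K0, ha1, ha2, ha3⟩ := hc1
  have hc2 : ∃ (γ : Om) (k2 : ℕ) (ρ : Str), max β b ≤ γ ∧ γ < δ ∧
      Adm l (top e (Iio γ)) γ ρ ∧ Ext (max β b) (max K0 k + 1) (s (max β b)) ρ ∧
      TailEq k2 (s γ) ρ ∧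
      (P → ∃ j, max K0 k + 1 ≤ j ∧ j < k2 ∧ j ∈ ρ.J ∧ ρ.n j ≤ m ∧ ρ.E (mk j (ρ.n j)) ∈ A) := by
    by_cases hP : P
    · obtain ⟨γ, hγ1, hγ2, k', ρ, c1, c2, c3, c4⟩ :=
        hA hP (max β b) (le_max_right _ _) hβ1 (max K0 k + 1)
      exact ⟨γ, k', ρ, hγ1, hγ2, c1, c2, c3, fun _ => c4⟩
    · exact ⟨max β b, 0, s (max β b), le_rfl, hβ1, hs _ hβ1, Ext.refl_of _, TailEq.refl_of _,
        fun h => absurd h hP⟩
  obtain ⟨γ, k2, ρ, b1, b2, b3, b4, b5, b6⟩ := hc2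
  obtain ⟨ho1, ho2⟩ := hop (max β b) γ b1 b2
  obtain ⟨g1, g2, g3⟩ := step_tr b1 ho1 ho2 ha1 b3 (ha2.mono (le_max_left K0 k))
    (Nat.lt_succ_self _) b4
  refine ⟨γ, splice (max K0 k + 1) τ1 ρ, max k2 (max K0 k + 1), (le_max_left _ _).trans b1,
    (le_max_right _ _).trans b1, b2, g1, b5.trans g3, ?_, ?_, ?_⟩
  · exact le_trans (le_trans (le_max_right K0 k) (Nat.le_succ _)) (le_max_right _ _)
  · exact Ext.trans (le_max_left β b) (le_trans (le_max_right K0 k) (Nat.le_succ _)) ha3 g2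
  · intro hP
    obtain ⟨j, j1, j2, j3, j4, j5⟩ := b6 hP
    have j6 := g3.eqJ j j1
    refine ⟨j, ?_, lt_of_lt_of_le j2 (le_max_left _ _), j6.1.2 j3, ?_, ?_⟩
    · exact le_trans (le_trans (le_max_right K0 k) (Nat.le_succ _)) j1
    · rw [j6.2]; exact j4
    · rw [j6.2, g3.eqE _ (hmk _ _)]
      · exact j5
      · have h7 : ((max K0 k + 1 : ℕ) : ℝ) ≤ (j : ℝ) := by exact_mod_cast j1
        simp only [mk]
        linarith



end Pool.Agent.Helper732.HN
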