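import Pool.Agent.Helper732.HN.O
import Pool.Agent.Helper732.HN.Xc
import Pool.Agent.Helper732.HN.L
import Pool.Agent.Helper732.HN.L2

set_option autoImplicit false

open Set Filter Topology

namespace Pool.Agent.Helper732.HN

/-! ## TARGETS -/

/-- the invariant of the states of the recursion -/
structure LInv (l : Om → ℕ) (e : Om → R3 → X) (δ : Om) (s : Om → Str) (x : Om × Str × ℕ) :
    Prop where
  lt : x.1 < δ
  adm : Adm l (top e (Iio x.1)) x.1 x.2.1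
  tl : TailEq x.2.2 (s x.1) x.2.1

/-- the conditions on the place `k` chosen at step `i` in the state `x` -/
structure LChoice (l : Om → ℕ) (e : Om → R3 → X) (s : Om → Str) (K : ℕ → Set X)
    (cK c : ℕ → Om) (i : ℕ) (x : Om × Str × ℕ) (k : ℕ) : Prop where
  k0 : x.2.2 < k
  ik : i < k
  esc : ∀ u ≤ i, cK u ≤ x.1 → ∀ p ∈ S, (k : ℝ) ≤ p.1 → (s x.1).E p ∉ K u
  tr : ∀ u ≤ i, c u < x.1 → ∀ k1 ≤ i, ∃ κ < k, ∃ ρ : Str, Adm l (top e (Iio x.1)) x.1 ρ ∧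
    Ext (c u) k1 (s (c u)) ρ ∧ TailEq κ (s x.1) ρ
  unm : ∃ j, x.2.2 ≤ j ∧ j < k ∧ j ∉ (s x.1).J

theorem lchoice_exists {l : Om → ℕ} {e : Om → R3 → X} {δ : Om} {s : Om → Str}
    (hs : ∀ β < δ, Adm l (top e (Iio β)) β (s β))
    (htr : ∀ β γ, β < γ → γ < δ → TR l (top e (Iio γ)) β γ (s β) (s γ))
    {K : ℕ → Set X} {cK : ℕ → Om} (c : ℕ → Om)
    (hK : ∀ i, cK i < δ ∧ K i ⊆ XX (cK i) ∧
      ∀ γ ≤ δ, cK i ≤ γ → @IsCompact X (top e (Iio γ)) (K i))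
    (i : ℕ) (x : Om × Str × ℕ) (hx : LInv l e δ s x) :
    ∃ k, LChoice l e s K cK c i x k := by
  have hadm := hs x.1 hx.lt
  have h1 : ∀ᶠ k : ℕ in atTop, x.2.2 < k := eventually_gt_atTop _
  have h2 : ∀ᶠ k : ℕ in atTop, i < k := eventually_gt_atTop _
  have h3 : ∀ᶠ k : ℕ in atTop, ∀ u ∈ Finset.range (i + 1), cK u ≤ x.1 → ∀ p ∈ S, (k : ℝ) ≤ p.1 →
      (s x.1).E p ∉ K u := by
    rw [Filter.eventually_all_finset]
    intro u _
    by_cases hu : cK u ≤ x.1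
    · obtain ⟨k, hk⟩ := esc_compact hadm.2 ((hK u).2.2 x.1 hx.lt.le hu)
        (((hK u).2.1).trans (XX_mono hu))
      filter_upwards [eventually_ge_atTop k] with k' hk' _ p hp hkp
      refine hk p hp (le_trans ?_ hkp)
      exact_mod_cast hk'
    · exact Filter.Eventually.of_forall fun k h => absurd h hu
  have h4 : ∀ᶠ k : ℕ in atTop, ∀ u ∈ Finset.range (i + 1), ∀ k1 ∈ Finset.range (i + 1),
      c u < x.1 → ∃ κ < k, ∃ ρ : Str, Adm l (top e (Iio x.1)) x.1 ρ ∧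
        Ext (c u) k1 (s (c u)) ρ ∧ TailEq κ (s x.1) ρ := by
    rw [Filter.eventually_all_finset]
    intro u _
    rw [Filter.eventually_all_finset]
    intro k1 _
    by_cases hu : c u < x.1
    · obtain ⟨κ, ρ, h1, h2, h3⟩ := htr (c u) x.1 hu hx.lt k1
      filter_upwards [eventually_gt_atTop κ] with k' hk' _
      exact ⟨κ, hk', ρ, h1, h2, h3⟩
    · exact Filter.Eventually.of_forall fun k h => absurd h hu
  have h5 : ∀ᶠ k : ℕ in atTop, ∃ j, x.2.2 ≤ j ∧ j < k ∧ j ∉ (s x.1).J := by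
    obtain ⟨j, hj, hj'⟩ := hadm.1.unm.exists_gt x.2.2
    filter_upwards [eventually_gt_atTop j] with k' hk'
    exact ⟨j, hj'.le, hk', hj⟩
  obtain ⟨k, a1, a2, a3, a4, a5⟩ := (h1.and (h2.and (h3.and (h4.and h5)))).exists
  exact ⟨k, a1, a2, fun u hu => a3 u (Finset.mem_range.2 (by omega)),
    fun u hu hc k1 hk1 => a4 u (Finset.mem_range.2 (by omega)) k1 (Finset.mem_range.2 (by omega)) hc,
    a5⟩

/-- the properties of a step from `x` to `y` with the place `k` and the task `(P, A, m)` -/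
structure LNext (e : Om → R3 → X) (c0 : Om) (P : Prop) (A : Set X) (m : ℕ)
    (x : Om × Str × ℕ) (k : ℕ) (y : Om × Str × ℕ) : Prop where
  le : x.1 ≤ y.1
  cle : c0 ≤ y.1
  kle : k ≤ y.2.2
  ext : Ext x.1 k x.2.1 y.2.1
  hit : P → ∃ j, k ≤ j ∧ j < y.2.2 ∧ j ∈ y.2.1.J ∧ y.2.1.n j ≤ m ∧
    y.2.1.E (mk j (y.2.1.n j)) ∈ A

theorem lnext_exists {l : Om → ℕ} {e : Om → R3 → X} {δ : Om}
    (h : ∀ β < δ, Att (top e (Iio β)) β (e β)) {s : Om → Str}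
    (hs : ∀ β < δ, Adm l (top e (Iio β)) β (s β))
    (htr : ∀ β γ, β < γ → γ < δ → TR l (top e (Iio γ)) β γ (s β) (s γ))
    {P : Prop} {A : Set X} {m : ℕ}
    (hA : P → ∃ β0 < δ, ∀ β, β0 ≤ β → β < δ → ∀ k, ∃ γ, β ≤ γ ∧ γ < δ ∧ Cap l e s A m β γ k)
    {c0 : Om} (hc0 : c0 < δ) {x : Om × Str × ℕ} (hx : LInv l e δ s x) {k : ℕ}
    (hk : x.2.2 < k) :
    ∃ y : Om × Str × ℕ, LInv l e δ s y ∧ LNext e c0 P A m x k y := by
  obtain ⟨b, hb, hcb, hAb⟩ : ∃ b < δ, c0 ≤ b ∧ (P → ∀ β, b ≤ β → β < δ → ∀ k, ∃ γ, β ≤ γ ∧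
      γ < δ ∧ Cap l e s A m β γ k) := by
    by_cases hP : P
    · obtain ⟨β0, hβ0, hβ1⟩ := hA hP
      exact ⟨max c0 β0, max_lt hc0 hβ0, le_max_left _ _, fun _ β hβ =>
        hβ1 β ((le_max_right _ _).trans hβ)⟩
    · exact ⟨c0, hc0, le_rfl, fun h => absurd h hP⟩
  obtain ⟨β', τ', k0', h1, h2, h3, h4, h5, h6, h7, h8⟩ :=
    limit_step h hs htr hb hAb hx.lt hx.adm hx.tl hk
  exact ⟨(β', τ', k0'), ⟨h3, h4, h5⟩, ⟨h1, hcb.trans h2, h6, h7, h8⟩⟩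

/-- the sequence of states -/
theorem lseq_exists {l : Om → ℕ} {e : Om → R3 → X} {δ : Om}
    (h : ∀ β < δ, Att (top e (Iio β)) β (e β)) {s : Om → Str}
    (hs : ∀ β < δ, Adm l (top e (Iio β)) β (s β))
    (htr : ∀ β γ, β < γ → γ < δ → TR l (top e (Iio γ)) β γ (s β) (s γ))
    (P : ℕ → Prop) (A : ℕ → Set X) (m : ℕ → ℕ)
    (hA : ∀ i, P i → ∃ β0 < δ, ∀ β, β0 ≤ β → β < δ → ∀ k, ∃ γ, β ≤ γ ∧ γ < δ ∧
      Cap l e s (A i) (m i) β γ k)
    {K : ℕ → Set X} {cK : ℕ → Om} (c : ℕ → Om) (hc : ∀ i, c i < δ)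
    (hK : ∀ i, cK i < δ ∧ K i ⊆ XX (cK i) ∧
      ∀ γ ≤ δ, cK i ≤ γ → @IsCompact X (top e (Iio γ)) (K i)) :
    ∃ (x : ℕ → Om × Str × ℕ) (k : ℕ → ℕ), (∀ i, LInv l e δ s (x i)) ∧
      (∀ i, LChoice l e s K cK c i (x i) (k i)) ∧
      ∀ i, LNext e (c i) (P (Nat.unpair i).1) (A (Nat.unpair i).1) (m (Nat.unpair i).1)
        (x i) (k i) (x (i + 1)) := by
  classical
  choose kf hkf using fun i x hx => lchoice_exists hs htr c hK i x hx
  choose nf hnf1 hnf2 using fun (i : ℕ) (x : Om × Str × ℕ) (hx : LInv l e δ s x) =>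
    lnext_exists h hs htr (hA (Nat.unpair i).1) (hc i) hx (hkf i x hx).k0
  have h0 : LInv l e δ s (c 0, s (c 0), 0) := ⟨hc 0, hs _ (hc 0), TailEq.refl_of 0⟩
  let st : ℕ → {x : Om × Str × ℕ // LInv l e δ s x} := fun i =>
    Nat.rec ⟨(c 0, s (c 0), 0), h0⟩ (fun i x => ⟨nf i x.1 x.2, hnf1 i x.1 x.2⟩) i
  refine ⟨fun i => (st i).1, fun i => kf i (st i).1 (st i).2, fun i => (st i).2,
    fun i => hkf i _ _, fun i => hnf2 i _ _⟩

theorem mk_mem_S (j n : ℕ) : mk j n ∈ S := by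
  refine ⟨?_, ?_, ?_, ?_⟩ <;> simp [mk] <;> positivity

/-- the limit stage -/
theorem limit_stage {l : Om → ℕ} {e : Om → R3 → X} {δ : Om} (hδ : IsLim δ)
    (h : ∀ β < δ, Att (top e (Iio β)) β (e β)) {s : Om → Str}
    (hs : ∀ β < δ, Adm l (top e (Iio β)) β (s β))
    (htr : ∀ β γ, β < γ → γ < δ → TR l (top e (Iio γ)) β γ (s β) (s γ))
    (P : ℕ → Prop) (A : ℕ → Set X) (m : ℕ → ℕ)
    (hA : ∀ i, P i → ∃ β0 < δ, ∀ β, β0 ≤ β → β < δ → ∀ k, ∃ γ, β ≤ γ ∧ γ < δ ∧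
      Cap l e s (A i) (m i) β γ k) :
    ∃ σ : Str, Adm l (top e (Iio δ)) δ σ ∧
      (∀ β < δ, TR l (top e (Iio δ)) β δ (s β) σ) ∧
      ∀ i, P i → (hit (A i) (m i) σ).Infinite := by
  obtain ⟨K, cK, hK, hKx⟩ := exists_exhaustion h hδ.2 hδ.1
  obtain ⟨c, hc⟩ : ∃ c : ℕ → Om, Iio δ = range c := (om_countable δ).exists_eq_range hδ.1
  have hcδ : ∀ i, c i < δ := fun i => by
    have : c i ∈ Iio δ := hc ▸ mem_range_self i
    exact this
  have hcs : ∀ γ < δ, ∃ n, c n = γ := fun γ hγ => by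
    have : γ ∈ range c := hc ▸ (show γ ∈ Iio δ from hγ)
    exact this
  obtain ⟨x, k, hx, hch, hnx⟩ := lseq_exists h hs htr P A m hA c hcδ hK
  have hbm : Monotone fun i => (x i).1 := monotone_nat_of_le_succ fun i => (hnx i).le
  have hkm : StrictMono k := strictMono_nat_of_lt_succ fun i =>
    lt_of_le_of_lt (hnx i).kle (hch (i + 1)).k0
  have hcof : ∀ γ < δ, ∃ n, ∀ i, n ≤ i → γ ≤ (x i).1 := fun γ hγ => by
    obtain ⟨n, rfl⟩ := hcs γ hγ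
    exact ⟨n + 1, fun i hi => ((hnx n).cle).trans (hbm hi)⟩
  obtain ⟨σ, hσ, hσx⟩ := lim_str h (fun i => (x i).1) (fun i => (hx i).lt) hbm k hkm
    (fun i => (x i).2.1) (fun i => (hx i).adm.1) (fun i => (hnx i).ext) (fun i => by
      obtain ⟨j, hj1, hj2, hj3⟩ := (hch (i + 1)).unm
      refine ⟨j, (hnx i).kle.trans hj1, hj2, ?_⟩
      rwa [((hx (i + 1)).tl.eqJ j hj1).1])
  have hesc : Esc (top e (Iio δ)) δ σ := by
    intro y hy
    obtain ⟨u, V, hV, hyV, hVK⟩ := hKx y hy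
    obtain ⟨n, hn⟩ := hcof (cK u) (hK u).1
    refine ⟨V, hV, hyV, k (max u n), fun p hp hkp hpV => ?_⟩
    have hle := hn (max u n) (le_max_right _ _)
    have hpX : σ.E p ∈ XX (x (max u n)).1 := XX_mono hle ((hK u).2.1 (hVK hpV))
    obtain ⟨p0, hp0, hk0, he, -⟩ := (hσx (max u n)).back p hp hkp hpX
    have hlt : ((x (max u n)).2.2 : ℝ) < k (max u n) := by exact_mod_cast (hch (max u n)).k0
    have h2 := (hx (max u n)).tl.eqE p0 hp0 (hlt.le.trans hk0)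
    refine (hch (max u n)).esc u (le_max_left _ _) hle p0 hp0 hk0 ?_
    rw [← h2]
    rw [← he]
    exact hVK hpV
  refine ⟨σ, ⟨hσ, hesc⟩, ?_, ?_⟩
  · intro β hβ k1
    obtain ⟨u, rfl⟩ := hcs β hβ
    obtain ⟨γ, hγ, huγ⟩ := hδ.2 _ hβ
    obtain ⟨n, hn⟩ := hcof γ hγ
    set i := max (max u k1) n with hi
    have hui : u ≤ i := (le_max_left _ _).trans (le_max_left _ _)
    have hki : k1 ≤ i := (le_max_right _ _).trans (le_max_left _ _)
    have hlt : c u < (x i).1 := lt_of_lt_of_le huγ (hn i (le_max_right _ _))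
    obtain ⟨κ, hκ, ρ, hρ, hρe, hρt⟩ := (hch i).tr u hui hlt k1 hki
    have hk0 := (hch i).k0
    have hik := (hch i).ik
    have hbδ : (x i).1 ≤ δ := (hx i).lt.le
    have hb : ∀ p ∈ S, (k i : ℝ) ≤ p.1 → σ.E p ∈ XX (x i).1 →
        ∃ p0 ∈ S, (k i : ℝ) ≤ p0.1 ∧ σ.E p = ρ.E p0 ∧ ⌊p0.2.1⌋₊ ≤ ⌊p.2.1⌋₊ := by
      intro p hp hkp hpX
      obtain ⟨p0, hp0, hk0', he, hfl⟩ := (hσx i).back p hp hkp hpX
      refine ⟨p0, hp0, hk0', ?_, hfl⟩
      have e1 := (hx i).tl.eqE p0 hp0 (le_trans (by exact_mod_cast hk0.le) hk0')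
      have e2 := hρt.eqE p0 hp0 (le_trans (by exact_mod_cast hκ.le) hk0')
      rw [he, e1, e2]
    refine ⟨k i, splice (k i) ρ σ, ⟨?_, splice_esc hesc⟩, ?_, splice_tail⟩
    · refine splice_pre (k0 := max κ (x i).2.2) hbδ
        (fun V hV => isOpen_down (Iio_subset_Iio hbδ) hV)
        (fun V hV hVo => isOpen_up h (isLowerSet_Iio δ) hV hVo) hρ.1 hσ (max_lt hκ hk0) ?_ hb
      intro p hp hp1 hp2
      rw [(hσx i).eqE p hp hp2]
      have e1 := (hx i).tl.eqE p hp (le_trans (by exact_mod_cast le_max_right _ _) hp1)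
      have e2 := hρt.eqE p hp (le_trans (by exact_mod_cast le_max_left _ _) hp1)
      rw [e1, e2]
    · exact Ext.trans hlt.le (hki.trans hik.le) hρe (splice_ext hb)
  · intro a hPa
    refine Set.infinite_of_forall_exists_gt fun N => ?_
    have hu : (Nat.unpair (Nat.pair a N)).1 = a := by simp
    set i := Nat.pair a N with hi
    have hN : N ≤ i := Nat.right_le_pair a N
    have hh := (hnx i).hit
    rw [hu] at hh
    obtain ⟨j, hj1, hj2, hj3, hj4, hj5⟩ := hh hPa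
    have hk0 := (hch (i + 1)).k0
    have hjk : j < k (i + 1) := hj2.trans hk0
    obtain ⟨eJ, en⟩ := (hσx (i + 1)).eqJ j hjk
    have hik := (hch i).ik
    refine ⟨j, ⟨eJ.2 hj3, ?_, ?_⟩, by omega⟩
    · rw [en]; exact hj4
    · rw [en]
      rw [(hσx (i + 1)).eqE _ (mk_mem_S _ _) ?_]
      · exact hj5
      · simp only [mk]
        have : ((j : ℝ) + 1) ≤ k (i + 1) := by exact_mod_cast hjk
        linarith

end Pool.Agent.Helper732.HN
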