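import Pool.Agent.Helper732.HN.O
import Pool.Agent.Helper732.HN.D2
import Pool.Agent.Helper732.HN.Xc
import Pool.Agent.Helper732.HN.E3
import Pool.Agent.Helper732.HN.B5

set_option autoImplicit false

open Set Filter Topology

namespace Pool.Agent.Helper732.HN

/-! ## TARGETS -/

section next

variable {l : Om → ℕ} {e : Om → R3 → X} {α γ : Om} {σ : Str} {f w : ℝ → ℝ}

/-- the next strip is admissible at the next stage -/
theorem next_adm (hαγ : α ⋖ γ) (h : ∀ β < γ, Att (top e (Iio β)) β (e β))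
    (hσ : Adm l (top e (Iio α)) α σ) (hf : Continuous f) (hw : Continuous w)
    (hb : ∀ x, |f x| ≤ 3 / 4) (he : e α = att α σ.E (l α) f w) :
    Adm l (top e (Iio γ)) γ (nextStr σ f) := by
  have hα : α < γ := hαγ.lt
  have ht : ∀ V : Set X, IsOpen[top e (Iio γ)] V → IsOpen[top e (Iio α)] V :=
    fun V hV => isOpen_down (Iio_subset_Iio hα.le) hV
  have ht' : ∀ V ⊆ XX α, IsOpen[top e (Iio α)] V → IsOpen[top e (Iio γ)] V :=
    fun V hV ho => isOpen_up (s := Iio γ) h (isLowerSet_Iio γ) hV ho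
  have h01 : ∀ x : ℝ, 0 ≤ (fun _ : ℝ => (1:ℝ)) x ∧ (fun _ : ℝ => (1:ℝ)) x ≤ 1 := by
    intro x
    norm_num
  refine ⟨?_, ?_⟩
  · refine pre_lift hα.le ht ht' ?_
    refine comp_pre (ψ := Psi (fun _ => 1) (fun _ => 1) f) hσ.1
      (Psi_continuous continuous_const continuous_const hf)
      (fun p hp => Psi_mapsTo h01 h01 hb hp) (Psi_injOn h01 h01 hb)
      (fun U hU ho => Psi_open continuous_const continuous_const hf h01 h01 hb hU ho)
      (fun p hp => Psi_floor h01 hp) ?_ σ.n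
    refine hσ.1.unm.mono ?_
    intro j hj hj'
    exact hj hj'.1
  · intro x hx
    by_cases hxα : x ∈ XX α
    · obtain ⟨V, hVo, hxV, k, hk⟩ := hσ.2 x hxα
      refine ⟨V ∩ XX α, ?_, ⟨hxV, hxα⟩, k, ?_⟩
      · apply ht' _ inter_subset_right
        exact (top e (Iio α)).isOpen_inter V (XX α) hVo
          (isOpen_XX (s := Iio α) (fun β hβ => h β (lt_trans hβ hα)) (isLowerSet_Iio α))
      · intro p hp hkp hmem
        exact hk (Psi (fun _ => 1) (fun _ => 1) f p) (Psi_mapsTo h01 h01 hb hp) hkp hmem.1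
    · have hopen : IsOpen[top e (Iio γ)] (Set.range (e α)) :=
        @Topology.IsOpenEmbedding.isOpen_range R3 X _ (top e (Iio γ)) (e α)
          (openEmb_e (s := Iio γ) h (isLowerSet_Iio γ) (β := α) hα)
      obtain ⟨a, b, rfl⟩ : ∃ a b, x = Sum.inr (a, b) := by
        rcases x with x | ⟨a, b⟩
        · exact absurd (inl_mem_XX x α) hxα
        · exact ⟨a, b, rfl⟩
      rw [inr_mem_XX] at hx hxα
      have haα : a = α := le_antisymm ((covBy_Iio hαγ).1 hx) (not_lt.1 hxα)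
      subst haα
      refine ⟨Set.range (e a), hopen, ⟨((b : ℝ), 0), ?_⟩, 0, ?_⟩
      · rw [e_ray (h a hα) (w := ((b : ℝ), 0)) ⟨b.2, rfl⟩]
        simp
      · rintro p hp - ⟨w', hw'⟩
        have hmS := Psi_mapsTo h01 h01 hb hp
        have hmX : σ.E (Psi (fun _ => 1) (fun _ => 1) f p) ∈ XX a := hσ.1.maps _ hmS
        have hw2 : e a w' = σ.E (Psi (fun _ => 1) (fun _ => 1) f p) := hw'
        by_cases hray : w' ∈ Ray
        · rw [e_ray (h a hα) hray] at hw2
          rw [← hw2, inr_mem_XX] at hmX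
          exact lt_irrefl _ hmX
        · rw [he] at hw2
          obtain ⟨p', hp', -, hpe⟩ := att_off' (α := a) (w := w) (q := l a) (E := σ.E) hb hray
          rw [hpe] at hw2
          have heq : p' = Psi (fun _ => 1) (fun _ => 1) f p :=
            hσ.1.inj (Reg_subset hb hp') hmS hw2
          rw [heq] at hp'
          have h1 := hp'.2.2.2.1
          have h2 := (Psi_one_z (θ := fun _ => 1) (θ' := fun _ => 1) hp hb rfl).1
          exact lt_asymm h1 h2

/-- the transition to the next strip -/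
theorem next_TR (hαγ : α ⋖ γ) (h : ∀ β < γ, Att (top e (Iio β)) β (e β))
    (hσ : Adm l (top e (Iio α)) α σ) (hf : Continuous f) (hw : Continuous w)
    (hb : ∀ x, |f x| ≤ 3 / 4) (he : e α = att α σ.E (l α) f w) :
    TR l (top e (Iio γ)) α γ σ (nextStr σ f) := by
  have hα : α < γ := hαγ.lt
  have ht : ∀ V : Set X, IsOpen[top e (Iio γ)] V → IsOpen[top e (Iio α)] V :=
    fun V hV => isOpen_down (Iio_subset_Iio hα.le) hV
  have ht' : ∀ V ⊆ XX α, IsOpen[top e (Iio α)] V → IsOpen[top e (Iio γ)] V :=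
    fun V hV ho => isOpen_up (s := Iio γ) h (isLowerSet_Iio γ) hV ho
  have hadm := next_adm hαγ h hσ hf hw hb he
  intro k
  obtain ⟨θ, hθc, hθ01, hθ0, hθ1⟩ : ∃ θ : ℝ → ℝ, Continuous θ ∧ (∀ x, 0 ≤ θ x ∧ θ x ≤ 1) ∧
      (∀ x : ℝ, x ≤ (k : ℝ) → θ x = 0) ∧ (∀ x, (k : ℝ) + 1 ≤ x → θ x = 1) := by
    refine ⟨fun x => max 0 (min 1 (4 * (x - k))), by fun_prop, ?_, ?_, ?_⟩
    · intro x
      exact ⟨le_max_left _ _, max_le zero_le_one (min_le_left _ _)⟩
    · intro x hx
      apply max_eq_left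
      refine (min_le_right _ _).trans ?_
      linarith
    · intro x hx
      have h1 : min 1 (4 * (x - k)) = 1 := min_eq_left (by linarith)
      show max 0 (min 1 (4 * (x - k))) = 1
      rw [h1]
      exact max_eq_right zero_le_one
  let ρ : Str := ⟨fun p => σ.E (Psi θ θ f p),
    {j | if j < k then j ∈ σ.J else j ∈ (nextStr σ f).J}, σ.n⟩
  have hpre : Pre l (top e (Iio γ)) γ ρ := by
    refine pre_lift hα.le ht ht' ?_
    refine comp_pre (ψ := Psi θ θ f) hσ.1
      (Psi_continuous hθc hθc hf)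
      (fun p hp => Psi_mapsTo hθ01 hθ01 hb hp) (Psi_injOn hθ01 hθ01 hb)
      (fun U hU ho => Psi_open hθc hθc hf hθ01 hθ01 hb hU ho)
      (fun p hp => Psi_floor hθ01 hp) ?_ σ.n
    refine hσ.1.unm.mono ?_
    intro j hj hj'
    rw [mem_ofPred_eq] at hj'
    split_ifs at hj' with hjk
    · exact hj hj'
    · exact hj hj'.1
  have htail : TailEq (k + 1) (nextStr σ f) ρ := by
    constructor
    · intro p hp hkp
      have h1 : θ p.1 = 1 := hθ1 _ (by push_cast at hkp; exact hkp)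
      show σ.E (Psi θ θ f p) = σ.E (Psi (fun _ => 1) (fun _ => 1) f p)
      congr 1
      unfold Psi
      rw [h1]
    · intro j hj
      refine ⟨?_, rfl⟩
      show (if j < k then j ∈ σ.J else j ∈ (nextStr σ f).J) ↔ _
      rw [if_neg (by omega)]
  refine ⟨k + 1, ρ, ⟨hpre, esc_of_tail hadm.2 htail⟩, ?_, htail⟩
  constructor
  · intro p hp hpk
    show σ.E (Psi θ θ f p) = σ.E p
    rw [Psi_id (hθ0 _ hpk.le) (hθ0 _ hpk.le)]
  · intro j hj
    refine ⟨?_, rfl⟩
    show (if j < k then j ∈ σ.J else j ∈ (nextStr σ f).J) ↔ _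
    rw [if_pos hj]
  · intro p hp hkp _
    exact ⟨Psi θ θ f p, Psi_mapsTo hθ01 hθ01 hb hp, hkp, rfl, Psi_floor hθ01 hp⟩

end next

end Pool.Agent.Helper732.HN
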