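import Pool.Agent.Helper732.HN.O
import Pool.Agent.Helper732.HN.D2
import Pool.Agent.Helper732.HN.Xc
import Pool.Agent.Helper732.HN.E3
import Pool.Agent.Helper732.HN.C

set_option autoImplicit false

open Set Filter Topology

namespace Pool.Agent.Helper732.HN

/-! ## TARGETS -/

theorem isOpen_S_j17119 : IsOpen S := by
  have h1 : IsOpen {p : R3 | 0 < p.1} := isOpen_lt continuous_const continuous_fst
  have h2 : IsOpen {p : R3 | 0 < p.2.1} :=
    isOpen_lt continuous_const (continuous_fst.comp continuous_snd)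
  have h3 : IsOpen {p : R3 | -1 < p.2.2} :=
    isOpen_lt continuous_const (continuous_snd.comp continuous_snd)
  have h4 : IsOpen {p : R3 | p.2.2 < 1} :=
    isOpen_lt (continuous_snd.comp continuous_snd) continuous_const
  exact h1.inter (h2.inter (h3.inter h4))

/-- auxiliary case of `mod_cap`: the height is not an integer -/
theorem mod_cap_aux {l : Om → ℕ} {e : Om → R3 → X} {β : Om}
    (h : ∀ γ < β, Att (top e (Iio γ)) γ (e γ)) {σ : Str}
    (hσ : Adm l (top e (Iio β)) β σ) {p : R3} (hp : p ∈ S) {k m : ℕ} (hk : (k : ℝ) < p.1)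
    (hm0 : (m : ℝ) < p.2.1) (hm : p.2.1 < m + 1) :
    ∃ (k' : ℕ) (ρ : Str), Adm l (top e (Iio β)) β ρ ∧ Ext β k σ ρ ∧ TailEq k' σ ρ ∧
      ∃ j, k ≤ j ∧ j < k' ∧ j ∈ ρ.J ∧ ρ.n j ≤ m ∧ ρ.E (mk j (ρ.n j)) = σ.E p := by
  obtain ⟨U, hU⟩ : ∃ U : Set R3, ∀ q, q ∈ U ↔
      (q ∈ S ∧ (k:ℝ) < q.1 ∧ (m:ℝ) < q.2.1 ∧ q.2.1 < m + 1) :=
    ⟨{q | q ∈ S ∧ (k:ℝ) < q.1 ∧ (m:ℝ) < q.2.1 ∧ q.2.1 < m + 1}, fun q => Iff.rfl⟩
  have hUS : U ⊆ S := fun q hq => ((hU q).1 hq).1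
  have hUo : IsOpen U := by
    have h2 : IsOpen {p : R3 | (k:ℝ) < p.1} := isOpen_lt continuous_const continuous_fst
    have h3 : IsOpen {p : R3 | (m:ℝ) < p.2.1} :=
      isOpen_lt continuous_const (continuous_fst.comp continuous_snd)
    have h4 : IsOpen {p : R3 | p.2.1 < (m:ℝ) + 1} :=
      isOpen_lt (continuous_fst.comp continuous_snd) continuous_const
    have h5 : U = S ∩ ({p : R3 | (k:ℝ) < p.1} ∩ ({p : R3 | (m:ℝ) < p.2.1} ∩
        {p : R3 | p.2.1 < (m:ℝ) + 1})) := by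
      ext q
      exact hU q
    rw [h5]
    exact isOpen_S_j17119.inter (h2.inter (h3.inter h4))
  have hUc : Convex ℝ U := by
    intro x hx y hy a b ha hb hab
    rw [hU] at hx hy ⊢
    obtain ⟨⟨x1, x2, x3, x4⟩, x5, x6, x7⟩ := hx
    obtain ⟨⟨y1, y2, y3, y4⟩, y5, y6, y7⟩ := hy
    have key : ∀ c u v : ℝ, c < u → c < v → c < a * u + b * v := by
      intro c u v hu hv
      rcases ha.eq_or_lt with h0 | h0
      · subst h0
        have : b = 1 := by linarith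
        rw [this]; linarith
      · have h1 : a * c < a * u := mul_lt_mul_of_pos_left hu h0
        have h2 : b * c ≤ b * v := mul_le_mul_of_nonneg_left hv.le hb
        have h3 : a * c + b * c = c := by rw [← add_mul, hab, one_mul]
        linarith
    have key2 : ∀ c u v : ℝ, u < c → v < c → a * u + b * v < c := by
      intro c u v hu hv
      have := key (-c) (-u) (-v) (neg_lt_neg hu) (neg_lt_neg hv)
      linarith
    refine ⟨⟨key _ _ _ x1 y1, key _ _ _ x2 y2, key _ _ _ x3 y3, key2 _ _ _ x4 y4⟩,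
      key _ _ _ x5 y5, key _ _ _ x6 y6, key2 _ _ _ x7 y7⟩
  have hUfl : ∀ q ∈ U, ⌊q.2.1⌋₊ = m := by
    intro q hq
    obtain ⟨_, _, h6, h7⟩ := (hU q).1 hq
    rw [Nat.floor_eq_iff (le_trans (Nat.cast_nonneg m) h6.le)]
    exact ⟨h6.le, h7⟩
  obtain ⟨O, hO⟩ : ∃ O : Set X, O = σ.E '' U := ⟨_, rfl⟩
  have hOback : ∀ q ∈ S, σ.E q ∈ O → q ∈ U := by
    intro q hq hqO
    rw [hO] at hqO
    obtain ⟨q', hq', he⟩ := hqO
    have := hσ.1.inj (hUS hq') hq he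
    rwa [← this]
  have hOX : O ⊆ XX β := by
    rw [hO]
    rintro _ ⟨q, hq, rfl⟩
    exact hσ.1.maps q (hUS hq)
  have hlam : ∀ x ∈ O, lam l x ≤ m := by
    rw [hO]
    rintro _ ⟨q, hq, rfl⟩
    rw [← hUfl q hq]
    exact hσ.1.lev q (hUS hq)
  have hfl : ∀ q ∈ S, σ.E q ∈ O → m ≤ ⌊q.2.1⌋₊ := fun q hq hqO => (hUfl q (hOback q hq hqO)).ge
  have hOo : IsOpen[top e (Iio β)] O := by rw [hO]; exact hσ.1.opn U hUS hUo
  have hls : IsLowerSet (Iio β) := isLowerSet_Iio β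
  have hatt : ∀ γ ∈ Iio β, Att (top e (Iio γ)) γ (e γ) := fun γ hγ => h γ hγ
  have hOc : @IsPreconnected X (top e (Iio β)) O := by
    letI : TopologicalSpace X := top e (Iio β)
    rw [hO]
    refine hUc.isPreconnected.image σ.E ?_
    refine ContinuousOn.mono ?_ hUS
    rw [continuousOn_open_iff isOpen_S_j17119]
    exact fun V hV => hσ.1.cont V hV
  have hch : ∀ x ∈ O, ∃ φ : R3 → X, @IsOpenEmbedding R3 X _ (top e (Iio β)) φ ∧
      x ∈ Set.range φ := by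
    intro x hx
    have hxX := hOX hx
    rcases x with w | ⟨γ, a⟩
    · exact ⟨Sum.inl, openEmb_inl hatt hls, w, rfl⟩
    · have hγ : γ < β := hxX
      refine ⟨e γ, openEmb_e hatt hls hγ, ((a : ℝ), 0), ?_⟩
      rw [e_ray (h γ hγ) (show (((a : ℝ), 0) : R3) ∈ Ray from ⟨a.2, rfl⟩)]
      simp
  obtain ⟨i, hiJ, hik⟩ := hσ.1.unm.exists_gt k
  have hmkU : mk i m ∈ U := by
    rw [hU]
    have h1 : (k:ℝ) < i := by exact_mod_cast hik
    have h2 : (0:ℝ) ≤ k := Nat.cast_nonneg k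
    have h3 : (0:ℝ) ≤ m := Nat.cast_nonneg m
    refine ⟨⟨?_, ?_, ?_, ?_⟩, ?_, ?_, ?_⟩ <;> simp only [mk] <;> linarith
  have hpU : p ∈ U := (hU p).2 ⟨hp, hk, hm0, hm⟩
  have hx : σ.E (mk i m) ∈ O := by rw [hO]; exact ⟨_, hmkU, rfl⟩
  have hy : σ.E p ∈ O := by rw [hO]; exact ⟨_, hpU, rfl⟩
  obtain ⟨H, hH, C, hC, hCO, hid, hCC⟩ :=
    @hom_lemma X (top e (Iio β)) (t2 hatt hls) O hOo hOc hch _ _ hx hy
  obtain ⟨_, K, hK⟩ := hom_adm hσ hOX hlam hfl H hC hCO hid hCC (J := σ.J) (n := σ.n) hσ.1.unm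
  obtain ⟨k', hk'⟩ : ∃ k', k' = max K (i + 1) := ⟨_, rfl⟩
  have hk'K : K ≤ k' := by rw [hk']; exact le_max_left _ _
  have hk'i : i + 1 ≤ k' := by rw [hk']; exact le_max_right _ _
  obtain ⟨J, hJ⟩ : ∃ J : Set ℕ, ∀ j, j ∈ J ↔ ((j < k ∧ j ∈ σ.J) ∨ j = i ∨ (k' ≤ j ∧ j ∈ σ.J)) :=
    ⟨{j | (j < k ∧ j ∈ σ.J) ∨ j = i ∨ (k' ≤ j ∧ j ∈ σ.J)}, fun _ => Iff.rfl⟩
  obtain ⟨n', hn'⟩ : ∃ n' : ℕ → ℕ, ∀ j, n' j = if j = i then m else σ.n j :=
    ⟨fun j => if j = i then m else σ.n j, fun _ => rfl⟩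
  have hJi : (Jᶜ).Infinite := by
    have h1 : (σ.Jᶜ \ {i}).Infinite := hσ.1.unm.diff (Set.finite_singleton i)
    refine h1.mono ?_
    rintro j ⟨hj1, hj2⟩ hj
    rcases (hJ j).1 hj with h3 | h3 | h3
    · exact hj1 h3.2
    · exact hj2 h3
    · exact hj1 h3.2
  obtain ⟨hadm, _⟩ := hom_adm hσ hOX hlam hfl H hC hCO hid hCC (J := J) (n := n') hJi
  have hni : n' i = m := by rw [hn', if_pos rfl]
  have hnne : ∀ j, j ≠ i → n' j = σ.n j := fun j hj => by rw [hn', if_neg hj]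
  refine ⟨k', ⟨fun p => H (σ.E p), J, n'⟩, hadm, ⟨?_, ?_, ?_⟩, ⟨?_, ?_⟩, i, hik.le, hk'i, ?_, ?_, ?_⟩
  · intro q hq hqk
    apply hid
    intro hqC
    have h1 := (hU q).1 (hOback q hq (hCO hqC))
    linarith [h1.2.1]
  · intro j hj
    have hji : j ≠ i := by omega
    refine ⟨?_, hnne j hji⟩
    change j ∈ J ↔ j ∈ σ.J
    rw [hJ]
    constructor
    · rintro (h3 | h3 | h3)
      · exact h3.2
      · exact absurd h3 hji
      · exact h3.2
    · intro h3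
      exact Or.inl ⟨hj, h3⟩
  · intro q hq hqk _
    by_cases hqC : σ.E q ∈ C
    · have h1 := hCO (hCC _ hqC)
      rw [hO] at h1
      obtain ⟨q0, hq0, he⟩ := h1
      have hqU := hOback q hq (hCO hqC)
      refine ⟨q0, hUS hq0, ((hU q0).1 hq0).2.1.le, he.symm, ?_⟩
      rw [hUfl q0 hq0, hUfl q hqU]
    · exact ⟨q, hq, hqk, hid _ hqC, le_rfl⟩
  · intro q hq hqk
    exact hK q hq (le_trans (by exact_mod_cast hk'K) hqk)
  · intro j hj
    have hji : j ≠ i := by omega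
    refine ⟨?_, hnne j hji⟩
    change j ∈ J ↔ j ∈ σ.J
    rw [hJ]
    constructor
    · rintro (h3 | h3 | h3)
      · exact h3.2
      · exact absurd h3 hji
      · exact h3.2
    · intro h3
      exact Or.inr (Or.inr ⟨hj, h3⟩)
  · change i ∈ J
    rw [hJ]
    exact Or.inr (Or.inl rfl)
  · change n' i ≤ m
    exact hni.le
  · change H (σ.E (mk i (n' i))) = σ.E p
    rw [hni]
    exact hH

/-- a strip can be modified so that a mark hits a given point of the strip -/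
theorem mod_cap {l : Om → ℕ} {e : Om → R3 → X} {β : Om}
    (h : ∀ γ < β, Att (top e (Iio γ)) γ (e γ)) {σ : Str}
    (hσ : Adm l (top e (Iio β)) β σ) {p : R3} (hp : p ∈ S) {k m : ℕ} (hk : (k : ℝ) < p.1)
    (hm : p.2.1 < m + 1) :
    ∃ (k' : ℕ) (ρ : Str), Adm l (top e (Iio β)) β ρ ∧ Ext β k σ ρ ∧ TailEq k' σ ρ ∧
      ∃ j, k ≤ j ∧ j < k' ∧ j ∈ ρ.J ∧ ρ.n j ≤ m ∧ ρ.E (mk j (ρ.n j)) = σ.E p := by
  have hp2 : 0 < p.2.1 := hp.2.1
  obtain ⟨m0, hm0⟩ : ∃ m0, m0 = ⌊p.2.1⌋₊ := ⟨_, rfl⟩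
  have h1 : (m0 : ℝ) ≤ p.2.1 := by rw [hm0]; exact Nat.floor_le hp2.le
  have h2 : p.2.1 < m0 + 1 := by rw [hm0]; exact Nat.lt_floor_add_one _
  have hmm : m0 ≤ m := by
    have : (m0 : ℝ) < m + 1 := lt_of_le_of_lt h1 hm
    have : m0 < m + 1 := by exact_mod_cast this
    omega
  rcases h1.lt_or_eq with h3 | h3
  · obtain ⟨k', ρ, r1, r2, r3, j, r4, r5, r6, r7, r8⟩ := mod_cap_aux h hσ hp hk h3 h2
    exact ⟨k', ρ, r1, r2, r3, j, r4, r5, r6, r7.trans hmm, r8⟩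
  · -- the integer case
    have hm0pos : 1 ≤ m0 := by
      have : (0:ℝ) < m0 := by rw [h3]; exact hp2
      exact_mod_cast this
    have hchi0 : chi (m0 : ℝ) = m0 - 1 / 4 := by
      unfold chi
      have h4 : (1:ℝ) ≤ m0 := by exact_mod_cast hm0pos
      rw [if_neg (by linarith)]
      have h5 : Real.cos (2 * Real.pi * (m0 : ℝ)) = 1 := by
        have := Real.cos_nat_mul_two_pi m0
        rw [mul_comm] at this
        exact this
      rw [h5]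
      ring
    obtain ⟨y1, hy1, hchi1⟩ : ∃ y1 ∈ Icc (m0 : ℝ) (m0 + 1 / 2), chi y1 = m0 := by
      have h4 := intermediate_value_Icc (show (m0 : ℝ) ≤ m0 + 1 / 2 by linarith)
        chi_continuous.continuousOn
      have h5 : (m0 : ℝ) ∈ Icc (chi (m0 : ℝ)) (chi ((m0 : ℝ) + 1 / 2)) := by
        rw [hchi0, chi_half]
        constructor <;> linarith
      obtain ⟨y1, hy1, hy2⟩ := h4 h5
      exact ⟨y1, hy1, hy2⟩
    have hy1m : (m0 : ℝ) < y1 := by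
      rcases hy1.1.lt_or_eq with h4 | h4
      · exact h4
      · rw [← h4, hchi0] at hchi1
        linarith
    have hy1m' : y1 < m0 + 1 := by linarith [hy1.2]
    obtain ⟨ε, hε⟩ : ∃ ε : ℝ, ε = p.1 - k := ⟨_, rfl⟩
    have hε0 : 0 < ε := by rw [hε]; linarith
    obtain ⟨θ, hθ⟩ : ∃ θ : ℝ → ℝ, ∀ x, θ x = max 0 (1 - |x - p.1| / ε) := ⟨_, fun _ => rfl⟩
    have hθc : Continuous θ := by
      have : θ = fun x => max 0 (1 - |x - p.1| / ε) := funext hθ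
      rw [this]
      fun_prop
    have hθ01 : ∀ x, 0 ≤ θ x ∧ θ x ≤ 1 := by
      intro x
      rw [hθ]
      refine ⟨le_max_left _ _, max_le zero_le_one ?_⟩
      have : 0 ≤ |x - p.1| / ε := by positivity
      linarith
    have hθp : θ p.1 = 1 := by
      rw [hθ]
      simp
    have hθk : ∀ x : ℝ, x ≤ (k:ℝ) → θ x = 0 := by
      intro x hx
      rw [hθ]
      apply max_eq_left
      rw [sub_nonpos, le_div_iff₀ hε0, one_mul, hε]
      have := neg_abs_le (x - p.1)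
      linarith
    obtain ⟨K1, hK1⟩ := exists_nat_ge (2 * p.1 - k)
    have hθK : ∀ x, (K1 : ℝ) ≤ x → θ x = 0 := by
      intro x hx
      rw [hθ]
      apply max_eq_left
      rw [sub_nonpos, le_div_iff₀ hε0, one_mul, hε]
      have := le_abs_self (x - p.1)
      linarith
    have hz : ∀ x : ℝ, 0 ≤ (fun _ : ℝ => (0:ℝ)) x ∧ (fun _ : ℝ => (0:ℝ)) x ≤ 1 :=
      fun x => ⟨le_rfl, zero_le_one⟩
    have hb : ∀ x : ℝ, |(fun _ : ℝ => (0:ℝ)) x| ≤ 3 / 4 := by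
      intro x
      simp only [abs_zero]
      norm_num
    have hc0 : Continuous (fun _ : ℝ => (0:ℝ)) := continuous_const
    obtain ⟨ψ, hψ⟩ : ∃ ψ : R3 → R3, ψ = Psi θ (fun _ => 0) (fun _ => 0) := ⟨_, rfl⟩
    have hψc : Continuous ψ := by rw [hψ]; exact Psi_continuous hθc hc0 hc0
    have hψm : MapsTo ψ S S := by
      intro q hq
      rw [hψ]
      exact Psi_mapsTo hθ01 hz hb hq
    have hψi : InjOn ψ S := by rw [hψ]; exact Psi_injOn hθ01 hz hb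
    have hψo : ∀ U ⊆ S, IsOpen U → IsOpen (ψ '' U) := by
      intro U hU hUo
      rw [hψ]
      exact Psi_open hθc hc0 hc0 hθ01 hz hb hU hUo
    have hψf : ∀ q ∈ S, ⌊(ψ q).2.1⌋₊ ≤ ⌊q.2.1⌋₊ := by
      intro q hq
      rw [hψ]
      exact Psi_floor hθ01 hq
    have hψ1 : ∀ q, (ψ q).1 = q.1 := by
      intro q
      rw [hψ]
      rfl
    have hψid : ∀ q : R3, θ q.1 = 0 → ψ q = q := by
      intro q hq
      rw [hψ]
      exact Psi_id hq rfl
    have hσ1 : Adm l (top e (Iio β)) β ⟨fun q => σ.E (ψ q), σ.J, σ.n⟩ :=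
      ⟨comp_pre hσ.1 hψc hψm hψi hψo hψf hσ.1.unm σ.n,
        comp_esc hσ.2 hψm (fun q _ => (hψ1 q).ge) σ.J σ.n⟩
    have hp1S : ((p.1, y1, p.2.2) : R3) ∈ S :=
      ⟨hp.1, lt_of_le_of_lt (Nat.cast_nonneg m0) hy1m, hp.2.2⟩
    have hψp : ψ (p.1, y1, p.2.2) = p := by
      rw [hψ]
      unfold Psi
      simp only [hθp, hchi1]
      refine Prod.ext rfl (Prod.ext ?_ ?_)
      · simp only
        rw [h3]; ring
      · simp only
        ring
    have hext1 : Ext β k σ ⟨fun q => σ.E (ψ q), σ.J, σ.n⟩ := by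
      refine ⟨?_, ?_, ?_⟩
      · intro q hq hqk
        change σ.E (ψ q) = σ.E q
        rw [hψid q (hθk _ hqk.le)]
      · intro j _
        exact ⟨Iff.rfl, rfl⟩
      · intro q hq hqk _
        exact ⟨ψ q, hψm hq, by rw [hψ1]; exact hqk, rfl, hψf q hq⟩
    have htl1 : TailEq K1 σ ⟨fun q => σ.E (ψ q), σ.J, σ.n⟩ := by
      refine ⟨?_, ?_⟩
      · intro q hq hqk
        change σ.E (ψ q) = σ.E q
        rw [hψid q (hθK _ hqk)]
      · intro j _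
        exact ⟨Iff.rfl, rfl⟩
    obtain ⟨k', ρ, r1, r2, r3, j, r4, r5, r6, r7, r8⟩ :=
      mod_cap_aux (p := (p.1, y1, p.2.2)) (k := k) (m := m0) h hσ1 hp1S hk hy1m hy1m'
    refine ⟨max K1 k', ρ, r1, Ext.trans le_rfl le_rfl hext1 r2, TailEq.trans htl1 r3, j, r4,
      lt_of_lt_of_le r5 (le_max_right _ _), r6, r7.trans hmm, ?_⟩
    rw [r8]
    change σ.E (ψ (p.1, y1, p.2.2)) = σ.E p
    rw [hψp]

end Pool.Agent.Helper732.HN
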