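import Pool.Agent.Helper732.HN.O
import Pool.Agent.Helper732.HN.A
import Pool.Agent.Helper732.HN.E3
import Pool.Agent.Helper732.HN.G0
import Pool.Agent.Helper732.HN.N
import Pool.Agent.Helper732.HN.F
import Pool.Agent.Helper732.HN.Q
import Pool.Agent.Helper732.HN.L3

set_option autoImplicit false

open Set Filter Topology

namespace Pool.Agent.Helper732.HN

/-! ## TARGETS -/

section stage

variable {l : Om → ℕ} {G : Om → Set X} {D : Om → Dat} {α : Om} (h : ∀ β < α, Good l G D β)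

include h

theorem stage_zero (h0 : ¬ ∃ β, β < α) : ∃ σ : Str, Adm l (TT l D α) α σ ∧
    (∀ β < α, TR l (TT l D α) β α (D β).σ σ) ∧
    (∀ δ ≤ α, ∀ m, Acc l (fun β => (D β).σ) (G δ) δ m → (hit (G δ) m σ).Infinite) ∧
    ∀ β, β ⋖ α → σ = nextStr (D β).σ (D β).f := by
  have hno : ∀ β, ¬ β < α := fun β hβ => h0 ⟨β, hβ⟩
  have hSo : IsOpen S := by
    have e : S = {p : R3 | 0 < p.1} ∩ ({p : R3 | 0 < p.2.1} ∩ ({p : R3 | -1 < p.2.2} ∩
        {p : R3 | p.2.2 < 1})) := rfl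
    rw [e]
    refine (isOpen_lt continuous_const continuous_fst).inter
      ((isOpen_lt continuous_const (continuous_fst.comp continuous_snd)).inter
      ((isOpen_lt continuous_const (continuous_snd.comp continuous_snd)).inter
      (isOpen_lt (continuous_snd.comp continuous_snd) continuous_const)))
  have himg : ∀ U : Set R3, IsOpen U → IsOpen[TT l D α] (Sum.inl '' U : Set X) := by
    intro U hU
    refine ⟨?_, fun β hβ => absurd hβ (hno β)⟩
    rw [preimage_image_eq _ Sum.inl_injective]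
    exact hU
  refine ⟨⟨Sum.inl, ∅, fun _ => 0⟩, ⟨⟨?_, ?_, ?_, ?_, ?_, ?_⟩, ?_⟩, ?_, ?_, ?_⟩
  · intro p _
    exact inl_mem_XX p α
  · exact Sum.inl_injective.injOn
  · intro V hV
    exact hSo.inter hV.1
  · intro U _ hU
    exact himg U hU
  · intro p _
    exact Nat.zero_le _
  · show ((∅ : Set ℕ)ᶜ).Infinite
    rw [compl_empty]
    exact infinite_univ
  · intro x hx
    rcases x with q | ⟨a, b⟩
    · refine ⟨Sum.inl '' {p : R3 | p.1 < q.1 + 1}, himg _ (isOpen_lt continuous_fst continuous_const),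
        ⟨q, by show q.1 < q.1 + 1; linarith, rfl⟩, ⌈q.1 + 1⌉₊, ?_⟩
      rintro p _ hp ⟨p', hp', hpp⟩
      have e : p' = p := Sum.inl_injective hpp
      rw [e] at hp'
      have h1 : q.1 + 1 ≤ (⌈q.1 + 1⌉₊ : ℝ) := Nat.le_ceil _
      have h2 : p.1 < q.1 + 1 := hp'
      linarith
    · exact absurd (inr_mem_XX.1 hx) (hno a)
  · intro β hβ
    exact absurd hβ (hno β)
  · intro δ hδ m hacc
    obtain ⟨β, hβ⟩ := hacc.1.1
    exact absurd (lt_of_lt_of_le hβ hδ) (hno β)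
  · intro β hβ
    exact absurd hβ.lt (hno β)

theorem stage_succ {γ : Om} (hγ : γ ⋖ α) : ∃ σ : Str, Adm l (TT l D α) α σ ∧
    (∀ β < α, TR l (TT l D α) β α (D β).σ σ) ∧
    (∀ δ ≤ α, ∀ m, Acc l (fun β => (D β).σ) (G δ) δ m → (hit (G δ) m σ).Infinite) ∧
    ∀ β, β ⋖ α → σ = nextStr (D β).σ (D β).f := by
  have hatt := good_att h
  have hg := h γ hγ.lt
  have hadm : Adm l (top (eD l D) (Iio γ)) γ (D γ).σ := hg.adm
  have hTR : TR l (TT l D α) γ α (D γ).σ (nextStr (D γ).σ (D γ).f) :=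
    next_TR (e := eD l D) (w := (D γ).w) hγ hatt hadm hg.cf hg.cw hg.bd rfl
  refine ⟨nextStr (D γ).σ (D γ).f,
    next_adm (e := eD l D) (w := (D γ).w) hγ hatt hadm hg.cf hg.cw hg.bd rfl, ?_, ?_, ?_⟩
  · intro β hβ
    rcases (hγ.le_of_lt hβ).eq_or_lt with rfl | hlt
    · exact hTR
    · exact TR_trans (e := eD l D) hlt.le hγ.lt.le hatt (hg.tr β hlt) hTR
  · intro δ hδ m hacc
    have hδγ : δ ≤ γ := by
      refine hγ.le_of_lt (lt_of_le_of_ne hδ ?_)
      rintro rfl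
      obtain ⟨γ', h1, h2⟩ := hacc.1.2 γ hγ.lt
      exact hγ.2 h2 h1
    refine (hg.task δ hδγ m hacc).1.mono ?_
    rintro j ⟨⟨hj1, hj2, hj3⟩, hj4⟩
    refine ⟨⟨hj1, hj4⟩, hj2, ?_⟩
    show (D γ).σ.E (Psi (fun _ => 1) (fun _ => 1) (D γ).f (mk j ((D γ).σ.n j))) ∈ G δ
    rw [Psi_mk j _ (Or.inr hj4)]
    exact hj3
  · intro β hβ
    have : β = γ := hβ.unique_left hγ
    rw [this]

theorem stage_lim (hα : IsLim α) : ∃ σ : Str, Adm l (TT l D α) α σ ∧
    (∀ β < α, TR l (TT l D α) β α (D β).σ σ) ∧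
    (∀ δ ≤ α, ∀ m, Acc l (fun β => (D β).σ) (G δ) δ m → (hit (G δ) m σ).Infinite) ∧
    ∀ β, β ⋖ α → σ = nextStr (D β).σ (D β).f := by
  have hatt := good_att h
  obtain ⟨b, hb⟩ := om_covBy α
  have hIic : (Iic α).Countable := (om_countable b).mono fun x hx => (covBy_Iio hb).2 hx
  have hcount : ((Iic α) ×ˢ (univ : Set ℕ)).Countable := hIic.prod countable_univ
  have hne : ((Iic α) ×ˢ (univ : Set ℕ)).Nonempty := ⟨(α, 0), (le_refl α : α ≤ α), mem_univ _⟩
  obtain ⟨f, hf⟩ := hcount.exists_eq_range hne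
  have hs : ∀ β < α, Adm l (top (eD l D) (Iio β)) β ((fun β => (D β).σ) β) :=
    fun β hβ => (h β hβ).adm
  have htr : ∀ β γ, β < γ → γ < α → TR l (top (eD l D) (Iio γ)) β γ ((fun β => (D β).σ) β)
      ((fun β => (D β).σ) γ) := fun β γ hβγ hγ => (h γ hγ).tr β hβγ
  have hfin : ∀ α1 γ, α1 ⋖ γ → γ < α → ∀ (a : NNReal) (k : ℕ),
      ∃ (k' : ℕ) (ρ : Str), Adm l (top (eD l D) (Iio γ)) γ ρ ∧ Ext α1 k ((fun β => (D β).σ) α1) ρ ∧
        TailEq k' ((fun β => (D β).σ) γ) ρ ∧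
        ∃ j, k ≤ j ∧ j < k' ∧ j ∈ ρ.J ∧ ρ.n j ≤ l α1 ∧ ρ.E (mk j (ρ.n j)) = Sum.inr (α1, a) := by
    intro α1 γ hcov hγ a k
    have hg := h α1 (hcov.lt.trans hγ)
    have hatt' : ∀ β < γ, Att (top (eD l D) (Iio β)) β (eD l D β) := fun β hβ =>
      hatt β (hβ.trans hγ)
    have hadm : Adm l (top (eD l D) (Iio α1)) α1 (D α1).σ := hg.adm
    have hnx : Adm l (top (eD l D) (Iio γ)) γ (nextStr (D α1).σ (D α1).f) :=
      next_adm (e := eD l D) (w := (D α1).w) hcov hatt' hadm hg.cf hg.cw hg.bd rfl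
    have hfg := finger (e := eD l D) (w := (D α1).w) hcov hatt' hadm hg.cf hg.cw hg.bd rfl hg.cap
      hnx a k
    have he : (D γ).σ = nextStr (D α1).σ (D α1).f := (h γ hγ).next α1 hcov
    simp only [he]
    exact hfg
  obtain ⟨σ, h1, h2, h3⟩ := limit_stage (e := eD l D) hα hatt hs htr
    (fun i => Acc l (fun β => (D β).σ) (G (f i).1) (f i).1 (f i).2) (fun i => G (f i).1)
    (fun i => (f i).2) (by
      intro i hi
      have hd : (f i).1 ≤ α := by
        have : f i ∈ (Iic α) ×ˢ (univ : Set ℕ) := by rw [hf]; exact mem_range_self i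
        exact this.1
      rcases hd.lt_or_eq with hlt | heq
      · refine ⟨(f i).1, hlt, fun β hβ0 hβ k => ⟨β, le_rfl, hβ, ?_⟩⟩
        refine cap_of_hit (e := eD l D) (s := fun β => (D β).σ) (hs β hβ) ?_ k
        refine ((h β hβ).task (f i).1 hβ0 (f i).2 hi).1.mono ?_
        rintro j ⟨hj, -⟩
        exact hj
      · obtain ⟨β0, hβ0⟩ := hα.1
        refine ⟨β0, hβ0, fun β _ hβ k => ?_⟩
        have hi' : Acc l (fun β => (D β).σ) (G (f i).1) α (f i).2 := by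
          have := hi
          rw [heq] at this
          rw [heq]
          exact this
        exact acc_cap (e := eD l D) (δ := α) hatt hs htr hfin hi' hβ k)
  refine ⟨σ, h1, h2, ?_, ?_⟩
  · intro δ hδ m hacc
    have hmem : (δ, m) ∈ (Iic α) ×ˢ (univ : Set ℕ) := ⟨hδ, mem_univ _⟩
    rw [hf] at hmem
    obtain ⟨i, hi⟩ := hmem
    have h4 := h3 i
    simp only [hi] at h4
    exact h4 hacc
  · intro β hβ
    obtain ⟨γ', h4, h5⟩ := hα.2 β hβ.lt
    exact absurd h4 (hβ.2 h5)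

end stage

end Pool.Agent.Helper732.HN
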