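import Pool.Agent.Helper732.HN.O
import Pool.Agent.Helper732.HN.PropsDef

set_option autoImplicit false

open Set Filter Topology

namespace Pool.Agent.Helper732.HN

/-! ## TARGETS -/

section soft

variable {l : Om → ℕ} {G : Om → Set X} {t : TopologicalSpace X} {s : Om → Str}
  (hP : Props l G t s) (hG : Guess G) (hl : ∀ n, ∀ β : Om, ∃ α, β ≤ α ∧ l α = n)

include hP hG

omit hP hG in
theorem XX_mono_aux {α β : Om} (h : α ≤ β) : XX α ⊆ XX β := by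
  rintro (x | ⟨y, r⟩) hx
  · trivial
  · exact lt_of_lt_of_le hx h

/-- unbounded sets of level `≤ m` accumulate at almost all rays of level `≥ m` -/
theorem star_unbounded {A : Set X} {m : ℕ} (hA : ∀ x ∈ A, lam l x ≤ m)
    (hu : ∀ δ, ∃ x ∈ A, x ∉ XX δ) : ∃ δ, ∀ α, δ ≤ α → m ≤ l α → ∀ a : NNReal,
      (Sum.inr (α, a) : X) ∈ @closure X t A := by
  choose a haA haX using hu
  have hf : ∀ ξ : Om, ∃ f : Om, ξ < f ∧ a ξ ∈ XX f := by
    intro ξ
    have h1 := haX ξ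
    rcases hx : a ξ with x | ⟨y, r⟩
    · rw [hx] at h1
      exact absurd trivial h1
    · rw [hx] at h1
      have h2 : ξ ≤ y := not_lt.1 h1
      obtain ⟨f, hf⟩ := om_gt y
      exact ⟨f, lt_of_le_of_lt h2 hf, hf⟩
  choose f hf1 hf2 using hf
  obtain ⟨δ, ⟨β0, hβ0⟩, hδf, hGδ⟩ := hG a f
  have hacc : Acc l s (G δ) δ m := by
    refine ⟨⟨⟨β0, hβ0⟩, fun β hβ => ⟨f β, hδf β hβ, hf1 β⟩⟩, fun β hβ k => ?_⟩
    refine ⟨a β, ?_, Or.inr ⟨?_, haX β, hA _ (haA β)⟩⟩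
    · rw [hGδ]; exact ⟨β, hβ, rfl⟩
    · exact XX_mono_aux (hδf β hβ).le (hf2 β)
  refine ⟨δ, fun α hα hm r => ?_⟩
  have h1 := hP.star δ m hacc α hα hm r
  refine @closure_mono X t _ _ ?_ _ h1
  rw [hGδ]
  rintro _ ⟨ξ, _, rfl⟩
  exact haA ξ

/-- the dichotomy for bounded sets -/
theorem star_bounded {A : Set X} {γ : Om} (hA : A ⊆ XX γ) (n : ℕ) :
    (∃ δ, γ ≤ δ ∧ ∃ k, Disjoint A (Oset (s δ) n k)) ∨
    ∃ δ, ∀ α, δ ≤ α → n ≤ l α → ∀ a : NNReal, (Sum.inr (α, a) : X) ∈ @closure X t A := by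
  by_cases hcase : ∃ δ, γ ≤ δ ∧ ∃ k, Disjoint A (Oset (s δ) n k)
  · exact Or.inl hcase
  right
  have hmeet : ∀ δ, γ ≤ δ → ∀ k, ∃ y, y ∈ A ∧ y ∈ Oset (s δ) n k := by
    intro δ hδ k
    by_contra hcon
    push Not at hcon
    exact hcase ⟨δ, hδ, k, Set.disjoint_left.2 hcon⟩
  let _ := t
  obtain ⟨φ, hφ, hcov⟩ := hP.cover γ
  have hsep : ∀ i, ∃ c : Set R3, c ⊆ φ i ⁻¹' A ∧ c.Countable ∧ φ i ⁻¹' A ⊆ closure c := fun i =>
    (TopologicalSpace.IsSeparable.of_separableSpace (φ i ⁻¹' A)).exists_countable_dense_subset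
  choose c hcA hcc hcd using hsep
  obtain ⟨Dn, hDn⟩ : ∃ Dn : Set X, Dn = ⋃ i, φ i '' c i := ⟨_, rfl⟩
  have hDc : Dn.Countable := by
    rw [hDn]; exact Set.countable_iUnion fun i => (hcc i).image _
  have hDA : Dn ⊆ A := by
    rw [hDn]
    refine Set.iUnion_subset fun i => ?_
    rintro _ ⟨w, hw, rfl⟩
    exact hcA i hw
  have hAD : A ⊆ closure Dn := by
    intro x hx
    have hx' : x ∈ ⋃ i, range (φ i) := by rw [hcov]; exact hA hx
    obtain ⟨i, w, rfl⟩ := Set.mem_iUnion.1 hx'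
    have h1 : w ∈ closure (c i) := hcd i hx
    have h2 : φ i w ∈ closure (φ i '' c i) :=
      image_closure_subset_closure_image (hφ i).continuous ⟨w, h1, rfl⟩
    refine closure_mono ?_ h2
    rw [hDn]
    exact Set.subset_iUnion (fun i => φ i '' c i) i
  have hDne : Dn.Nonempty := by
    obtain ⟨y, hy, _⟩ := hmeet γ le_rfl 0
    have := hAD hy
    by_contra hne
    rw [Set.not_nonempty_iff_eq_empty] at hne
    rw [hne, closure_empty] at this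
    exact this
  obtain ⟨d, hd⟩ := hDc.exists_eq_range hDne
  choose g hg using om_gt
  obtain ⟨en, hen⟩ : ∃ en : ℕ → Om, ∀ i, en i = g^[i] γ := ⟨_, fun _ => rfl⟩
  have hmono : StrictMono en := by
    apply strictMono_nat_of_lt_succ
    intro i
    rw [hen, hen, Function.iterate_succ_apply']
    exact hg _
  obtain ⟨a0, ha0⟩ := om_bound en
  obtain ⟨a, ha⟩ : ∃ a : Om → X, a = Function.extend en d (fun _ => d 0) := ⟨_, rfl⟩
  have ha1 : ∀ i, a (en i) = d i := fun i => by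
    rw [ha]; exact hmono.injective.extend_apply _ _ _
  have ha2 : ∀ ξ, a ξ ∈ range d := by
    intro ξ
    by_cases h : ∃ i, en i = ξ
    · obtain ⟨i, rfl⟩ := h
      rw [ha1]; exact ⟨i, rfl⟩
    · rw [ha, Function.extend_apply' _ _ _ h]; exact ⟨0, rfl⟩
  obtain ⟨δ, ⟨β0, hβ0⟩, hδf, hGδ⟩ := hG a (fun β => g (max β (max γ a0)))
  have hfb : ∀ β, β < g (max β (max γ a0)) := fun β => lt_of_le_of_lt (le_max_left _ _) (hg _)
  have hγδ : γ < δ := lt_of_le_of_lt ((le_max_left _ _).trans (le_max_right _ _))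
    ((hg (max β0 (max γ a0))).trans (hδf β0 hβ0))
  have ha0δ : a0 < δ := lt_of_le_of_lt ((le_max_right _ _).trans (le_max_right _ _))
    ((hg (max β0 (max γ a0))).trans (hδf β0 hβ0))
  have hGD : G δ = Dn := by
    rw [hGδ, hd]
    apply Set.Subset.antisymm
    · rintro _ ⟨ξ, _, rfl⟩
      exact ha2 ξ
    · rintro _ ⟨i, rfl⟩
      exact ⟨en i, (ha0 i).trans ha0δ, ha1 i⟩
  have hacc : Acc l s (G δ) δ n := by
    refine ⟨⟨⟨β0, hβ0⟩, fun β hβ => ⟨_, hδf β hβ, hfb β⟩⟩, fun β hβ k => ?_⟩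
    obtain ⟨k1, hk1⟩ := hP.coh β (max β γ) (le_max_left _ _) n k
    obtain ⟨y, hyA, hyO⟩ := hmeet (max β γ) (le_max_right _ _) k1
    obtain ⟨x, hxO, hxD⟩ := mem_closure_iff.1 (hAD hyA) _ (hP.opO (max β γ) n k1) hyO
    refine ⟨x, by rw [hGD]; exact hxD, ?_⟩
    by_cases hx : x ∈ XX β
    · left
      obtain ⟨p, ⟨hpS, hp1, hp2⟩, hpx⟩ := hk1 ⟨hxO, hx⟩
      exact ⟨p, hpS, hp1, hp2, hpx⟩
    · right
      exact ⟨XX_mono_aux hγδ.le (hA (hDA hxD)), hx, hP.levO _ _ _ _ hxO⟩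
  refine ⟨δ, fun α hα hm r => ?_⟩
  have h1 := hP.star δ n hacc α hα hm r
  refine closure_mono ?_ h1
  rw [hGD]
  exact hDA


end soft

end Pool.Agent.Helper732.HN
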