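import Pool.Agent.Helper732.HN.O
import Pool.Agent.Helper732.HN.PropsDef
import Pool.Agent.Helper732.HN.H1

set_option autoImplicit false

open Set Filter Topology

namespace Pool.Agent.Helper732.HN

/-! ### helpers -/

theorem h2_XX_mono {β γ : Om} (h : β ≤ γ) : XX β ⊆ XX γ := by
  rintro (x | ⟨a, b⟩) hx
  · trivial
  · exact lt_of_lt_of_le (show a < β from hx) h

theorem h2_level {l : Om → ℕ} {H : Set X} (h : ¬ ∃ γ, H ⊆ XX γ) :
    ∃ n, ∀ δ, ∃ x ∈ H, lam l x = n ∧ x ∉ XX δ := by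
  by_contra hcon
  push Not at hcon
  choose f hf using hcon
  obtain ⟨a, ha⟩ := om_bound f
  exact h ⟨a, fun x hx => h2_XX_mono (ha _).le (hf (lam l x) x hx rfl)⟩

section h2abs

variable {M : Type} [TopologicalSpace M]

theorem h2_cn [T2Space M] {O : Set M} {φ : ℕ → R3 → M} (hφ : ∀ i, IsOpenEmbedding (φ i))
    (hO : ⋃ i, range (φ i) = O) : CompletelyNormalSpace O := by
  have hopen : IsOpen O := by
    rw [← hO]
    exact isOpen_iUnion fun i => (hφ i).isOpen_range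
  have hmem : ∀ i w, φ i w ∈ O := fun i w => by
    rw [← hO]
    exact mem_iUnion.2 ⟨i, w, rfl⟩
  let ψ : ℕ → R3 → O := fun i w => ⟨φ i w, hmem i w⟩
  have hψ : ∀ i, IsOpenEmbedding (ψ i) := fun i =>
    IsOpenEmbedding.of_comp (ψ i) hopen.isOpenEmbedding_subtypeVal (hφ i)
  have hcov : ⋃ i, range (ψ i) = univ := by
    refine eq_univ_of_forall fun x => ?_
    have hx : (x : M) ∈ ⋃ i, range (φ i) := by rw [hO]; exact x.2
    obtain ⟨i, w, hw⟩ := mem_iUnion.1 hx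
    exact mem_iUnion.2 ⟨i, w, Subtype.ext hw⟩
  haveI : ∀ i, SecondCountableTopology (range (ψ i)) := fun i =>
    ((hψ i).toIsEmbedding.toHomeomorph.symm).secondCountableTopology
  haveI : SecondCountableTopology O :=
    TopologicalSpace.secondCountableTopology_of_countable_cover (fun i => (hψ i).isOpen_range) hcov
  haveI : WeaklyLocallyCompactSpace O := ⟨fun x => by
    have hx : x ∈ ⋃ i, range (ψ i) := by rw [hcov]; trivial
    obtain ⟨i, w, hw⟩ := mem_iUnion.1 hx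
    refine ⟨ψ i '' Metric.closedBall w 1, (isCompact_closedBall w 1).image (hψ i).continuous, ?_⟩
    rw [← hw]
    exact (hψ i).isOpenMap.image_mem_nhds (Metric.closedBall_mem_nhds w one_pos)⟩
  infer_instance

theorem h2_sep {O : Set M} (hO : IsOpen O) (hcn : CompletelyNormalSpace O) {K L : Set M}
    (hK : K ⊆ O) (hL : L ⊆ O) (h1 : Disjoint (closure K) L) (h2 : Disjoint K (closure L)) :
    ∃ V W : Set M, IsOpen V ∧ IsOpen W ∧ K ⊆ V ∧ L ⊆ W ∧ Disjoint V W ∧ V ⊆ O := by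
  have key : Disjoint (𝓝ˢ (((↑) : O → M) ⁻¹' K)) (𝓝ˢ (((↑) : O → M) ⁻¹' L)) := by
    refine CompletelyNormalSpace.completely_normal ?_ ?_
    · rw [Set.disjoint_left] at h1 ⊢
      intro x hx hx'
      exact h1 (continuous_subtype_val.closure_preimage_subset K hx) hx'
    · rw [Set.disjoint_left] at h2 ⊢
      intro x hx hx'
      exact h2 hx (continuous_subtype_val.closure_preimage_subset L hx')
  rw [← separatedNhds_iff_disjoint] at key
  obtain ⟨V, W, hV, hW, hKV, hLW, hd⟩ := key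
  refine ⟨(↑) '' V, (↑) '' W, hO.isOpenMap_subtype_val V hV, hO.isOpenMap_subtype_val W hW,
    fun x hx => ⟨⟨x, hK hx⟩, hKV hx, rfl⟩, fun x hx => ⟨⟨x, hL hx⟩, hLW hx, rfl⟩,
    (Set.disjoint_image_iff Subtype.val_injective).2 hd, ?_⟩
  rintro _ ⟨x, -, rfl⟩
  exact x.2

end h2abs

section soft

variable {l : Om → ℕ} {G : Om → Set X} {t : TopologicalSpace X} {s : Om → Str}
  (hP : Props l G t s) (hG : Guess G) (hl : ∀ n, ∀ β : Om, ∃ α, β ≤ α ∧ l α = n)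

include hP hG

/-! ## TARGETS -/

theorem h2_sep_aux {H K : Set X} (h1 : Disjoint (@closure X t H) K) {nH nK : ℕ} (hn : nH ≤ nK)
    (hH : ∀ δ, ∃ x ∈ H, lam l x = nH ∧ x ∉ XX δ) (hK : ∀ δ, ∃ x ∈ K, lam l x = nK ∧ x ∉ XX δ) :
    False := by
  letI := t
  obtain ⟨δ, hδ⟩ := star_unbounded hP hG (A := {x | x ∈ H ∧ lam l x = nH}) (m := nH)
    (fun x hx => hx.2.le) (fun δ => by
      obtain ⟨x, h1, h2, h3⟩ := hH δ
      exact ⟨x, ⟨h1, h2⟩, h3⟩)
  obtain ⟨x, hxK, hxn, hxδ⟩ := hK δ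
  rcases x with x | ⟨α, a⟩
  · exact hxδ trivial
  · have hδα : δ ≤ α := not_lt.1 hxδ
    have hα : nH ≤ l α := by
      rw [show l α = nK from hxn]
      exact hn
    have h3 := hδ α hδα hα a
    exact Set.disjoint_left.1 h1 (closure_mono (fun x hx => hx.1) h3) hxK

/-- one of two separated sets is bounded -/
theorem sep_bounded {H K : Set X} (h1 : Disjoint (@closure X t H) K)
    (h2 : Disjoint H (@closure X t K)) : (∃ γ, H ⊆ XX γ) ∨ ∃ γ, K ⊆ XX γ := by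
  by_contra hcon
  push Not at hcon
  obtain ⟨nH, hH⟩ := h2_level (l := l) (H := H) (fun ⟨γ, hγ⟩ => hcon.1 γ hγ)
  obtain ⟨nK, hK⟩ := h2_level (l := l) (H := K) (fun ⟨γ, hγ⟩ => hcon.2 γ hγ)
  rcases le_total nH nK with h | h
  · exact h2_sep_aux hP hG h1 h hH hK
  · exact h2_sep_aux hP hG h2.symm h hK hH

/-- separation of a bounded set from an arbitrary one -/
theorem sep_of_bounded {H K : Set X} (h1 : Disjoint (@closure X t H) K)
    (h2 : Disjoint H (@closure X t K)) {γ : Om} (hK : K ⊆ XX γ) :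
    @SeparatedNhds X t H K := by
  letI := t
  haveI : T2Space X := hP.t2
  classical
  have hex : ∀ n, ∃ δ, γ ≤ δ ∧ ((∃ k, Disjoint K (Oset (s δ) n k)) ∨
      (∀ α, δ ≤ α → n ≤ l α → ∀ a : NNReal, (Sum.inr (α, a) : X) ∈ closure K)) := by
    intro n
    rcases star_bounded hP hG hK n with ⟨δ, h, k, hk⟩ | ⟨δ, hδ⟩
    · exact ⟨δ, h, Or.inl ⟨k, hk⟩⟩
    · exact ⟨max γ δ, le_max_left _ _, Or.inr fun α hα => hδ α ((le_max_right _ _).trans hα)⟩
  choose d hdγ hd using hex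
  obtain ⟨δ, hδ⟩ := om_bound d
  obtain ⟨δ1, hcov⟩ := om_covBy δ
  have hlt : δ < δ1 := hcov.lt
  have hTa : ∀ n, (∃ k, Disjoint K (Oset (s (d n)) n k)) → ∃ k, Disjoint K (Oset (s δ) n k) := by
    rintro n ⟨k, hk⟩
    obtain ⟨k', hk'⟩ := hP.coh (d n) δ (hδ n).le n k
    refine ⟨k', ?_⟩
    rw [Set.disjoint_left] at hk ⊢
    intro x hx hxO
    exact hk hx (hk' ⟨hxO, h2_XX_mono (hdγ n) (hK hx)⟩)
  obtain ⟨T, hTdef⟩ : ∃ T : ℕ → Prop, ∀ n, T n ↔ ∃ k, Disjoint K (Oset (s δ) n k) :=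
    ⟨fun n => ∃ k, Disjoint K (Oset (s δ) n k), fun n => Iff.rfl⟩
  have hk1 : ∀ n, ∃ k, T n → Disjoint K (Oset (s δ) n k) := by
    intro n
    by_cases h : T n
    · obtain ⟨k, hk⟩ := (hTdef n).1 h
      exact ⟨k, fun _ => hk⟩
    · exact ⟨0, fun h' => absurd h' h⟩
  choose k1 hk1 using hk1
  have hb : ∀ n, ¬ T n → ∀ α, δ ≤ α → n ≤ l α → ∀ a : NNReal,
      (Sum.inr (α, a) : X) ∈ closure K := by
    intro n hn α hα
    rcases hd n with h | h
    · exact absurd ((hTdef n).2 (hTa n h)) hn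
    · exact h α ((hδ n).le.trans hα)
  have hKδ : K ⊆ XX δ := hK.trans (h2_XX_mono ((hdγ 0).trans (hδ 0).le))
  have hKδ1 : K ⊆ XX δ1 := hKδ.trans (h2_XX_mono hlt.le)
  obtain ⟨k2, hk2a, hk2b⟩ : ∃ k2 : ℕ → ℕ, (∀ n, n ≤ k2 n) ∧ ∀ n, k1 n + 1 ≤ k2 n :=
    ⟨fun n => max n (k1 n + 1), fun n => le_max_left _ _, fun n => le_max_right _ _⟩
  obtain ⟨Γ, hΓ⟩ : ∃ Γ : Set X, ∀ x, x ∈ Γ ↔ ∃ n, T n ∧ x ∈ Oset (s δ1) n (k2 n) :=
    ⟨{x | ∃ n, T n ∧ x ∈ Oset (s δ1) n (k2 n)}, fun x => Iff.rfl⟩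
  have hKO : ∀ n, T n → ∀ x ∈ K, x ∉ closure (Oset (s δ1) n (k2 n)) := by
    intro n hn x hx hcl
    have h3 : x ∈ closure (Oset (s δ1) n (k1 n + 1)) :=
      closure_mono (hP.monO δ1 n n _ _ le_rfl (hk2b n)) hcl
    have h4 := hP.shrink δ δ1 hcov n (k1 n) ⟨h3, hKδ hx⟩
    exact Set.disjoint_left.1 (hk1 n hn) hx h4
  have hKΓ : Disjoint K (closure Γ) := by
    rw [Set.disjoint_left]
    intro x hx hcl
    obtain ⟨V, hV, hxV, k, hk⟩ := hP.esc δ1 x (hKδ1 hx)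
    have h5 : x ∈ closure (V ∩ Γ) := hV.inter_closure ⟨hxV, hcl⟩
    have h6 : V ∩ Γ ⊆ ⋃ n ∈ {n | n < k ∧ T n}, Oset (s δ1) n (k2 n) := by
      rintro y ⟨hyV, hyΓ⟩
      obtain ⟨n, hn, hy⟩ := (hΓ y).1 hyΓ
      have hnk : n < k := by
        by_contra hnk
        exact Set.disjoint_left.1 (hk n (k2 n) ((not_lt.1 hnk).trans (hk2a n))) hyV hy
      exact mem_iUnion₂.2 ⟨n, ⟨hnk, hn⟩, hy⟩
    have hfin : {n | n < k ∧ T n}.Finite := (Set.finite_lt_nat k).subset fun n hn => hn.1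
    have h7 := closure_mono h6 h5
    rw [hfin.closure_biUnion] at h7
    obtain ⟨n, hn, hxn⟩ := mem_iUnion₂.1 h7
    exact hKO n hn.2 x hx hxn
  have hΓo : IsOpen Γ := by
    have : Γ = ⋃ n, ⋃ (_ : T n), Oset (s δ1) n (k2 n) := by
      ext x
      rw [hΓ, mem_iUnion₂]
      simp only [exists_prop]
    rw [this]
    exact isOpen_iUnion fun n => isOpen_iUnion fun _ => hP.opO _ _ _
  have hΓsub : Γ ⊆ XX δ1 := fun x hx => by
    obtain ⟨n, -, hxn⟩ := (hΓ x).1 hx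
    exact hP.subO _ _ _ hxn
  have hΓK : Disjoint (closure K) Γ := (hKΓ.mono_right subset_closure).closure_left hΓo
  have hcn : CompletelyNormalSpace (XX δ1) := by
    obtain ⟨φ, h1, h2⟩ := hP.cover δ1
    exact h2_cn h1 h2
  have hL1 : Disjoint (closure K) ((H ∪ Γ) ∩ XX δ1) :=
    Disjoint.mono_right inter_subset_left (disjoint_union_right.2 ⟨h2.symm, hΓK⟩)
  have hL2 : Disjoint K (closure ((H ∪ Γ) ∩ XX δ1)) := by
    refine Disjoint.mono_right (closure_mono inter_subset_left) ?_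
    rw [closure_union]
    exact disjoint_union_right.2 ⟨h1.symm, hKΓ⟩
  obtain ⟨V, W, hV, hW, hKV, hLW, hVW, hVO⟩ :=
    h2_sep (hP.opX δ1) hcn hKδ1 inter_subset_right hL1 hL2
  refine ⟨(closure V)ᶜ, V, isClosed_closure.isOpen_compl, hV, ?_, hKV,
    disjoint_compl_left.mono_right subset_closure⟩
  intro y hy
  by_cases hyX : y ∈ XX δ1
  · have hyW : y ∈ W := hLW ⟨Or.inl hy, hyX⟩
    intro hcl
    exact Set.disjoint_left.1 (hVW.closure_left hW) hcl hyW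
  · rcases y with y | ⟨α, a⟩
    · exact absurd trivial hyX
    have hα : δ1 ≤ α := not_lt.1 hyX
    have hT : T (l α) := by
      by_contra hT
      exact Set.disjoint_left.1 h2 hy (hb _ hT α (hlt.le.trans hα) le_rfl a)
    obtain ⟨N, hN, hyN, hNs⟩ := hP.nbd δ1 _ hyX (k2 (l α))
    intro hcl
    have hdj : Disjoint V N := by
      rw [Set.disjoint_left]
      intro z hzV hzN
      have hzO := hNs ⟨hzN, hVO hzV⟩
      have hzΓ : z ∈ Γ := (hΓ z).2 ⟨l α, hT, hzO⟩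
      exact Set.disjoint_left.1 hVW hzV (hLW ⟨Or.inr hzΓ, hVO hzV⟩)
    exact Set.disjoint_left.1 (hdj.closure_left hN) hcl hyN

theorem all_normal : ∀ Y : Set X, @NormalSpace Y (@instTopologicalSpaceSubtype X (· ∈ Y) t) := by
  letI := t
  haveI : CompletelyNormalSpace X := ⟨fun H K h1 h2 => by
    rw [← separatedNhds_iff_disjoint]
    rcases sep_bounded hP hG h1 h2 with ⟨γ, hγ⟩ | ⟨γ, hγ⟩
    · exact (sep_of_bounded hP hG h2.symm h1.symm hγ).symm
    · exact sep_of_bounded hP hG h1 h2 hγ⟩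
  intro Y
  infer_instance

include hl in
theorem not_cp : ¬ @CountablyParacompact X t := by
  letI := t
  intro hcp
  obtain ⟨δ0, -⟩ := hG (fun _ => Sum.inl 0) id
  obtain ⟨z, hz⟩ : ∃ z : Om, ∀ b, z ≤ b := by
    obtain ⟨z, -, hz⟩ := (wellFounded_lt (α := Om)).has_min univ ⟨δ0, trivial⟩
    exact ⟨z, fun b => not_lt.1 (hz b trivial)⟩
  have hU : ∀ n, IsOpen {x : X | lam l x ≤ n} := by
    intro n
    rw [isOpen_iff_forall_mem_open]
    intro y hy
    rcases y with y | ⟨α, a⟩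
    · refine ⟨XX z, ?_, hP.opX z, trivial⟩
      rintro (x | ⟨β, b⟩) hx
      · exact Nat.zero_le _
      · exact absurd (show β < z from hx) (not_lt.2 (hz β))
    · obtain ⟨α', hcov⟩ := om_covBy α
      have hya : (Sum.inr (α, a) : X) ∉ XX α := lt_irrefl α
      obtain ⟨N, hN, hyN, hNs⟩ := hP.nbd α _ hya 0
      refine ⟨N ∩ XX α', ?_, hN.inter (hP.opX α'), hyN, hcov.lt⟩
      rintro x ⟨hxN, hxX⟩
      by_cases hx : x ∈ XX α
      · exact (hP.levO α _ _ x (hNs ⟨hxN, hx⟩)).trans hy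
      · rcases x with x | ⟨β, b⟩
        · exact Nat.zero_le _
        · have h1 : β ≤ α := (covBy_Iio hcov).1 hxX
          have h2 : α ≤ β := not_lt.1 hx
          obtain rfl := le_antisymm h1 h2
          exact hy
  obtain ⟨ι, V, hVo, hVc, hVf, hVU⟩ := hcp (fun n => {x : X | lam l x ≤ n}) hU
    (eq_univ_of_forall fun x => mem_iUnion.2 ⟨lam l x, (le_refl (lam l x) : _)⟩)
  choose nn hnn using hVU
  obtain ⟨C, hC⟩ : ∃ C : ℕ → Set X, ∀ n, C n = (⋃ i ∈ {i | n < nn i}, V i)ᶜ := ⟨_, fun _ => rfl⟩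
  have hCc : ∀ n, IsClosed (C n) := fun n => by
    rw [hC]
    exact (isOpen_biUnion fun i _ => hVo i).isClosed_compl
  have hCU : ∀ n, ∀ x ∈ C n, lam l x ≤ n := by
    intro n x hx
    rw [hC] at hx
    have hxV : x ∈ ⋃ i, V i := by rw [hVc]; trivial
    obtain ⟨i, hi⟩ := mem_iUnion.1 hxV
    have h1 : nn i ≤ n := by
      by_contra h
      exact hx (mem_iUnion₂.2 ⟨i, not_le.1 h, hi⟩)
    exact le_trans (hnn i hi) h1
  have hCx : ∀ x, ∃ n, x ∈ C n := by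
    intro x
    have hfin := hVf.point_finite x
    obtain ⟨n, hn⟩ := (hfin.image nn).bddAbove
    refine ⟨n, ?_⟩
    rw [hC]
    intro hx
    obtain ⟨i, hi, hxi⟩ := mem_iUnion₂.1 hx
    exact absurd (hn ⟨i, hxi, rfl⟩) (not_le.2 hi)
  have hCb : ∀ n, ∃ γ, C n ⊆ XX γ := by
    intro n
    by_contra hcon
    obtain ⟨m, hm⟩ := h2_level (l := l) hcon
    have hmn : m ≤ n := by
      obtain ⟨x, hx, hxm, -⟩ := hm δ0
      exact hxm ▸ hCU n x hx
    obtain ⟨δ, hδ⟩ := star_unbounded hP hG (A := {x | x ∈ C n ∧ lam l x = m}) (m := m)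
      (fun x hx => hx.2.le) (fun δ => by
        obtain ⟨x, h1, h2, h3⟩ := hm δ
        exact ⟨x, ⟨h1, h2⟩, h3⟩)
    obtain ⟨α, hα, hlα⟩ := hl (n + 1) δ
    have h3 := hδ α hα (by omega) 0
    have h4 : (Sum.inr (α, 0) : X) ∈ C n := by
      have h5 := closure_mono (fun x (hx : x ∈ {x | x ∈ C n ∧ lam l x = m}) => hx.1) h3
      exact (hCc n).closure_subset h5
    have h5 : l α ≤ n := hCU n _ h4
    omega
  choose g hg using hCb
  obtain ⟨a, ha⟩ := om_bound g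
  obtain ⟨n, hn⟩ := hCx (Sum.inr (a, 0))
  exact lt_asymm (ha n) (hg n hn)

end soft

end Pool.Agent.Helper732.HN
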