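import Pool.Agent.Helper732.HN.O
import Pool.Agent.Helper732.HN.A
import Pool.Agent.Helper732.HN.B5
import Pool.Agent.Helper732.HN.G0

set_option autoImplicit false

open Set Filter Topology

namespace Pool.Agent.Helper732.HN

/-! ## TARGETS -/

section R

variable {l : Om → ℕ} {G : Om → Set X} {D : Om → Dat} (hD : ∀ α, Good l G D α)

include hD

theorem R_star (δ : Om) (m : ℕ) (h : Acc l (fun β => (D β).σ) (G δ) δ m) (α : Om) (hα : δ ≤ α)
    (hm : m ≤ l α) (a : NNReal) :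
    (Sum.inr (α, a) : X) ∈ @closure X (top (eD l D) univ) (G δ) := by
  letI : TopologicalSpace X := top (eD l D) univ
  have hatt : ∀ β ∈ (univ : Set Om), Att (top (eD l D) (Iio β)) β (eD l D β) :=
    fun β _ => good_att_all hD β
  have hec : Continuous (eD l D α) := (openEmb_e hatt isLowerSet_univ (mem_univ α)).continuous
  have hFW := ((hD α).task δ hα m h).2 hm
  have key : ∀ r : ℚ, ∀ N : ℕ, ∃ j : ℕ, N < j ∧
      eD l D α (pari (1 / ((j : ℝ) + 1 / 2), (r : ℝ), 0)) ∈ G δ := by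
    intro r N
    obtain ⟨j, ⟨hj1, hj2, hj3⟩, hjN⟩ := (hFW r).exists_gt N
    obtain ⟨hjJ, hjn, hjE⟩ := hj1
    refine ⟨j, hjN, ?_⟩
    have hj0 : (0 : ℝ) ≤ (j : ℝ) := Nat.cast_nonneg j
    have hn0 : (0 : ℝ) ≤ ((D α).σ.n j : ℝ) := Nat.cast_nonneg _
    have hnq : ((D α).σ.n j : ℝ) ≤ (l α : ℝ) := by exact_mod_cast hjn.trans hm
    have hreg : mk j ((D α).σ.n j) ∈ Reg (l α) (D α).f := by
      refine ⟨?_, ?_, ?_, ?_, ?_⟩
      · show (0 : ℝ) < (j : ℝ) + 1 / 2
        linarith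
      · show (0 : ℝ) < ((D α).σ.n j : ℝ) + 1 / 2
        linarith
      · show ((D α).σ.n j : ℝ) + 1 / 2 < (l α : ℝ) + 3 / 4
        linarith
      · show (D α).f ((j : ℝ) + 1 / 2) < 0
        rw [hj2]
        norm_num
      · show (0 : ℝ) < 1
        norm_num
    have htau : tauI (l α) (D α).f (D α).w (mk j ((D α).σ.n j)) =
        (1 / ((j : ℝ) + 1 / 2), (r : ℝ), 0) := by
      unfold tauI mk
      simp only [hj2, hj3]
      refine Prod.ext rfl (Prod.ext ?_ ?_)
      · show Real.log _ + ((r : ℝ) - Real.log _) = (r : ℝ)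
        ring
      · show Real.log ((0 - -(3 / 4)) / (1 - 0) * (4 / 3)) = 0
        norm_num
    have h1 := (att_reg (α := α) (q := l α) (f := (D α).f) (w := (D α).w)
      (E := (D α).σ.E) hreg).2
    rw [htau] at h1
    show att α (D α).σ.E (l α) (D α).f (D α).w _ ∈ G δ
    rw [h1]
    exact hjE
  have hg : Continuous (fun z : ℝ × ℝ => eD l D α (pari (z.1, z.2, 0))) :=
    hec.comp (pari_continuous.comp (by fun_prop))
  have hcl : ((0 : ℝ), Real.sqrt a) ∈
      closure {z : ℝ × ℝ | eD l D α (pari (z.1, z.2, 0)) ∈ G δ} := by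
    rw [Metric.mem_closure_iff]
    intro ε hε
    obtain ⟨r, hr1, hr2⟩ := exists_rat_btwn (show Real.sqrt a < Real.sqrt a + ε by linarith)
    obtain ⟨N, hN⟩ := exists_nat_gt (1 / ε)
    obtain ⟨j, hj, hjA⟩ := key r N
    refine ⟨(1 / ((j : ℝ) + 1 / 2), (r : ℝ)), hjA, ?_⟩
    have hjN : (N : ℝ) < (j : ℝ) := by exact_mod_cast hj
    have hj0 : 0 < (j : ℝ) + 1 / 2 := by positivity
    rw [Prod.dist_eq, max_lt_iff]
    constructor
    · rw [Real.dist_eq, zero_sub, abs_neg, abs_of_pos (by positivity), div_lt_iff₀ hj0]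
      have h2 : 1 < ε * N := by
        rw [div_lt_iff₀ hε] at hN
        linarith
      nlinarith
    · show dist (Real.sqrt a) (r : ℝ) < ε
      rw [Real.dist_eq, abs_sub_comm, abs_of_pos (by linarith)]
      linarith
  have h1 := map_mem_closure hg hcl (fun z hz => hz)
  have h2 : eD l D α (pari ((0 : ℝ), Real.sqrt a, 0)) = Sum.inr (α, a) := by
    have e1 : pari ((0 : ℝ), Real.sqrt a, 0) = ((a : ℝ), 0, 0) := by
      unfold pari
      simp
    rw [e1]
    have hR : (((a : ℝ), 0, 0) : R3) ∈ Ray := ⟨a.2, rfl⟩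
    show att α (D α).σ.E (l α) (D α).f (D α).w _ = _
    rw [att_ray hR]
    simp
  rw [← h2]
  exact h1

end R

end Pool.Agent.Helper732.HN
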