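import Pool.Agent.Helper732.HN.I
import Pool.Agent.Helper732.HN.H2
import Pool.Agent.Helper732.HN.R1
import Pool.Agent.Helper732.HN.R2
import Pool.Agent.Helper732.HN.R3
import Pool.Agent.Helper732.HN.G1
import Pool.Agent.Helper732.HN.G2

/-!
# The manifold
-/

set_option autoImplicit false

open Set Filter Topology

namespace Pool.Agent.Helper732.HN

instance : Inhabited Dat := ⟨⟨⟨fun _ => Sum.inl 0, ∅, fun _ => 0⟩, fun _ => 0, fun _ => 0⟩⟩

/-- the data of the construction exist -/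
theorem exists_data (l : Om → ℕ) (G : Om → Set X) : ∃ D : Om → Dat, ∀ α, Good l G D α := by
  refine exists_rec (Good l G) (fun D D' α h hg => good_congr h hg) ?_
  intro α D h
  by_cases h0 : ∃ β, β < α
  · by_cases h1 : ∀ β < α, ∃ γ < α, β < γ
    · obtain ⟨σ, a1, a2, a3, a4⟩ := stage_lim h ⟨h0, h1⟩
      exact good_of_strip σ a1 a2 a3 a4
    · push Not at h1
      obtain ⟨γ, hγ, hγ'⟩ := h1
      obtain ⟨σ, a1, a2, a3, a4⟩ := stage_succ h (γ := γ)
        ⟨hγ, fun c hc hc' => absurd hc (not_lt.2 (hγ' c hc'))⟩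
      exact good_of_strip σ a1 a2 a3 a4
  · obtain ⟨σ, a1, a2, a3, a4⟩ := stage_zero h h0
    exact good_of_strip σ a1 a2 a3 a4

theorem exists_props (l : Om → ℕ) (G : Om → Set X) :
    ∃ (t : TopologicalSpace X) (s : Om → Str), Props l G t s := by
  obtain ⟨D, hD⟩ := exists_data l G
  exact ⟨top (eD l D) univ, fun β => (D β).σ, R_t2 hD, R_opX hD, R_chart hD, R_cover hD,
    R_opO hD, R_subO hD, R_levO hD, R_monO hD, R_esc hD, R_nbd hD, R_shrink hD, R_coh hD,
    R_star hD⟩

theorem exists_level : ∃ l : Om → ℕ, ∀ n, ∀ β : Om, ∃ α, β ≤ α ∧ l α = n := by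
  have h1 : Cardinal.mk (Om × ℕ) = Cardinal.mk Om := by
    rw [Cardinal.mk_prod, Cardinal.lift_id, Cardinal.lift_id, Cardinal.mk_nat]
    have hOm : Cardinal.mk Om = Cardinal.aleph 1 := by simp
    rw [hOm]
    exact Cardinal.mul_eq_left (Cardinal.aleph0_le_aleph 1) (Cardinal.aleph0_le_aleph 1)
      Cardinal.aleph0_ne_zero
  obtain ⟨F⟩ := Cardinal.eq.1 h1
  refine ⟨fun α => (F.symm α).2, fun n β => ?_⟩
  by_contra hc
  push Not at hc
  have h2 : range (fun a : Om => F (a, n)) ⊆ Iio β := by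
    rintro _ ⟨a, rfl⟩
    by_contra hn
    exact hc (F (a, n)) (not_lt.1 hn) (by simp)
  have h3 : (range (fun a : Om => F (a, n))).Countable := (om_countable β).mono h2
  have h4 : Function.Injective (fun a : Om => F (a, n)) := by
    intro a b hab
    have := F.injective hab
    exact (Prod.ext_iff.1 this).1
  have h5 : Countable Om := by
    have := h3.to_subtype
    exact (Equiv.ofInjective _ h4).injective.countable
  have h6 : (univ : Set Om).Countable := countable_univ
  rw [Set.countable_univ_iff, ← Cardinal.mk_le_aleph0_iff] at h6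
  have h7 : Cardinal.mk Om = Cardinal.aleph 1 := by simp
  rw [h7] at h6
  exact absurd h6 (not_le.2 Cardinal.aleph0_lt_aleph_one)

/-- the homeomorphism of `R3` with the Euclidean space -/
theorem exists_homeo : Nonempty (R3 ≃ₜ EuclideanSpace ℝ (Fin 3)) := by
  have h : Module.finrank ℝ R3 = Module.finrank ℝ (EuclideanSpace ℝ (Fin 3)) := by
    simp [R3]
  exact ⟨(ContinuousLinearEquiv.ofFinrankEq h).toHomeomorph⟩

/-- every point has an open neighbourhood homeomorphic to the `n`-dimensional Euclidean space -/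
def LocallyEuclidean (n : ℕ) (M : Type) [TopologicalSpace M] : Prop :=
  ∀ x : M, ∃ U : Set M, IsOpen U ∧ x ∈ U ∧ Nonempty (U ≃ₜ EuclideanSpace ℝ (Fin n))

theorem main (hd : Diamond) : ∃ (M : Type) (_ : TopologicalSpace M), T2Space M ∧
    LocallyEuclidean 3 M ∧ (∀ Y : Set M, NormalSpace Y) ∧ ¬ CountablyParacompact M := by
  obtain ⟨G, hG⟩ := exists_guess hd
  obtain ⟨l, hl⟩ := exists_level
  obtain ⟨t, s, hP⟩ := exists_props l G
  refine ⟨X, t, hP.t2, fun x => ?_, all_normal hP hG, not_cp hP hG hl⟩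
  obtain ⟨φ, hφ, hx⟩ := hP.chart x
  obtain ⟨ψ⟩ := exists_homeo
  refine ⟨range φ, hφ.isOpen_range, hx, ⟨?_⟩⟩
  exact (hφ.toHomeomorph.symm).trans ψ

end Pool.Agent.Helper732.HN
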