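import Pool.Agent.Helper732.HN.O
import Pool.Agent.Helper732.HN.PropsDef

set_option autoImplicit false

open Set Filter Topology

namespace Pool.Agent.Helper732.HN

/-! ## TARGETS -/

theorem hni_infinite : Infinite Om := by
  by_contra hcon
  rw [not_infinite_iff_finite] at hcon
  have hne : Nonempty Om := by
    by_contra hne
    obtain ⟨a, -⟩ := om_bound (fun _ => (Classical.choice (by
      have h0 : Cardinal.mk Om = Cardinal.aleph 1 := by
        rw [Cardinal.mk_toType, Cardinal.card_ord]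
      rw [← Cardinal.mk_ne_zero_iff, h0]
      exact (Cardinal.aleph_pos 1).ne') : Om))
    exact hne ⟨a⟩
  obtain ⟨m, hm⟩ := Finite.exists_max (id : Om → Om)
  obtain ⟨b, hb⟩ := om_gt m
  exact absurd hb (not_lt.2 (hm b))

theorem hni_lub (c : ℕ → Om) : ∃ δ : Om, (∀ n, c n < δ) ∧ ∀ b < δ, ∃ n, b ≤ c n := by
  have hne : {d : Om | ∀ n, c n < d}.Nonempty := om_bound c
  refine ⟨WellFounded.min wellFounded_lt {d : Om | ∀ n, c n < d} hne,
    WellFounded.min_mem _ _ hne, fun b hb => ?_⟩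
  by_contra hcon
  push Not at hcon
  exact WellFounded.not_lt_min wellFounded_lt {d : Om | ∀ n, c n < d} (x := b) hcon hb

theorem hni_dom (f : Om → Om) (c : Om) : ∃ d, c < d ∧ ∀ b ≤ c, f b < d := by
  obtain ⟨c', hc'⟩ := om_gt c
  have hcount : (Iic c).Countable := (om_countable c').mono fun x hx => lt_of_le_of_lt hx hc'
  obtain ⟨g, hg⟩ := hcount.exists_eq_range ⟨c, le_refl c⟩
  obtain ⟨d1, hd1⟩ := om_bound (fun n => f (g n))
  obtain ⟨d, hd⟩ := om_gt (max c d1)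
  refine ⟨d, lt_of_le_of_lt (le_max_left _ _) hd, fun b hb => ?_⟩
  have hb' : b ∈ range g := by
    rw [← hg]
    exact hb
  obtain ⟨n, rfl⟩ := hb'
  exact (hd1 n).trans (lt_of_le_of_lt (le_max_right _ _) hd)

/-- the continuum hypothesis follows from diamond -/
theorem ch_of_diamond (h : Diamond) : Cardinal.continuum ≤ Cardinal.mk Om := by
  obtain ⟨A, hA⟩ := h
  have := hni_infinite
  let en : ℕ ↪ Om := Infinite.natEmbedding Om
  obtain ⟨a0, ha0⟩ := om_bound en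
  have hclub : IsClub (fun a => a0 < a) := by
    constructor
    · intro a
      obtain ⟨b, hb⟩ := om_gt (max a a0)
      exact ⟨b, lt_of_le_of_lt (le_max_left _ _) hb, lt_of_le_of_lt (le_max_right _ _) hb⟩
    · rintro a ⟨b, hb⟩ hcl
      obtain ⟨c, ⟨-, hc⟩, hc'⟩ := hcl b hb
      exact hc'.trans hc
  have hsurj : Function.Surjective (fun (a : Om) (n : ℕ) => A a (en n)) := by
    intro x
    obtain ⟨a, ha, haS⟩ := hA (fun b => ∃ n, b = en n ∧ x n) _ hclub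
    refine ⟨a, ?_⟩
    funext n
    have h1 := haS (en n) ((ha0 n).trans ha)
    apply propext
    change A a (en n) ↔ x n
    rw [← h1]
    constructor
    · rintro ⟨m, hm, hx⟩
      rwa [en.injective hm]
    · intro hx
      exact ⟨n, rfl, hx⟩
  have h1 := Cardinal.mk_le_of_surjective hsurj
  have h2 : Cardinal.mk (ℕ → Prop) = Cardinal.continuum := by
    have : Cardinal.mk (Set ℕ) = 2 ^ Cardinal.mk ℕ := Cardinal.mk_set
    rw [Cardinal.mk_nat, Cardinal.two_power_aleph0] at this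
    exact this
  rw [← h2]
  exact h1

theorem isClub_closure (f : Om → Om) : IsClub fun a => (∃ b, b < a) ∧ ∀ b < a, f b < a := by
  constructor
  · intro a
    choose g hg1 hg2 using hni_dom f
    obtain ⟨δ, hδ1, hδ2⟩ := hni_lub (fun n => g^[n] a)
    have ha : a < δ := hδ1 0
    refine ⟨δ, ha, ⟨a, ha⟩, fun b hb => ?_⟩
    obtain ⟨n, hn⟩ := hδ2 b hb
    have h1 : f b < g (g^[n] a) := hg2 _ b hn
    rw [← Function.iterate_succ_apply' g n a] at h1
    exact h1.trans (hδ1 (n + 1))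
  · intro a ha hcl
    refine ⟨ha, fun b hb => ?_⟩
    obtain ⟨c, ⟨hbc, hca⟩, -, hc⟩ := hcl b hb
    exact (hc b hbc).trans hca

theorem hni_prod_le {α β γ : Type} (hγ : Cardinal.aleph0 ≤ Cardinal.mk γ)
    (hα : Cardinal.mk α ≤ Cardinal.mk γ) (hβ : Cardinal.mk β ≤ Cardinal.mk γ) :
    Cardinal.mk (α × β) ≤ Cardinal.mk γ := by
  rw [Cardinal.mk_prod, Cardinal.lift_id, Cardinal.lift_id]
  calc Cardinal.mk α * Cardinal.mk β ≤ Cardinal.mk γ * Cardinal.mk γ := mul_le_mul' hα hβ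
    _ = Cardinal.mk γ := Cardinal.mul_eq_self hγ

theorem hni_sum_le {α β γ : Type} (hγ : Cardinal.aleph0 ≤ Cardinal.mk γ)
    (hα : Cardinal.mk α ≤ Cardinal.mk γ) (hβ : Cardinal.mk β ≤ Cardinal.mk γ) :
    Cardinal.mk (α ⊕ β) ≤ Cardinal.mk γ := by
  rw [Cardinal.mk_sum, Cardinal.lift_id, Cardinal.lift_id]
  calc Cardinal.mk α + Cardinal.mk β ≤ Cardinal.mk γ + Cardinal.mk γ := add_le_add hα hβ
    _ = Cardinal.mk γ := Cardinal.add_eq_self hγ

theorem exists_guess (h : Diamond) : ∃ G : Om → Set X, Guess G := by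
  have hch := ch_of_diamond h
  have := hni_infinite
  have hOm : Cardinal.aleph0 ≤ Cardinal.mk Om := Cardinal.aleph0_le_mk Om
  have hOO : Cardinal.mk (Om × Om) ≤ Cardinal.mk Om := hni_prod_le hOm le_rfl le_rfl
  have hR : Cardinal.mk ℝ ≤ Cardinal.mk Om := by
    rw [Cardinal.mk_real]
    exact hch
  have hNN : Cardinal.mk NNReal ≤ Cardinal.mk Om :=
    (Cardinal.mk_le_of_injective (f := ((↑) : NNReal → ℝ)) NNReal.coe_injective).trans hR
  have hR3 : Cardinal.mk R3 ≤ Cardinal.mk Om :=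
    hni_prod_le hOm hR (hni_prod_le hOm hR hR)
  have hX : Cardinal.mk X ≤ Cardinal.mk Om :=
    hni_sum_le hOm hR3 (hni_prod_le hOm le_rfl hNN)
  obtain ⟨c⟩ := hX
  obtain ⟨π⟩ := hOO
  obtain ⟨A, hA⟩ := h
  refine ⟨fun δ => {x | ∃ ξ < δ, π (ξ, c x) < δ ∧ A δ (π (ξ, c x))}, fun a f => ?_⟩
  obtain ⟨δ, ⟨hδ1, hδ2⟩, hδ3⟩ := hA (fun b => ∃ ξ, b = π (ξ, c (a ξ))) _
    (isClub_closure (fun β => max (f β) (π (β, c (a β)))))
  refine ⟨δ, hδ1, fun β hβ => lt_of_le_of_lt (le_max_left _ _) (hδ2 β hβ), ?_⟩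
  ext x
  constructor
  · rintro ⟨ξ, hξ, h1, h2⟩
    obtain ⟨ξ', h3⟩ := (hδ3 _ h1).2 h2
    have h4 := π.injective h3
    rw [Prod.mk.injEq] at h4
    obtain ⟨h5, h6⟩ := h4
    subst h5
    exact ⟨ξ, hξ, (c.injective h6).symm⟩
  · rintro ⟨ξ, hξ, rfl⟩
    have h1 : π (ξ, c (a ξ)) < δ := lt_of_le_of_lt (le_max_right _ _) (hδ2 ξ hξ)
    exact ⟨ξ, hξ, h1, (hδ3 _ h1).1 ⟨ξ, rfl⟩⟩

end Pool.Agent.Helper732.HN
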